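import Pool.Agent.Lib.MP_c7fb7b_an.Defs

/-!
# A1: basic properties of the gauge `ga` (40 min)

All statements follow from `Finset.sup'_le`, `Finset.le_sup'`, `Real.sqrt_le_sqrt`, and for the
triangle inequality of `x ↦ √(∑ x²)` (Minkowski with p = 2, e.g. `Real.Lp_add_le` or a direct
proof by Cauchy-Schwarz `Finset.sum_mul_sq_le_sq_mul_sq` / `Finset.inner_mul_le_norm_mul_norm`).
`hh k x n = ga k (range (n+1)) x`.
-/

open Finset Filter Topology

namespace Pool.Agent.WB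

variable {k : ℕ → ℝ} {s t : Finset ℕ} {x y z : ℕ → ℝ}

theorem ga_le {C : ℝ} (h2 : √(∑ m ∈ s, x m ^ 2) ≤ C)
    (hV : ∀ V ⊆ s, k V.card * ∑ m ∈ V, |x m| ≤ C) : ga k s x ≤ C := by
  unfold ga
  exact max_le h2 (Finset.sup'_le _ _ fun V hV' => hV V (mem_powerset.mp hV'))

theorem l2_le_ga (k : ℕ → ℝ) (s : Finset ℕ) (x : ℕ → ℝ) : √(∑ m ∈ s, x m ^ 2) ≤ ga k s x := by
  exact le_max_left _ _

theorem V_le_ga {V : Finset ℕ} (k : ℕ → ℝ) (h : V ⊆ s) (x : ℕ → ℝ) :
    k V.card * ∑ m ∈ V, |x m| ≤ ga k s x := by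
  unfold ga
  exact le_trans (Finset.le_sup' (f := fun V : Finset ℕ => k V.card * ∑ m ∈ V, |x m|)
    (mem_powerset.mpr h)) (le_max_right _ _)

theorem ga_nonneg (k : ℕ → ℝ) (s : Finset ℕ) (x : ℕ → ℝ) : 0 ≤ ga k s x := by
  exact le_trans (Real.sqrt_nonneg _) (l2_le_ga k s x)

theorem abs_le_ga (k : ℕ → ℝ) {m : ℕ} (h : m ∈ s) (x : ℕ → ℝ) : |x m| ≤ ga k s x := by
  refine le_trans (Real.abs_le_sqrt ?_) (l2_le_ga k s x)
  exact Finset.single_le_sum (f := fun m => x m ^ 2) (fun i _ => sq_nonneg _) h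

theorem ga_k0 (s : Finset ℕ) (x : ℕ → ℝ) : ga k0 s x = √(∑ m ∈ s, x m ^ 2) := by
  refine le_antisymm (ga_le le_rfl fun V _ => ?_) (l2_le_ga k0 s x)
  unfold k0
  rw [zero_mul]
  exact Real.sqrt_nonneg _

theorem ga_add (hk : ∀ v, 0 ≤ k v) (h : ∀ m ∈ s, |z m| ≤ |x m| + |y m|) :
    ga k s z ≤ ga k s x + ga k s y := by
  refine ga_le ?_ fun V hV => ?_
  · refine le_trans ?_ (add_le_add (l2_le_ga k s x) (l2_le_ga k s y))
    have hX : 0 ≤ ∑ m ∈ s, x m ^ 2 := Finset.sum_nonneg fun i _ => sq_nonneg _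
    have hY : 0 ≤ ∑ m ∈ s, y m ^ 2 := Finset.sum_nonneg fun i _ => sq_nonneg _
    refine Real.sqrt_le_iff.mpr ⟨by positivity, ?_⟩
    have h1 : ∑ m ∈ s, z m ^ 2 ≤ ∑ m ∈ s, (x m ^ 2 + 2 * (|x m| * |y m|) + y m ^ 2) := by
      refine Finset.sum_le_sum fun m hm => ?_
      have h2 := h m hm
      have h3 : z m ^ 2 ≤ (|x m| + |y m|) ^ 2 := by
        rw [← sq_abs (z m)]
        exact pow_le_pow_left₀ (abs_nonneg _) h2 2
      calc z m ^ 2 ≤ (|x m| + |y m|) ^ 2 := h3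
        _ = |x m| ^ 2 + 2 * (|x m| * |y m|) + |y m| ^ 2 := by ring
        _ = _ := by rw [sq_abs, sq_abs]
    have h4 : ∑ m ∈ s, |x m| * |y m| ≤ √(∑ m ∈ s, x m ^ 2) * √(∑ m ∈ s, y m ^ 2) := by
      have h5 := Real.sum_mul_le_sqrt_mul_sqrt s (fun m => |x m|) (fun m => |y m|)
      simpa only [sq_abs] using h5
    rw [Finset.sum_add_distrib, Finset.sum_add_distrib, ← Finset.mul_sum] at h1
    have h6 := Real.sq_sqrt hX
    have h7 := Real.sq_sqrt hY
    nlinarith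
  · refine le_trans ?_ (add_le_add (V_le_ga k hV x) (V_le_ga k hV y))
    rw [← mul_add, ← Finset.sum_add_distrib]
    exact mul_le_mul_of_nonneg_left (Finset.sum_le_sum fun m hm => h m (hV hm)) (hk _)

theorem ga_mono (hk : ∀ v, 0 ≤ k v) (h : ∀ m ∈ s, |z m| ≤ |x m|) : ga k s z ≤ ga k s x := by
  refine ga_le ?_ fun V hV => ?_
  · refine le_trans (Real.sqrt_le_sqrt (Finset.sum_le_sum fun m hm => ?_)) (l2_le_ga k s x)
    exact sq_le_sq.mpr (h m hm)
  · exact le_trans (mul_le_mul_of_nonneg_left (Finset.sum_le_sum fun m hm => h m (hV hm)) (hk _))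
      (V_le_ga k hV x)

theorem ga_smul (hk : ∀ v, 0 ≤ k v) {a : ℝ} (ha : 0 ≤ a) (h : ∀ m ∈ s, |z m| ≤ a * |x m|) :
    ga k s z ≤ a * ga k s x := by
  refine ga_le ?_ fun V hV => ?_
  · refine le_trans ?_ (mul_le_mul_of_nonneg_left (l2_le_ga k s x) ha)
    refine Real.sqrt_le_iff.mpr ⟨mul_nonneg ha (Real.sqrt_nonneg _), ?_⟩
    rw [mul_pow, Real.sq_sqrt (Finset.sum_nonneg fun i _ => sq_nonneg _), Finset.mul_sum]
    refine Finset.sum_le_sum fun m hm => ?_
    rw [← sq_abs (z m), ← sq_abs (x m), ← mul_pow]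
    exact pow_le_pow_left₀ (abs_nonneg _) (h m hm) 2
  · refine le_trans ?_ (mul_le_mul_of_nonneg_left (V_le_ga k hV x) ha)
    have e1 : a * (k V.card * ∑ m ∈ V, |x m|) = k V.card * ∑ m ∈ V, a * |x m| := by
      rw [← Finset.mul_sum]; ring
    rw [e1]
    exact mul_le_mul_of_nonneg_left (Finset.sum_le_sum fun m hm => h m (hV hm)) (hk _)

theorem ga_smul_eq (hk : ∀ v, 0 ≤ k v) (a : ℝ) (x : ℕ → ℝ) :
    ga k s (a • x) = |a| * ga k s x := by
  refine le_antisymm (ga_smul hk (abs_nonneg a) fun m _ => ?_) ?_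
  · rw [Pi.smul_apply, smul_eq_mul, abs_mul]
  · by_cases ha : a = 0
    · rw [ha, abs_zero, zero_mul]
      exact ga_nonneg _ _ _
    · have ha' : 0 < |a| := abs_pos.mpr ha
      have h1 : ga k s x ≤ |a|⁻¹ * ga k s (a • x) := by
        refine ga_smul hk (inv_nonneg.mpr (abs_nonneg a)) fun m _ => ?_
        rw [Pi.smul_apply, smul_eq_mul, abs_mul, ← mul_assoc, inv_mul_cancel₀ ha'.ne', one_mul]
      calc |a| * ga k s x ≤ |a| * (|a|⁻¹ * ga k s (a • x)) :=
            mul_le_mul_of_nonneg_left h1 ha'.le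
        _ = ga k s (a • x) := by rw [← mul_assoc, mul_inv_cancel₀ ha'.ne', one_mul]

theorem ga_set (hk : ∀ v, 0 ≤ k v) (h : s ⊆ t) (x : ℕ → ℝ) : ga k s x ≤ ga k t x := by
  refine ga_le ?_ fun V hV => V_le_ga k (hV.trans h) x
  exact le_trans (Real.sqrt_le_sqrt (Finset.sum_le_sum_of_subset_of_nonneg h
    fun i _ _ => sq_nonneg _)) (l2_le_ga k t x)

theorem ga_restrict (hk : ∀ v, 0 ≤ k v) (hk' : ∀ v w, 1 ≤ w → w ≤ v → k v ≤ k w)
    (h : ∀ m ∈ s, m ∉ t → x m = 0) : ga k s x ≤ ga k t x := by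
  refine ga_le ?_ fun V hV => ?_
  · refine le_trans (Real.sqrt_le_sqrt ?_) (l2_le_ga k t x)
    calc ∑ m ∈ s, x m ^ 2 = ∑ m ∈ s.filter (· ∈ t), x m ^ 2 := by
          refine (Finset.sum_subset (Finset.filter_subset _ _) fun m hm hm2 => ?_).symm
          have h1 : m ∉ t := fun h2 => hm2 (Finset.mem_filter.mpr ⟨hm, h2⟩)
          rw [h m hm h1]
          norm_num
      _ ≤ ∑ m ∈ t, x m ^ 2 := Finset.sum_le_sum_of_subset_of_nonneg
          (fun m hm => (Finset.mem_filter.mp hm).2) fun i _ _ => sq_nonneg _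
  · have e1 : ∑ m ∈ V, |x m| = ∑ m ∈ V.filter (· ∈ t), |x m| := by
      refine (Finset.sum_subset (Finset.filter_subset _ _) fun m hm hm2 => ?_).symm
      have h1 : m ∉ t := fun h2 => hm2 (Finset.mem_filter.mpr ⟨hm, h2⟩)
      rw [h m (hV hm) h1, abs_zero]
    rw [e1]
    by_cases hW : (V.filter (· ∈ t)).card = 0
    · rw [Finset.card_eq_zero.mp hW, Finset.sum_empty, mul_zero]
      exact ga_nonneg _ _ _
    · refine le_trans (mul_le_mul_of_nonneg_right (hk' _ _ (Nat.one_le_iff_ne_zero.mpr hW)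
        (Finset.card_le_card (Finset.filter_subset _ _)))
        (Finset.sum_nonneg fun i _ => abs_nonneg _)) ?_
      exact V_le_ga k (fun m hm => (Finset.mem_filter.mp hm).2) x

theorem ga_le_sum (hk : ∀ v, 0 ≤ k v) (hk2 : ∀ v, k v ≤ 2) (s : Finset ℕ) (x : ℕ → ℝ) :
    ga k s x ≤ 2 * ∑ m ∈ s, |x m| := by
  have hS : 0 ≤ ∑ m ∈ s, |x m| := Finset.sum_nonneg fun i _ => abs_nonneg _
  refine ga_le ?_ fun V hV => ?_
  · have h1 : √(∑ m ∈ s, x m ^ 2) ≤ ∑ m ∈ s, |x m| := by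
      refine Real.sqrt_le_iff.mpr ⟨hS, ?_⟩
      have h2 := Finset.sum_sq_le_sq_sum_of_nonneg (s := s) (f := fun m => |x m|)
        (fun i _ => abs_nonneg _)
      simpa only [sq_abs] using h2
    linarith
  · have h1 : ∑ m ∈ V, |x m| ≤ ∑ m ∈ s, |x m| :=
      Finset.sum_le_sum_of_subset_of_nonneg hV fun i _ _ => abs_nonneg _
    exact mul_le_mul (hk2 _) h1 (Finset.sum_nonneg fun i _ => abs_nonneg _) (by norm_num)

theorem ga_congr (k : ℕ → ℝ) (h : ∀ m ∈ s, x m = y m) : ga k s x = ga k s y := by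
  refine le_antisymm ?_ ?_
  · refine ga_le ?_ fun V hV => ?_
    · rw [Finset.sum_congr rfl fun m hm => by rw [h m hm]]
      exact l2_le_ga k s y
    · rw [Finset.sum_congr rfl fun m hm => by rw [h m (hV hm)]]
      exact V_le_ga k hV y
  · refine ga_le ?_ fun V hV => ?_
    · rw [Finset.sum_congr rfl fun m hm => by rw [← h m hm]]
      exact l2_le_ga k s x
    · rw [Finset.sum_congr rfl fun m hm => by rw [← h m (hV hm)]]
      exact V_le_ga k hV x

theorem continuous_ga (k : ℕ → ℝ) (s : Finset ℕ) : Continuous (fun x : ℕ → ℝ => ga k s x) := by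
  unfold ga
  refine Continuous.max ?_ ?_
  · exact Real.continuous_sqrt.comp (continuous_finsetSum _ fun m _ => (continuous_apply m).pow 2)
  · refine Continuous.finset_sup'_apply _ fun V _ => ?_
    exact continuous_const.mul (continuous_finsetSum _ fun m _ => (continuous_apply m).abs)

theorem continuous_hh (k : ℕ → ℝ) (n : ℕ) : Continuous (fun x : ℕ → ℝ => hh k x n) := by
  exact continuous_ga k (range (n + 1))

theorem hh_mono (hk : ∀ v, 0 ≤ k v) (x : ℕ → ℝ) {n m : ℕ} (h : n ≤ m) : hh k x n ≤ hh k x m := by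
  exact ga_set hk (Finset.range_mono (by omega)) x

theorem abs_hh_sub_le (hk : ∀ v, 0 ≤ k v) (x y : ℕ → ℝ) (n : ℕ) :
    |hh k x n - hh k y n| ≤ hh k (x - y) n := by
  unfold hh
  rw [abs_sub_le_iff]
  constructor
  · have h1 : ga k (range (n + 1)) x ≤ ga k (range (n + 1)) (x - y) + ga k (range (n + 1)) y :=
      ga_add hk fun m _ => by
        have : x m = (x - y) m + y m := by simp
        calc |x m| = |(x - y) m + y m| := by rw [← this]
          _ ≤ _ := abs_add_le _ _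
    linarith
  · have h1 : ga k (range (n + 1)) y ≤ ga k (range (n + 1)) (x - y) + ga k (range (n + 1)) x :=
      ga_add hk fun m _ => by
        have : y m = -(x - y) m + x m := by simp
        calc |y m| = |-(x - y) m + x m| := by rw [← this]
          _ ≤ |-(x - y) m| + |x m| := abs_add_le _ _
          _ = _ := by rw [abs_neg]
    linarith

end Pool.Agent.WB
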