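import Pool.Agent.Lib.MP_c7fb7b_an.A1

/-!
# A2: numerics of harmonic sums (40 min)

`Hm (2a) ≤ Hm a + a/(a+1) ≤ 2 Hm a` for `a ≥ 1`, and `min (2w) g ≤ 2 min w g`, give `Hg_double`.
`Hm v ≤ 2√v` by induction (`2(√(v+1) - √v) = 2/(√(v+1)+√v) ≥ 1/√(v+1) ≥ 1/(v+1)`).
`sq_double`: `√v ≤ √2 √w`, `2√2 ≤ 4`.  `sq_quad`: `√v ≤ 2√w`, `Hg g v ≤ 4 Hg g w`.
`inj_sum`: the values `f n` are distinct numbers in `[1, v]` (`Finset.sum_image`,
`Finset.sum_le_sum_of_subset_of_nonneg`).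
-/

open Finset Filter Topology

namespace Pool.Agent.WB

theorem Hm_nonneg (v : ℕ) : 0 ≤ Hm v := by
  unfold Hm
  exact add_nonneg zero_le_one (Finset.sum_nonneg fun i _ => by positivity)

theorem Hm_mono {v w : ℕ} (h : v ≤ w) : Hm v ≤ Hm w := by
  unfold Hm
  exact add_le_add le_rfl (Finset.sum_le_sum_of_subset_of_nonneg (Finset.range_mono h)
    fun i _ _ => by positivity)

theorem one_le_Hm {v : ℕ} (h : 1 ≤ v) : 1 ≤ Hm v := by
  unfold Hm
  have h1 : 0 ≤ ∑ d ∈ range v, 1 / ((d : ℝ) + 1) := Finset.sum_nonneg fun i _ => by positivity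
  linarith

theorem Hm_succ (v : ℕ) : Hm (v + 1) = Hm v + 1 / ((v : ℝ) + 1) := by
  unfold Hm
  rw [Finset.sum_range_succ]
  ring

theorem Hm_le_sqrt {v : ℕ} (h : 1 ≤ v) : Hm v ≤ 2 * √(v : ℝ) := by
  induction v, h using Nat.le_induction with
  | base => simp [Hm]; norm_num
  | succ v hv ih =>
    rw [Hm_succ]
    have hv : (0 : ℝ) ≤ v := Nat.cast_nonneg v
    obtain ⟨a, ha⟩ : ∃ a, a = √(v : ℝ) := ⟨_, rfl⟩
    obtain ⟨b, hb⟩ : ∃ b, b = √((v : ℝ) + 1) := ⟨_, rfl⟩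
    have ha0 : 0 ≤ a := by rw [ha]; exact Real.sqrt_nonneg _
    have ha2 : a ^ 2 = v := by rw [ha]; exact Real.sq_sqrt hv
    have hb2 : b ^ 2 = v + 1 := by rw [hb]; exact Real.sq_sqrt (by positivity)
    have hb1 : 1 ≤ b := by
      rw [hb]
      exact Real.one_le_sqrt.mpr (by linarith)
    have hab : a ≤ b := by rw [ha, hb]; exact Real.sqrt_le_sqrt (by linarith)
    push_cast
    rw [← hb, ← hb2]
    rw [← ha] at ih
    have h1 : (b - a) * (b + a) = 1 := by nlinarith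
    have h2 : 1 / b ^ 2 ≤ 2 * (b - a) := by
      rw [div_le_iff₀ (by positivity)]
      have h3 : (b - a) * (b + a) ≤ (b - a) * (2 * b) :=
        mul_le_mul_of_nonneg_left (by linarith) (by linarith)
      have h4 : (b - a) * (2 * b) ≤ (b - a) * (2 * b ^ 2) :=
        mul_le_mul_of_nonneg_left (by nlinarith) (by linarith)
      nlinarith
    linarith

theorem Hg_nonneg (g v : ℕ) : 0 ≤ Hg g v := by
  exact Hm_nonneg _

theorem Hg_mono (g : ℕ) {v w : ℕ} (h : v ≤ w) : Hg g v ≤ Hg g w := by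
  exact Hm_mono (min_le_min_right g h)

theorem one_le_Hg {g v : ℕ} (hg : 1 ≤ g) (hv : 1 ≤ v) : 1 ≤ Hg g v := by
  exact one_le_Hm (le_min hv hg)

theorem Hg_le_Hm (g v : ℕ) : Hg g v ≤ Hm g := by
  exact Hm_mono (min_le_right _ _)

theorem Hg_le_Hm' (g v : ℕ) : Hg g v ≤ Hm v := by
  exact Hm_mono (min_le_left _ _)

theorem Hg_double (g : ℕ) {v w : ℕ} (h : v ≤ 2 * w) : Hg g v ≤ 2 * Hg g w := by
  have h1 : ∀ a : ℕ, Hm (2 * a) ≤ 2 * Hm a := by
    intro a
    induction a with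
    | zero => simp [Hm]
    | succ a ih =>
      have e1 : 2 * (a + 1) = 2 * a + 1 + 1 := by ring
      rw [e1, Hm_succ, Hm_succ, Hm_succ]
      have ha : (0 : ℝ) ≤ a := Nat.cast_nonneg a
      have e2 : 1 / (((2 * a : ℕ) : ℝ) + 1) ≤ 1 / ((a : ℝ) + 1) := by
        apply one_div_le_one_div_of_le (by positivity)
        push_cast
        linarith
      have e3 : 1 / (((2 * a + 1 : ℕ) : ℝ) + 1) ≤ 1 / ((a : ℝ) + 1) := by
        apply one_div_le_one_div_of_le (by positivity)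
        push_cast
        linarith
      linarith
  refine le_trans (Hm_mono ?_) (h1 _)
  omega

theorem kap_nonneg (g v : ℕ) : 0 ≤ kap g v := by
  exact div_nonneg (Hg_nonneg g v) (Real.sqrt_nonneg _)

theorem kap_le_two (g v : ℕ) : kap g v ≤ 2 := by
  unfold kap
  rcases Nat.eq_zero_or_pos v with rfl | hv
  · simp
  · have h1 : 0 < √(v : ℝ) := Real.sqrt_pos.mpr (by exact_mod_cast hv)
    rw [div_le_iff₀ h1]
    exact le_trans (Hg_le_Hm' g v) (Hm_le_sqrt hv)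

theorem kap_anti (g : ℕ) : ∀ v w : ℕ, 1 ≤ w → w ≤ v → kap g v ≤ kap g w := by
  have step : ∀ v : ℕ, 1 ≤ v → kap g (v + 1) ≤ kap g v := by
    intro v hv
    have hv0 : (1 : ℝ) ≤ v := by exact_mod_cast hv
    have hv' : 0 < √(v : ℝ) := Real.sqrt_pos.mpr (by linarith)
    have hv1' : 0 < √((v : ℝ) + 1) := Real.sqrt_pos.mpr (by linarith)
    unfold kap
    push_cast
    rw [div_le_div_iff₀ hv1' hv']
    by_cases hg : g ≤ v
    · have e1 : Hg g (v + 1) = Hg g v := by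
        unfold Hg
        rw [min_eq_right hg, min_eq_right (by omega)]
      rw [e1]
      exact mul_le_mul_of_nonneg_left (Real.sqrt_le_sqrt (by linarith)) (Hg_nonneg g v)
    · have e1 : Hg g (v + 1) = Hm v + 1 / ((v : ℝ) + 1) := by
        unfold Hg
        rw [min_eq_left (by omega), Hm_succ]
      have e2 : Hg g v = Hm v := by
        unfold Hg
        rw [min_eq_left (by omega)]
      rw [e1, e2]
      have h2 : 2 ≤ Hm v := by
        refine le_trans ?_ (Hm_mono hv)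
        simp [Hm]
        norm_num
      obtain ⟨a, ha⟩ : ∃ a, a = √(v : ℝ) := ⟨_, rfl⟩
      obtain ⟨b, hb⟩ : ∃ b, b = √((v : ℝ) + 1) := ⟨_, rfl⟩
      rw [← ha, ← hb]
      rw [← ha] at hv'
      rw [← hb] at hv1'
      have ha2 : a ^ 2 = v := by rw [ha]; exact Real.sq_sqrt (by linarith)
      have hb2 : b ^ 2 = v + 1 := by rw [hb]; exact Real.sq_sqrt (by linarith)
      have hab : a ≤ b := by rw [ha, hb]; exact Real.sqrt_le_sqrt (by linarith)
      have h1 : (b - a) * (b + a) = 1 := by nlinarith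
      rw [← hb2]
      have h3 : 1 / b ^ 2 * a ≤ 2 * (b - a) := by
        rw [div_mul_eq_mul_div, one_mul, div_le_iff₀ (by positivity)]
        have h4 : (b - a) * (b + a) ≤ (b - a) * (2 * b) :=
          mul_le_mul_of_nonneg_left (by linarith) (by linarith)
        nlinarith
      nlinarith
  intro v w hw h
  induction v, h using Nat.le_induction with
  | base => exact le_rfl
  | succ v hv ih => exact le_trans (step v (le_trans hw hv)) ih

theorem kap_mul_self (g v : ℕ) : kap g v * (v : ℝ) = √(v : ℝ) * Hg g v := by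
  unfold kap
  rcases Nat.eq_zero_or_pos v with rfl | hv
  · simp
  · have h1 : 0 < √(v : ℝ) := Real.sqrt_pos.mpr (by exact_mod_cast hv)
    have h2 : (v : ℝ) = √(v : ℝ) * √(v : ℝ) := (Real.mul_self_sqrt (Nat.cast_nonneg v)).symm
    calc Hg g v / √(v : ℝ) * (v : ℝ) = Hg g v / √(v : ℝ) * (√(v : ℝ) * √(v : ℝ)) := by rw [← h2]
      _ = √(v : ℝ) * Hg g v := by field_simp

theorem kap_mul_sqrt (g v : ℕ) : kap g v * √(v : ℝ) ≤ Hg g v := by
  unfold kap
  rcases Nat.eq_zero_or_pos v with rfl | hv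
  · simpa using Hg_nonneg g 0
  · have h1 : 0 < √(v : ℝ) := Real.sqrt_pos.mpr (by exact_mod_cast hv)
    rw [div_mul_cancel₀ _ h1.ne']

theorem sq_double (g : ℕ) {v w : ℕ} (h : v ≤ 2 * w) :
    √(v : ℝ) * Hg g v ≤ 4 * (√(w : ℝ) * Hg g w) := by
  have h1 : √(v : ℝ) ≤ 2 * √(w : ℝ) := by
    refine Real.sqrt_le_iff.mpr ⟨by positivity, ?_⟩
    rw [mul_pow, Real.sq_sqrt (Nat.cast_nonneg w)]
    have : (v : ℝ) ≤ 2 * w := by exact_mod_cast h
    have hw : (0 : ℝ) ≤ w := Nat.cast_nonneg w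
    linarith
  calc √(v : ℝ) * Hg g v ≤ (2 * √(w : ℝ)) * (2 * Hg g w) :=
        mul_le_mul h1 (Hg_double g h) (Hg_nonneg g v) (by positivity)
    _ = 4 * (√(w : ℝ) * Hg g w) := by ring

theorem sq_quad (g : ℕ) {v w : ℕ} (h : v ≤ 4 * w) :
    √(v : ℝ) * Hg g v ≤ 16 * (√(w : ℝ) * Hg g w) := by
  refine le_trans (sq_double g (w := 2 * w) (by omega)) ?_
  have h1 := sq_double g (v := 2 * w) (w := w) le_rfl
  linarith

theorem inj_sum {α : Type} (s : Finset α) (f : α → ℕ) (v : ℕ) (h1 : ∀ n ∈ s, 1 ≤ f n)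
    (hv : ∀ n ∈ s, f n ≤ v) (hinj : Set.InjOn f (s : Set α)) :
    ∑ n ∈ s, 1 / (f n : ℝ) ≤ Hm v := by
  classical
  have h0 : ∑ n ∈ s, 1 / (f n : ℝ) = ∑ n ∈ s, (fun d : ℕ => 1 / ((d : ℝ) + 1)) (f n - 1) := by
    refine Finset.sum_congr rfl fun n hn => ?_
    have h2 := h1 n hn
    simp only
    rw [Nat.cast_sub h2]
    simp
  have hinj' : Set.InjOn (fun n => f n - 1) (s : Set α) := by
    intro a ha b hb hab
    apply hinj ha hb
    have h3 := h1 a ha
    have h4 := h1 b hb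
    simp only at hab
    omega
  rw [h0, ← Finset.sum_image (f := fun d : ℕ => 1 / ((d : ℝ) + 1)) hinj']
  unfold Hm
  refine le_trans ?_ (le_add_of_nonneg_left zero_le_one)
  refine Finset.sum_le_sum_of_subset_of_nonneg ?_ fun i _ _ => by positivity
  intro d hd
  obtain ⟨n, hn, rfl⟩ := Finset.mem_image.mp hd
  rw [Finset.mem_range]
  have h3 := h1 n hn
  have h4 := hv n hn
  omega

/-- The gauge of a vector which is at least `ζ` on `J`. -/
theorem gauge_lower (g : ℕ) (J s : Finset ℕ) (hJ : J ⊆ s) (x : ℕ → ℝ) (ζ : ℝ)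
    (h : ∀ n ∈ J, ζ ≤ |x n|) : ζ * (√(J.card : ℝ) * Hg g J.card) ≤ ga (kap g) s x := by
  refine le_trans ?_ (V_le_ga (kap g) hJ x)
  rw [← kap_mul_self]
  have h1 : ζ * (J.card : ℝ) ≤ ∑ m ∈ J, |x m| := by
    calc ζ * (J.card : ℝ) = ∑ m ∈ J, ζ := by rw [Finset.sum_const, nsmul_eq_mul, mul_comm]
      _ ≤ _ := Finset.sum_le_sum h
  calc ζ * (kap g J.card * (J.card : ℝ)) = kap g J.card * (ζ * (J.card : ℝ)) := by ring
    _ ≤ _ := mul_le_mul_of_nonneg_left h1 (kap_nonneg g _)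

/-- The gauge is at most `Hm g` times the Euclidean norm. -/
theorem gauge_le_l2 (g : ℕ) (hg : 1 ≤ g) (s : Finset ℕ) (x : ℕ → ℝ) :
    ga (kap g) s x ≤ Hm g * √(∑ m ∈ s, x m ^ 2) := by
  have hH : 1 ≤ Hm g := one_le_Hm hg
  refine ga_le ?_ fun V hV => ?_
  · exact le_mul_of_one_le_left (Real.sqrt_nonneg _) hH
  · have h1 : ∑ m ∈ V, |x m| ≤ √(V.card : ℝ) * √(∑ m ∈ V, x m ^ 2) := by
      have h2 := Real.sum_mul_le_sqrt_mul_sqrt V (fun _ => (1 : ℝ)) (fun m => |x m|)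
      simpa only [one_mul, one_pow, Finset.sum_const, nsmul_eq_mul, mul_one, sq_abs] using h2
    have h3 : √(∑ m ∈ V, x m ^ 2) ≤ √(∑ m ∈ s, x m ^ 2) :=
      Real.sqrt_le_sqrt (Finset.sum_le_sum_of_subset_of_nonneg hV fun i _ _ => sq_nonneg _)
    calc kap g V.card * ∑ m ∈ V, |x m| ≤ kap g V.card * (√(V.card : ℝ) * √(∑ m ∈ V, x m ^ 2)) :=
          mul_le_mul_of_nonneg_left h1 (kap_nonneg g _)
      _ = (kap g V.card * √(V.card : ℝ)) * √(∑ m ∈ V, x m ^ 2) := by ring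
      _ ≤ Hm g * √(∑ m ∈ s, x m ^ 2) :=
          mul_le_mul (le_trans (kap_mul_sqrt g _) (Hg_le_Hm g _)) h3 (Real.sqrt_nonneg _)
            (Hm_nonneg g)

end Pool.Agent.WB
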