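import Pool.Agent.Lib.MP_c7fb7b_an.Defs

/-!
# B1: clamps (30 min)

Elementary properties of `up`, `dn`, `chi`, `bet`.  (`chi_diff`: `|ab - a'b'| ≤ |a-a'| + |b-b'|`
for numbers in `[0,1]`.)
-/

open Finset Filter Topology

namespace Pool.Agent.WB

theorem up_nonneg (A s : ℝ) : 0 ≤ up A s := by
  exact le_max_left _ _

theorem up_le_one (A s : ℝ) : up A s ≤ 1 := by
  exact max_le zero_le_one (min_le_left _ _)

theorem dn_nonneg (A s : ℝ) : 0 ≤ dn A s := by
  unfold dn
  linarith [up_le_one A s]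

theorem dn_le_one (A s : ℝ) : dn A s ≤ 1 := by
  unfold dn
  linarith [up_nonneg A s]

theorem up_of_le {A s : ℝ} (hA : 0 < A) (h : s ≤ A) : up A s = 0 := by
  unfold up
  have h1 : (s - A) / A ≤ 0 := div_nonpos_of_nonpos_of_nonneg (by linarith) hA.le
  rw [min_eq_right (by linarith), max_eq_left h1]

theorem up_of_ge {A s : ℝ} (hA : 0 < A) (h : 2 * A ≤ s) : up A s = 1 := by
  unfold up
  have h1 : 1 ≤ (s - A) / A := by
    rw [le_div_iff₀ hA]
    linarith
  rw [min_eq_left h1, max_eq_right zero_le_one]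

theorem dn_of_le {A s : ℝ} (hA : 0 < A) (h : s ≤ A) : dn A s = 1 := by
  unfold dn
  rw [up_of_le hA h, sub_zero]

theorem dn_of_ge {A s : ℝ} (hA : 0 < A) (h : 2 * A ≤ s) : dn A s = 0 := by
  unfold dn
  rw [up_of_ge hA h, sub_self]

theorem up_lip {A : ℝ} (hA : 0 < A) (s t : ℝ) : |up A s - up A t| ≤ |s - t| / A := by
  unfold up
  refine le_trans (abs_max_sub_max_le_max _ _ _ _) ?_
  rw [sub_self, abs_zero, max_eq_right (abs_nonneg _)]
  refine le_trans (abs_min_sub_min_le_max _ _ _ _) ?_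
  rw [sub_self, abs_zero, max_eq_right (abs_nonneg _), ← sub_div, abs_div, abs_of_pos hA]
  have h1 : s - A - (t - A) = s - t := by ring
  rw [h1]

theorem dn_lip {A : ℝ} (hA : 0 < A) (s t : ℝ) : |dn A s - dn A t| ≤ |s - t| / A := by
  unfold dn
  have h1 : 1 - up A s - (1 - up A t) = -(up A s - up A t) := by ring
  rw [h1, abs_neg]
  exact up_lip hA s t

theorem chi_nonneg (S S' s : ℝ) : 0 ≤ chi S S' s := by
  exact mul_nonneg (up_nonneg _ _) (dn_nonneg _ _)

theorem chi_le_one (S S' s : ℝ) : chi S S' s ≤ 1 := by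
  exact mul_le_one₀ (up_le_one _ _) (dn_nonneg _ _) (dn_le_one _ _)

theorem chi_eq_one {S S' s : ℝ} (hS : 0 < S) (hS' : 0 < S') (h : S ≤ s) (h' : s ≤ S') :
    chi S S' s = 1 := by
  unfold chi
  rw [up_of_ge (by linarith) (by linarith), dn_of_le hS' h', mul_one]

theorem chi_of_le {S S' s : ℝ} (hS : 0 < S) (h : s ≤ S / 2) : chi S S' s = 0 := by
  unfold chi
  rw [up_of_le (by linarith) h, zero_mul]

theorem chi_of_ge {S S' s : ℝ} (hS' : 0 < S') (h : 2 * S' ≤ s) : chi S S' s = 0 := by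
  unfold chi
  rw [dn_of_ge hS' h, mul_zero]

theorem chi_diff (S S' s t : ℝ) : |chi S S' s - chi S S' t| ≤
    |up (S / 2) s - up (S / 2) t| + |dn S' s - dn S' t| := by
  unfold chi
  have h1 : up (S / 2) s * dn S' s - up (S / 2) t * dn S' t =
      (up (S / 2) s - up (S / 2) t) * dn S' s + up (S / 2) t * (dn S' s - dn S' t) := by ring
  rw [h1]
  refine le_trans (abs_add_le _ _) (add_le_add ?_ ?_)
  · rw [abs_mul, abs_of_nonneg (dn_nonneg S' s)]
    exact mul_le_of_le_one_right (abs_nonneg _) (dn_le_one _ _)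
  · rw [abs_mul, abs_of_nonneg (up_nonneg (S / 2) t)]
    exact mul_le_of_le_one_left (abs_nonneg _) (up_le_one _ _)

theorem bet_nonneg {τ B : ℝ} (h : 0 ≤ B * τ) (s : ℝ) : 0 ≤ bet τ B s := by
  exact le_min (le_max_right _ _) (by linarith)

theorem bet_le {τ B : ℝ} (hτ : 0 ≤ τ) {s : ℝ} (hs : 0 ≤ s) : bet τ B s ≤ s := by
  unfold bet
  exact le_trans (min_le_left _ _) (max_le (by linarith) hs)

theorem bet_le_cap (τ B s : ℝ) : bet τ B s ≤ 4 * B * τ := by
  exact min_le_right _ _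

theorem bet_lip (τ B s t : ℝ) : |bet τ B s - bet τ B t| ≤ |s - t| := by
  unfold bet
  refine le_trans (abs_min_sub_min_le_max _ _ _ _) ?_
  rw [sub_self, abs_zero, max_eq_left (abs_nonneg _)]
  refine le_trans (abs_max_sub_max_le_abs _ _ _) ?_
  have h1 : s - τ - (t - τ) = s - t := by ring
  rw [h1]

theorem bet_of_le {τ B s : ℝ} (h : 0 ≤ B * τ) (hs : s ≤ τ) : bet τ B s = 0 := by
  unfold bet
  rw [max_eq_right (by linarith), min_eq_left (by linarith)]

/-- `0 ≤ b + ζ ≤ a`, `2 τ ≤ ζ`, `a ≤ 4 B τ`: the band function keeps half of the difference. -/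
theorem bet_gap {τ B a b ζ : ℝ} (hτ : 0 < τ) (hb : 0 ≤ b) (hab : b + ζ ≤ a) (hζ : 2 * τ ≤ ζ)
    (ha : a ≤ 4 * B * τ) : bet τ B b + ζ / 2 ≤ bet τ B a := by
  unfold bet
  have h1 : min (max (a - τ) 0) (4 * B * τ) = a - τ := by
    rw [max_eq_left (by linarith), min_eq_left (by linarith)]
  rw [h1]
  have h2 : min (max (b - τ) 0) (4 * B * τ) ≤ max (b - τ) 0 := min_le_left _ _
  have h3 : max (b - τ) 0 ≤ a - τ - ζ / 2 := max_le (by linarith) (by linarith)
  linarith

theorem continuous_up (A : ℝ) : Continuous (up A) := by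
  unfold up
  fun_prop

theorem continuous_dn (A : ℝ) : Continuous (dn A) := by
  unfold dn
  exact continuous_const.sub (continuous_up A)

theorem continuous_chi (S S' : ℝ) : Continuous (chi S S') := by
  unfold chi
  exact (continuous_up _).mul (continuous_dn _)

theorem continuous_bet (τ B : ℝ) : Continuous (bet τ B) := by
  unfold bet
  fun_prop

end Pool.Agent.WB
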