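import Pool.Agent.Lib.MP_c7fb7b_an.B2
import Pool.Agent.Lib.MP_c7fb7b_an.B3

/-!
# B4: the edge components are Lipschitz (60 min)

Write `S = Lam g ^ t`, `S' = Lam g ^ (t+2)`, `τ = tau g t i`, `β = bet τ B`, `h_n = hh (kap g) · n`,
`T n = |chi (h_n u) - chi (h_n v)| * v n`; `Bd (ga (kap g)) T (6δ)` by `lemT_chi`.
Entries (`b < n`): `|K u - K v| ≤ chi(h_n u) |min(β u_b, β u_n) - min(β v_b, β v_n)|
 + |chi(h_n u) - chi(h_n v)| min(β v_b, β v_n) ≤ |u b - v b| + |u n - v n| + T n` (`0 ≤ β s ≤ s`).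
So `NV_star` with `u := u - v` (constant `δ`) and `u' n := |u n - v n| + T n` (constant `7δ`) gives
`NV ≤ 8δ`; and every entry is `≤ 8δ` (`abs_le_ga`).

`N1`: `G = 2 * 4^(i+1)`.  A term `b < m`, `n_b = max m (nn b) ≥ m` of
`∑_{b<m} |K u (b,n_b) - K v (b,n_b)|` vanishes unless `b` is active for `u` or for `v`; active for
`u`: `τ < u b` and `hh u n_b < 2 S'` (otherwise `chi = 0` or `β (u b) = 0`).  If the set `A_u` of
active rows is nonempty then `hh u (m-1) ≤ hh u n_b < 2S'` (`hh_mono`), so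
`card A_u * τ² ≤ ∑_{b ∈ range m} u b ² ≤ (2S')²` (`l2_le_ga`), i.e. `card A_u ≤ (2S'/τ)² =
(2 * 2^i)² = 4^(i+1)`.  So at most `G` terms, each `≤ 8δ`, and `G⁻¹ * (G * 8δ) = 8δ`.
-/

open Finset Filter Topology

namespace Pool.Agent.WB

theorem b4_Lam (g : ℕ) : 0 < Lam g := by
  unfold Lam
  have := Hm_nonneg g
  linarith

theorem b4_tau (g t i : ℕ) : 0 < tau g t i := by
  unfold tau
  have := b4_Lam g
  positivity

theorem b4_Bc (g t : ℕ) : 0 ≤ Bc g t := by
  unfold Bc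
  have h1 := b4_Lam g
  have h2 := Hm_nonneg g
  positivity

theorem b4_entry (g t i : ℕ) (u v : ℕ → ℝ) (hv : ∀ n, 0 ≤ v n) (b n : ℕ) (hbn : b < n) :
    |(Kmap g t i u - Kmap g t i v) (b, n)| ≤ |(u - v) b| + (|(u - v) n| +
      |chi (Lam g ^ t) (Lam g ^ (t + 2)) (hh (kap g) u n) -
        chi (Lam g ^ t) (Lam g ^ (t + 2)) (hh (kap g) v n)| * v n) := by
  have hτ := b4_tau g t i
  have hB := b4_Bc g t
  rw [Pi.sub_apply]
  unfold Kmap
  simp only [if_pos hbn]
  set a := chi (Lam g ^ t) (Lam g ^ (t + 2)) (hh (kap g) u n) with ha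
  set a' := chi (Lam g ^ t) (Lam g ^ (t + 2)) (hh (kap g) v n) with ha'
  have e1 : a * min (bet (tau g t i) (Bc g t) (u b)) (bet (tau g t i) (Bc g t) (u n)) -
      a' * min (bet (tau g t i) (Bc g t) (v b)) (bet (tau g t i) (Bc g t) (v n)) =
      a * (min (bet (tau g t i) (Bc g t) (u b)) (bet (tau g t i) (Bc g t) (u n)) -
        min (bet (tau g t i) (Bc g t) (v b)) (bet (tau g t i) (Bc g t) (v n))) +
      (a - a') * min (bet (tau g t i) (Bc g t) (v b)) (bet (tau g t i) (Bc g t) (v n)) := by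
    ring
  rw [e1]
  have h1 : |min (bet (tau g t i) (Bc g t) (u b)) (bet (tau g t i) (Bc g t) (u n)) -
        min (bet (tau g t i) (Bc g t) (v b)) (bet (tau g t i) (Bc g t) (v n))| ≤
        |(u - v) b| + |(u - v) n| := by
    refine le_trans (abs_min_sub_min_le_max _ _ _ _) (max_le ?_ ?_)
    · refine le_trans (bet_lip _ _ _ _) ?_
      rw [Pi.sub_apply]
      exact le_add_of_nonneg_right (abs_nonneg _)
    · refine le_trans (bet_lip _ _ _ _) ?_
      rw [Pi.sub_apply, Pi.sub_apply]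
      exact le_add_of_nonneg_left (abs_nonneg _)
  have h2 : 0 ≤ min (bet (tau g t i) (Bc g t) (v b)) (bet (tau g t i) (Bc g t) (v n)) :=
    le_min (bet_nonneg (mul_nonneg hB hτ.le) _) (bet_nonneg (mul_nonneg hB hτ.le) _)
  have h3 : min (bet (tau g t i) (Bc g t) (v b)) (bet (tau g t i) (Bc g t) (v n)) ≤ v n :=
    le_trans (min_le_right _ _) (bet_le hτ.le (hv n))
  have ha0 : 0 ≤ a := chi_nonneg _ _ _
  have ha1 : a ≤ 1 := chi_le_one _ _ _
  refine le_trans (abs_add_le _ _) ?_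
  rw [abs_mul, abs_mul, abs_of_nonneg ha0, abs_of_nonneg h2, ← add_assoc]
  refine add_le_add ?_ (mul_le_mul_of_nonneg_left h3 (abs_nonneg _))
  exact le_trans (mul_le_of_le_one_left (abs_nonneg _) ha1) h1

theorem b4_card (g t i : ℕ) (w : ℕ → ℝ) (m : ℕ) (nn : ℕ → ℕ) :
    ((range m).filter (fun b => Kmap g t i w (b, max m (nn b)) ≠ 0)).card ≤ 4 ^ (i + 1) := by
  have hτ := b4_tau g t i
  have hB := b4_Bc g t
  have hL := b4_Lam g
  have hS' : 0 < Lam g ^ (t + 2) := pow_pos hL _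
  obtain ⟨A, hA⟩ : ∃ A, A = (range m).filter (fun b => Kmap g t i w (b, max m (nn b)) ≠ 0) :=
    ⟨_, rfl⟩
  rw [← hA]
  have hact : ∀ b ∈ A, b < m ∧ tau g t i < w b ∧
      hh (kap g) w (max m (nn b)) < 2 * Lam g ^ (t + 2) := by
    intro b hb
    rw [hA, Finset.mem_filter, Finset.mem_range] at hb
    obtain ⟨hbm, hne⟩ := hb
    have hbn : b < max m (nn b) := lt_of_lt_of_le hbm (le_max_left _ _)
    refine ⟨hbm, ?_, ?_⟩
    · by_contra hcon
      push Not at hcon
      apply hne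
      unfold Kmap
      simp only [if_pos hbn]
      rw [bet_of_le (mul_nonneg hB hτ.le) hcon,
        min_eq_left (bet_nonneg (mul_nonneg hB hτ.le) _), mul_zero]
    · by_contra hcon
      push Not at hcon
      apply hne
      unfold Kmap
      simp only [if_pos hbn]
      rw [chi_of_ge hS' hcon, zero_mul]
  rcases A.eq_empty_or_nonempty with hAe | ⟨b0, hb0⟩
  · rw [hAe, Finset.card_empty]
    exact Nat.zero_le _
  · obtain ⟨h1, _, h3⟩ := hact b0 hb0
    obtain ⟨m', rfl⟩ : ∃ m', m = m' + 1 := ⟨m - 1, by omega⟩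
    have h4 : hh (kap g) w m' < 2 * Lam g ^ (t + 2) :=
      lt_of_le_of_lt (hh_mono (kap_nonneg g) w (le_trans (Nat.le_succ m') (le_max_left _ _))) h3
    have h5 : √(∑ b ∈ range (m' + 1), w b ^ 2) ≤ 2 * Lam g ^ (t + 2) :=
      le_trans (l2_le_ga (kap g) (range (m' + 1)) w) h4.le
    have h6 : ∑ b ∈ range (m' + 1), w b ^ 2 ≤ (2 * Lam g ^ (t + 2)) ^ 2 :=
      (Real.sqrt_le_left (by positivity)).mp h5
    have h7 : (A.card : ℝ) * tau g t i ^ 2 ≤ ∑ b ∈ range (m' + 1), w b ^ 2 := by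
      calc (A.card : ℝ) * tau g t i ^ 2 = ∑ b ∈ A, tau g t i ^ 2 := by
            rw [Finset.sum_const, nsmul_eq_mul]
        _ ≤ ∑ b ∈ A, w b ^ 2 := Finset.sum_le_sum fun b hb =>
            pow_le_pow_left₀ hτ.le (hact b hb).2.1.le 2
        _ ≤ ∑ b ∈ range (m' + 1), w b ^ 2 := Finset.sum_le_sum_of_subset_of_nonneg
            (by rw [hA]; exact Finset.filter_subset _ _) fun _ _ _ => sq_nonneg _
    have h8 : (2 * Lam g ^ (t + 2)) ^ 2 = (4 : ℝ) ^ (i + 1) * tau g t i ^ 2 := by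
      unfold tau
      obtain ⟨Q, hQ⟩ : ∃ Q, Q = Lam g ^ (t + 2) := ⟨_, rfl⟩
      rw [← hQ, mul_pow, mul_pow, pow_succ (4 : ℝ) i]
      have h9 : (((1 : ℝ) / 2) ^ i) ^ 2 * 4 ^ i = 1 := by
        rw [← pow_mul, mul_comm i 2, pow_mul, ← mul_pow]
        norm_num
      linear_combination (-4 * Q ^ 2) * h9
    have h10 : (A.card : ℝ) * tau g t i ^ 2 ≤ (4 : ℝ) ^ (i + 1) * tau g t i ^ 2 := by linarith
    have h11 : (A.card : ℝ) ≤ (4 : ℝ) ^ (i + 1) := le_of_mul_le_mul_right h10 (by positivity)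
    exact_mod_cast h11

theorem K_lip (g t i : ℕ) (u v : ℕ → ℝ) (hu : ∀ n, 0 ≤ u n) (hv : ∀ n, 0 ≤ v n) {δ : ℝ}
    (hδ : Bd (ga (kap g)) (u - v) δ) :
    Bd (EN g (2 * 4 ^ (i + 1))) (Kmap g t i u - Kmap g t i v) (8 * δ) := by
  have hδ0 : 0 ≤ δ := le_trans (ga_nonneg (kap g) ∅ (u - v)) (hδ ∅)
  have hL := b4_Lam g
  have hT := lemT_chi (kap_nonneg g) (kap_anti g) (S := Lam g ^ t) (S' := Lam g ^ (t + 2))
    (pow_pos hL _) (pow_pos hL _) hδ
  obtain ⟨T, hTd⟩ : ∃ T : ℕ → ℝ, T = fun n => |chi (Lam g ^ t) (Lam g ^ (t + 2)) (hh (kap g) u n) -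
        chi (Lam g ^ t) (Lam g ^ (t + 2)) (hh (kap g) v n)| * v n := ⟨_, rfl⟩
  rw [← hTd] at hT
  have hT0 : ∀ n, 0 ≤ T n := fun n => by
    rw [hTd]
    exact mul_nonneg (abs_nonneg _) (hv n)
  have hent : ∀ b n, b < n → |(Kmap g t i u - Kmap g t i v) (b, n)| ≤
      |(u - v) b| + (|(u - v) n| + T n) := by
    intro b n hbn
    rw [hTd]
    exact b4_entry g t i u v hv b n hbn
  have hent8 : ∀ b n, |(Kmap g t i u - Kmap g t i v) (b, n)| ≤ 8 * δ := by
    intro b n
    by_cases hbn : b < n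
    · have h1 := hent b n hbn
      have h2 : |(u - v) b| ≤ δ := le_trans (abs_le_ga (kap g) (mem_singleton_self b) (u - v)) (hδ _)
      have h3 : |(u - v) n| ≤ δ := le_trans (abs_le_ga (kap g) (mem_singleton_self n) (u - v)) (hδ _)
      have h4 : |T n| ≤ 6 * δ := le_trans (abs_le_ga (kap g) (mem_singleton_self n) T) (hT _)
      have h5 := le_abs_self (T n)
      linarith
    · rw [Pi.sub_apply]
      unfold Kmap
      simp only [if_neg hbn, sub_self, abs_zero]
      linarith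
  intro j
  unfold EN
  split_ifs with hj
  · have h7 : Bd (ga (kap g)) (fun n => |(u - v) n| + T n) (7 * δ) := by
      intro s
      have h8 : ga (kap g) s (fun n => |(u - v) n| + T n) ≤ ga (kap g) s (u - v) +
          ga (kap g) s T := by
        refine ga_add (kap_nonneg g) fun m _ => ?_
        refine le_trans (abs_add_le _ _) ?_
        rw [abs_abs]
      have h9 := hδ s
      have h10 := hT s
      linarith
    have h8 := NV_star g j.2.1 (Kmap g t i u - Kmap g t i v) (u - v)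
      (fun n => |(u - v) n| + T n) (fun b n hbn => by
        have h9 := hent b n hbn
        refine le_trans h9 (add_le_add le_rfl (le_abs_self _))) hδ h7
    linarith
  · unfold N1
    have hG : (0 : ℝ) < 2 * 4 ^ (i + 1) := by positivity
    obtain ⟨m, hm⟩ : ∃ m, m = j.2.2.1 := ⟨_, rfl⟩
    obtain ⟨nn, hnn⟩ : ∃ nn, nn = j.2.2.2 := ⟨_, rfl⟩
    rw [← hm, ← hnn]
    rw [inv_mul_le_iff₀ hG]
    obtain ⟨P, hP⟩ : ∃ P : Finset ℕ, P = (range m).filter
      (fun b => Kmap g t i u (b, max m (nn b)) ≠ 0) := ⟨_, rfl⟩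
    obtain ⟨R, hR⟩ : ∃ R : Finset ℕ, R = (range m).filter
      (fun b => Kmap g t i v (b, max m (nn b)) ≠ 0) := ⟨_, rfl⟩
    have c1 : P.card ≤ 4 ^ (i + 1) := by rw [hP]; exact b4_card g t i u m nn
    have c2 : R.card ≤ 4 ^ (i + 1) := by rw [hR]; exact b4_card g t i v m nn
    have h1 : ∑ b ∈ range m, |(Kmap g t i u - Kmap g t i v) (b, max m (nn b))| ≤
        ∑ b ∈ range m, ((if b ∈ P then 8 * δ else 0) + (if b ∈ R then 8 * δ else 0)) := by
      refine Finset.sum_le_sum fun b hb => ?_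
      by_cases hbP : b ∈ P
      · rw [if_pos hbP]
        refine le_trans (hent8 _ _) (le_add_of_nonneg_right ?_)
        split_ifs
        · linarith
        · exact le_rfl
      · by_cases hbR : b ∈ R
        · rw [if_neg hbP, if_pos hbR, zero_add]
          exact hent8 _ _
        · rw [if_neg hbP, if_neg hbR, add_zero]
          rw [hP, Finset.mem_filter] at hbP
          rw [hR, Finset.mem_filter] at hbR
          push Not at hbP hbR
          rw [Pi.sub_apply, hbP hb, hbR hb, sub_zero, abs_zero]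
    have h2 : ∑ b ∈ range m, ((if b ∈ P then 8 * δ else 0) + (if b ∈ R then 8 * δ else 0)) =
        (P.card : ℝ) * (8 * δ) + (R.card : ℝ) * (8 * δ) := by
      rw [Finset.sum_add_distrib, ← Finset.sum_filter, ← Finset.sum_filter, Finset.sum_const,
        Finset.sum_const, nsmul_eq_mul, nsmul_eq_mul]
      have e1 : (range m).filter (· ∈ P) = P := by
        rw [Finset.filter_mem_eq_inter]
        exact Finset.inter_eq_right.mpr (by rw [hP]; exact Finset.filter_subset _ _)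
      have e2 : (range m).filter (· ∈ R) = R := by
        rw [Finset.filter_mem_eq_inter]
        exact Finset.inter_eq_right.mpr (by rw [hR]; exact Finset.filter_subset _ _)
      rw [e1, e2]
    have c1' : (P.card : ℝ) ≤ 4 ^ (i + 1) := by exact_mod_cast c1
    have c2' : (R.card : ℝ) ≤ 4 ^ (i + 1) := by exact_mod_cast c2
    have h3 : (P.card : ℝ) * (8 * δ) ≤ 4 ^ (i + 1) * (8 * δ) :=
      mul_le_mul_of_nonneg_right c1' (by linarith)
    have h4 : (R.card : ℝ) * (8 * δ) ≤ 4 ^ (i + 1) * (8 * δ) :=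
      mul_le_mul_of_nonneg_right c2' (by linarith)
    linarith

end Pool.Agent.WB
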