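import Pool.Agent.Lib.MP_c7fb7b_an.A2

/-!
# C1: lower bound for the full kernel sum (50 min)

By columns: for `n` of rank `ρ` (number of elements of `V` below `n`) the inner sum over
`b` is exactly `Hm (min ρ g) = Hg g ρ`, so the total is `∑_{ρ<v} Hg g ρ ≥ ∑_{v/2 ≤ ρ < v} Hg g ρ
≥ (v/2) Hg g (v/2)`.
-/

open Finset Filter Topology

namespace Pool.Agent.WB

theorem c1_rank (V : Finset ℕ) : ∀ φ : ℕ → ℝ,
    ∑ b ∈ V, φ (V.filter (fun m => b < m)).card = ∑ j ∈ range V.card, φ j := by
  induction V using Finset.induction_on_max with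
  | empty => intro φ; simp
  | insert N V hN ih =>
    intro φ
    have hNV : N ∉ V := fun h => lt_irrefl N (hN N h)
    rw [sum_insert hNV, card_insert_of_notMem hNV, sum_range_succ', ← ih (fun j => φ (j + 1))]
    have e0 : (insert N V).filter (fun m => N < m) = ∅ := by
      ext m
      simp only [mem_filter, mem_insert, notMem_empty, iff_false, not_and, not_lt]
      rintro (rfl | hm)
      · exact le_rfl
      · exact (hN m hm).le
    rw [e0, card_empty, add_comm]
    congr 1
    refine sum_congr rfl (fun b hb => ?_)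
    have e1 : (insert N V).filter (fun m => b < m) = insert N (V.filter (fun m => b < m)) := by
      rw [filter_insert, if_pos (hN b hb)]
    rw [e1, card_insert_of_notMem (fun h => hNV (mem_filter.1 h).1)]

/-- harmonic sums -/
noncomputable def c1h (v : ℕ) : ℝ := ∑ d ∈ range v, 1 / ((d : ℝ) + 1)

theorem c1h_eq (v : ℕ) : Hm v = 1 + c1h v := rfl

theorem c1h_nonneg (v : ℕ) : 0 ≤ c1h v := sum_nonneg (fun d _ => by positivity)

theorem c1h_mono {v w : ℕ} (h : v ≤ w) : c1h v ≤ c1h w := by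
  have := Hm_mono h
  rw [c1h_eq, c1h_eq] at this
  linarith

theorem c1_Hg (g v : ℕ) :
    ∑ j ∈ range v, (if j + 1 ≤ g then 1 / ((j + 1 : ℕ) : ℝ) else 0) = c1h (min v g) := by
  rw [← sum_filter]
  unfold c1h
  have e : (range v).filter (fun j => j + 1 ≤ g) = range (min v g) := by
    ext j
    simp only [mem_filter, mem_range, lt_min_iff]
    omega
  rw [e]
  refine sum_congr rfl (fun j _ => ?_)
  push_cast
  rfl

theorem c1_total (g : ℕ) (V : Finset ℕ) :
    ∑ b ∈ V, ∑ n ∈ V, (if b < n ∧ dV V b n ≤ g then 1 / (dV V b n : ℝ) else 0) =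
      ∑ ρ ∈ range V.card, c1h (min ρ g) := by
  induction V using Finset.induction_on_max with
  | empty => simp
  | insert N V hN ih =>
    have hNV : N ∉ V := fun h => lt_irrefl N (hN N h)
    have hd : ∀ b ∈ V, ∀ n ∈ V, dV (insert N V) b n = dV V b n := by
      intro b _ n hn
      unfold dV
      rw [filter_insert, if_neg (fun h => absurd h.2 (not_le.2 (hN n hn)))]
    have hdN : ∀ b ∈ V, dV (insert N V) b N = (V.filter (fun m => b < m)).card + 1 := by
      intro b hb
      unfold dV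
      rw [filter_insert, if_pos ⟨hN b hb, le_rfl⟩,
        card_insert_of_notMem (fun h => hNV (mem_filter.1 h).1)]
      congr 2
      refine filter_congr (fun m hm => ?_)
      exact ⟨fun h => h.1, fun h => ⟨h, (hN m hm).le⟩⟩
    rw [card_insert_of_notMem hNV, sum_range_succ, ← ih, sum_insert hNV]
    have hrow : ∑ n ∈ insert N V, (if N < n ∧ dV (insert N V) N n ≤ g then
        1 / (dV (insert N V) N n : ℝ) else 0) = 0 := by
      refine sum_eq_zero (fun n hn => ?_)
      rw [if_neg]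
      rintro ⟨h, -⟩
      rcases mem_insert.1 hn with rfl | hn
      · exact lt_irrefl _ h
      · exact absurd h (not_lt.2 (hN n hn).le)
    rw [hrow, zero_add]
    have hcol : ∀ b ∈ V, ∑ n ∈ insert N V, (if b < n ∧ dV (insert N V) b n ≤ g then
        1 / (dV (insert N V) b n : ℝ) else 0) =
        (∑ n ∈ V, (if b < n ∧ dV V b n ≤ g then 1 / (dV V b n : ℝ) else 0)) +
        (fun j => if j + 1 ≤ g then 1 / ((j + 1 : ℕ) : ℝ) else 0)
          (V.filter (fun m => b < m)).card := by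
      intro b hb
      rw [sum_insert hNV, add_comm]
      congr 1
      · refine sum_congr rfl (fun n hn => ?_)
        rw [hd b hb n hn]
      · rw [hdN b hb]
        have : (b < N ∧ (V.filter (fun m => b < m)).card + 1 ≤ g) ↔
            (V.filter (fun m => b < m)).card + 1 ≤ g := ⟨fun h => h.2, fun h => ⟨hN b hb, h⟩⟩
        simp only [this]
    rw [sum_congr rfl hcol, sum_add_distrib,
      c1_rank V (fun j => if j + 1 ≤ g then 1 / ((j + 1 : ℕ) : ℝ) else 0), c1_Hg]

theorem c1h_succ (v : ℕ) : c1h (v + 1) = c1h v + 1 / ((v : ℝ) + 1) := by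
  unfold c1h
  rw [sum_range_succ]

theorem c1_Hm_odd (a : ℕ) (ha : 1 ≤ a) : c1h (2 * a + 1) ≤ 2 * c1h a := by
  induction a, ha using Nat.le_induction with
  | base =>
    unfold c1h
    norm_num [sum_range_succ]
  | succ a ha ih =>
    have e : 2 * (a + 1) + 1 = (2 * a + 1) + 1 + 1 := by ring
    rw [e, c1h_succ, c1h_succ, c1h_succ a]
    push_cast
    have h0 : (0 : ℝ) < (a : ℝ) + 1 := by positivity
    have h1 : 1 / (2 * (a : ℝ) + 1 + 1) ≤ 1 / ((a : ℝ) + 1) := by
      apply one_div_le_one_div_of_le h0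
      linarith
    have h2 : 1 / (2 * (a : ℝ) + 2 + 1) ≤ 1 / ((a : ℝ) + 1) := by
      apply one_div_le_one_div_of_le h0
      linarith
    linarith

theorem c1_lower (g : ℕ) (V : Finset ℕ) (hV : 2 ≤ V.card) :
    (V.card : ℝ) / 4 * c1h (min V.card g) ≤
      ∑ b ∈ V, ∑ n ∈ V, (if b < n ∧ dV V b n ≤ g then 1 / (dV V b n : ℝ) else 0) := by
  rw [c1_total]
  set v := V.card with hv
  set a := v / 2 with ha
  have ha1 : 1 ≤ a := by omega
  have hva : v ≤ 2 * a + 1 := by omega
  have hH : c1h (min v g) ≤ 2 * c1h (min a g) := by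
    by_cases hg : g ≤ a
    · rw [min_eq_right hg]
      have h1 : c1h (min v g) ≤ c1h g := c1h_mono (min_le_right _ _)
      have h2 := c1h_nonneg g
      linarith
    · push Not at hg
      rw [min_eq_left hg.le]
      exact (c1h_mono ((min_le_left v g).trans hva)).trans (c1_Hm_odd a ha1)
  have hsub : ∑ _ρ ∈ Ico a v, c1h (min a g) ≤ ∑ ρ ∈ range v, c1h (min ρ g) := by
    calc ∑ _ρ ∈ Ico a v, c1h (min a g) ≤ ∑ ρ ∈ Ico a v, c1h (min ρ g) :=
          sum_le_sum (fun ρ hρ => c1h_mono (min_le_min_right g (mem_Ico.1 hρ).1))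
      _ ≤ ∑ ρ ∈ range v, c1h (min ρ g) :=
          sum_le_sum_of_subset_of_nonneg (fun ρ hρ => mem_range.2 (mem_Ico.1 hρ).2)
            (fun ρ _ _ => c1h_nonneg _)
  rw [sum_const, Nat.card_Ico, nsmul_eq_mul] at hsub
  refine le_trans ?_ hsub
  have hcard : (v : ℝ) / 2 ≤ ((v - a : ℕ) : ℝ) := by
    have h1 : v ≤ 2 * (v - a) := by omega
    have h2 : (v : ℝ) ≤ 2 * ((v - a : ℕ) : ℝ) := by exact_mod_cast h1
    linarith
  have hn := c1h_nonneg (min a g)
  have hv0 : (0 : ℝ) ≤ (v : ℝ) := Nat.cast_nonneg v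
  calc (v : ℝ) / 4 * c1h (min v g) ≤ (v : ℝ) / 4 * (2 * c1h (min a g)) := by gcongr
    _ = (v : ℝ) / 2 * c1h (min a g) := by ring
    _ ≤ ((v - a : ℕ) : ℝ) * c1h (min a g) := by gcongr

theorem kernel_lower (g : ℕ) (hg : 1 ≤ g) (V : Finset ℕ) (hV : 2 ≤ V.card) :
    (V.card : ℝ) / 8 * Hg g V.card ≤
      ∑ b ∈ V, ∑ n ∈ V, (if b < n ∧ dV V b n ≤ g then 1 / (dV V b n : ℝ) else 0) := by
  refine le_trans ?_ (c1_lower g V hV)
  have h1 : 1 ≤ c1h (min V.card g) := by
    have h2 : c1h 1 ≤ c1h (min V.card g) := c1h_mono (le_min (by omega) hg)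
    have h3 : c1h 1 = 1 := by unfold c1h; norm_num
    linarith
  have h4 : Hg g V.card = 1 + c1h (min V.card g) := rfl
  rw [h4]
  have hv0 : (0 : ℝ) ≤ (V.card : ℝ) := Nat.cast_nonneg _
  nlinarith

end Pool.Agent.WB
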