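import Pool.Agent.Lib.MP_c7fb7b_an.A1
import Pool.Agent.Lib.MP_c7fb7b_an.B1
import Pool.Agent.Lib.MP_c7fb7b_an.C1

/-!
# C2: detection by the edge components (75 min)

Write `S = Lam g ^ t`, `S' = Lam g ^ (t+2)`, `B = Bc g t = 2 S' Hm g`, `D A = ζ * (√|A| * Hg g |A|)`.
`0 ≤ C'` (from `hbase`).  If `D M < 1` done.  Let `D M ≥ 1`, so `ζ √|M| Hm g ≥ 1` (`Hg_le_Hm`).
`M' = {n ∈ M | u n ≤ B ζ}`.  Let `N = max M`, `M ⊆ range (N+1)`.  Claim `|M| ≤ 2 |M'|`: otherwise
`L = M \ M'` has `|L| ≥ |M|/2` and `B ζ √|L| ≤ √(∑_L u²) ≤ hh u N < S'`, but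
`B ζ √|L| ≥ B ζ √|M| / √2 ≥ B / (√2 Hm g) = √2 S' > S'`.  So `D M ≤ 4 D M'` (`sq_double`), and
`M'` is nonempty.
If `|M'| = 1`, `M' = {n}`: `D M' = ζ * Hg g 1 = ζ ≤ u n - v n ≤ C'` (`Hg g 1 = 1` as `g ≥ 1`).
If `|M'| ≥ 2`: `ζ ≤ u n ≤ hh u n < S'`, so there is `i` with `2 τ ≤ ζ ≤ 4 τ`, `τ = tau g t i =
S' * (1/2)^i` (`exists_nat_pow_near_of_lt_one` for `ζ/S'`, then `i = n+2`).  For `n ∈ M'`:
`u n ≤ B ζ ≤ 4 B τ`, so `bet_gap` gives `β(v n) + ζ/2 ≤ β(u n)`; `chi (hh u n) = 1`; so for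
`b < n` in `M'`: `K u (b,n) - K v (b,n) ≥ min(β u_b, β u_n) - min(β v_b, β v_n) ≥ ζ/2`
(`0 ≤ chi ≤ 1`).  Test `NV g M'` (first functional of `EN`): `C' ≥ (√|M'|)⁻¹ (ζ/2) (|M'|/4)
Hg g |M'| = D M' / 8` (`kernel_lower`).  So `D M ≤ 32 C'`.
-/

open Finset Filter Topology

namespace Pool.Agent.WB

theorem K_detect (g : ℕ) (hg : 1 ≤ g) (t : ℕ) (u v : ℕ → ℝ) (hu : ∀ n, 0 ≤ u n)
    (hv : ∀ n, 0 ≤ v n) (M : Finset ℕ) (ζ : ℝ) (hζ : 0 < ζ)
    (hM : ∀ n ∈ M, v n + ζ ≤ u n)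
    (hw : ∀ n ∈ M, Lam g ^ t ≤ hh (kap g) u n ∧ hh (kap g) u n < Lam g ^ (t + 2)) (C' : ℝ)
    (hbase : ∀ n, |u n - v n| ≤ C')
    (hK : ∀ i, Bd (EN g (2 * 4 ^ (i + 1))) (Kmap g t i u - Kmap g t i v) C') :
    ζ * (√(M.card : ℝ) * Hg g M.card) ≤ 64 * C' + 1 := by
  classical
  have hC' : 0 ≤ C' := (abs_nonneg _).trans (hbase 0)
  by_cases hD : ζ * (√(M.card : ℝ) * Hg g M.card) < 1
  · linarith
  push Not at hD
  have hLam : 0 < Lam g := by
    have := Hm_nonneg g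
    unfold Lam
    linarith
  set S' : ℝ := Lam g ^ (t + 2) with hS'
  have hS'pos : 0 < S' := pow_pos hLam _
  have hHm1 : 1 ≤ Hm g := one_le_Hm hg
  set B : ℝ := Bc g t with hB
  have hBeq : B = 2 * S' * Hm g := rfl
  have hBpos : 0 < B := by rw [hBeq]; positivity
  have hMne : M.Nonempty := by
    rw [nonempty_iff_ne_empty]
    rintro rfl
    norm_num at hD
  have hMc : 1 ≤ M.card := card_pos.2 hMne
  -- the large values
  set M' := M.filter (fun n => u n ≤ B * ζ) with hM'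
  have hcard : M.card ≤ 2 * M'.card := by
    by_contra hcon
    push Not at hcon
    set L := M.filter (fun n => ¬ u n ≤ B * ζ) with hL
    have hsum : M'.card + L.card = M.card := card_filter_add_card_filter_not _
    have hLc : M.card ≤ 2 * L.card := by omega
    obtain ⟨N, hNM, hNmax⟩ := M.exists_max_image id hMne
    have hLsub : L ⊆ range (N + 1) := by
      intro m hm
      have := hNmax m (mem_filter.1 hm).1
      simp only [id] at this
      exact mem_range.2 (by omega)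
    have h1 : √(∑ m ∈ range (N + 1), u m ^ 2) < S' :=
      lt_of_le_of_lt (l2_le_ga (kap g) _ _) (hw N hNM).2
    have h2 : ∑ m ∈ range (N + 1), u m ^ 2 < S' ^ 2 := by
      rw [Real.sqrt_lt' hS'pos] at h1
      exact h1
    have h3 : (L.card : ℝ) * (B * ζ) ^ 2 ≤ ∑ m ∈ range (N + 1), u m ^ 2 := by
      calc (L.card : ℝ) * (B * ζ) ^ 2 = ∑ _m ∈ L, (B * ζ) ^ 2 := by
            rw [sum_const, nsmul_eq_mul]
        _ ≤ ∑ m ∈ L, u m ^ 2 := by
            refine sum_le_sum (fun m hm => ?_)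
            have := (mem_filter.1 hm).2
            push Not at this
            have h0 : 0 ≤ B * ζ := by positivity
            exact pow_le_pow_left₀ h0 this.le 2
        _ ≤ _ := sum_le_sum_of_subset_of_nonneg hLsub (fun m _ _ => sq_nonneg _)
    have h4 : 1 ≤ ζ * √(M.card : ℝ) * Hm g := by
      refine hD.trans ?_
      rw [← mul_assoc]
      gcongr
      exact Hg_le_Hm g _
    have h5 : 1 ≤ ζ ^ 2 * (M.card : ℝ) * Hm g ^ 2 := by
      have h6 : (1 : ℝ) ≤ (ζ * √(M.card : ℝ) * Hm g) ^ 2 := one_le_pow₀ h4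
      rw [mul_pow, mul_pow, Real.sq_sqrt (Nat.cast_nonneg _)] at h6
      exact h6
    have h7 : (M.card : ℝ) ≤ 2 * (L.card : ℝ) := by exact_mod_cast hLc
    have h8 : 2 * S' ^ 2 ≤ (L.card : ℝ) * (B * ζ) ^ 2 := by
      rw [hBeq]
      have h9 : (L.card : ℝ) * (2 * S' * Hm g * ζ) ^ 2 =
          2 * S' ^ 2 * ((2 * (L.card : ℝ)) * (ζ ^ 2 * Hm g ^ 2)) := by ring
      rw [h9]
      have h10 : 1 ≤ (2 * (L.card : ℝ)) * (ζ ^ 2 * Hm g ^ 2) := by
        calc (1 : ℝ) ≤ ζ ^ 2 * (M.card : ℝ) * Hm g ^ 2 := h5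
          _ = (M.card : ℝ) * (ζ ^ 2 * Hm g ^ 2) := by ring
          _ ≤ _ := by gcongr
      nlinarith [sq_nonneg S']
    nlinarith [sq_nonneg S', pow_pos hS'pos 2]
  have hDM : ζ * (√(M.card : ℝ) * Hg g M.card) ≤ 4 * (ζ * (√(M'.card : ℝ) * Hg g M'.card)) := by
    have := mul_le_mul_of_nonneg_left (sq_double g hcard) hζ.le
    linarith
  have hM'1 : 1 ≤ M'.card := by omega
  have hsub : ∀ n ∈ M', n ∈ M := fun n hn => (mem_filter.1 hn).1
  rcases Nat.lt_or_ge M'.card 2 with hlt | hge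
  · -- one element
    have hc1 : M'.card = 1 := by omega
    obtain ⟨n, hn⟩ := card_eq_one.1 hc1
    have hnM' : n ∈ M' := by rw [hn]; exact mem_singleton_self n
    have h1 := hM n (hsub n hnM')
    have h2 := (abs_le.1 (hbase n)).2
    have h3 : Hg g 1 = 2 := by
      unfold Hg Hm
      rw [min_eq_left hg]
      norm_num
    rw [hc1] at hDM
    rw [h3] at hDM
    norm_num at hDM
    linarith
  · -- at least two elements
    obtain ⟨n₀, hn₀⟩ := card_pos.1 hM'1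
    have hz : ζ < S' := by
      have h1 := hM n₀ (hsub n₀ hn₀)
      have h2 := hv n₀
      have h3 : |u n₀| ≤ hh (kap g) u n₀ := abs_le_ga (kap g) (mem_range.2 (Nat.lt_succ_self n₀)) u
      have h4 := (hw n₀ (hsub n₀ hn₀)).2
      have h5 := le_abs_self (u n₀)
      linarith
    obtain ⟨n, hn1, hn2⟩ := exists_nat_pow_near_of_lt_one (x := ζ / S') (y := (1 / 2 : ℝ))
      (div_pos hζ hS'pos) ((div_le_one hS'pos).2 hz.le) (by norm_num) (by norm_num)
    rw [lt_div_iff₀ hS'pos] at hn1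
    rw [div_le_iff₀ hS'pos] at hn2
    set τ : ℝ := tau g t (n + 2) with hτ
    have hτeq : τ = S' * (1 / 2) ^ (n + 2) := rfl
    have hτpos : 0 < τ := by rw [hτeq]; positivity
    have hτ2 : 2 * τ ≤ ζ := by
      rw [hτeq, pow_succ]
      linarith
    have hτ4 : ζ ≤ 4 * τ := by
      rw [hτeq, pow_succ, pow_succ]
      linarith
    have hgap : ∀ m ∈ M', bet τ B (v m) + ζ / 2 ≤ bet τ B (u m) := by
      intro m hm
      have h1 : u m ≤ B * ζ := (mem_filter.1 hm).2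
      refine bet_gap hτpos (hv m) (hM m (hsub m hm)) hτ2 ?_
      calc u m ≤ B * ζ := h1
        _ ≤ B * (4 * τ) := by gcongr
        _ = 4 * B * τ := by ring
    have hdiff : ∀ b ∈ M', ∀ m ∈ M', b < m →
        ζ / 2 ≤ |(Kmap g t (n + 2) u - Kmap g t (n + 2) v) (b, m)| := by
      intro b hb m hm hbm
      refine le_trans ?_ (le_abs_self _)
      have e1 : Kmap g t (n + 2) u (b, m) = min (bet τ B (u b)) (bet τ B (u m)) := by
        unfold Kmap
        rw [if_pos hbm]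
        have h1 := hw m (hsub m hm)
        rw [chi_eq_one (pow_pos hLam t) hS'pos h1.1 h1.2.le, one_mul]
      have e2 : Kmap g t (n + 2) v (b, m) ≤ min (bet τ B (v b)) (bet τ B (v m)) := by
        unfold Kmap
        rw [if_pos hbm]
        have h1 := chi_le_one (Lam g ^ t) (Lam g ^ (t + 2)) (hh (kap g) v m)
        have hBτ : 0 ≤ B * τ := by positivity
        have h2 : 0 ≤ min (bet τ B (v b)) (bet τ B (v m)) :=
          le_min (bet_nonneg hBτ _) (bet_nonneg hBτ _)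
        exact mul_le_of_le_one_left h2 h1
      have e3 : min (bet τ B (v b)) (bet τ B (v m)) + ζ / 2 ≤ min (bet τ B (u b)) (bet τ B (u m)) := by
        refine le_min ?_ ?_
        · exact (add_le_add_left (min_le_left _ _) _).trans (hgap b hb)
        · exact (add_le_add_left (min_le_right _ _) _).trans (hgap m hm)
      rw [Pi.sub_apply, e1]
      linarith
    have hNV := hK (n + 2) (true, M', 0, fun _ => 0)
    have hNV' : NV g M' (Kmap g t (n + 2) u - Kmap g t (n + 2) v) ≤ C' := hNV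
    have hlow : (√(M'.card : ℝ))⁻¹ * (ζ / 2 * ((M'.card : ℝ) / 8 * Hg g M'.card)) ≤
        NV g M' (Kmap g t (n + 2) u - Kmap g t (n + 2) v) := by
      unfold NV
      refine mul_le_mul_of_nonneg_left ?_ (inv_nonneg.2 (Real.sqrt_nonneg _))
      refine (mul_le_mul_of_nonneg_left (kernel_lower g hg M' hge) (by positivity)).trans ?_
      rw [mul_sum]
      refine sum_le_sum (fun b hb => ?_)
      rw [mul_sum]
      refine sum_le_sum (fun m hm => ?_)
      by_cases hbm : b < m ∧ dV M' b m ≤ g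
      · rw [if_pos hbm, if_pos hbm, mul_one_div]
        exact div_le_div_of_nonneg_right (hdiff b hb m hm hbm.1) (Nat.cast_nonneg _)
      · rw [if_neg hbm, if_neg hbm, mul_zero]
    have hsq : (√(M'.card : ℝ))⁻¹ * (ζ / 2 * ((M'.card : ℝ) / 8 * Hg g M'.card)) =
        (ζ * (√(M'.card : ℝ) * Hg g M'.card)) / 16 := by
      have h0 : 0 < √(M'.card : ℝ) := Real.sqrt_pos.2 (by exact_mod_cast hM'1)
      have h1 : √(M'.card : ℝ) * √(M'.card : ℝ) = (M'.card : ℝ) :=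
        Real.mul_self_sqrt (Nat.cast_nonneg _)
      rw [inv_mul_eq_div, div_eq_div_iff h0.ne' (by norm_num)]
      calc ζ / 2 * ((M'.card : ℝ) / 8 * Hg g M'.card) * 16
          = ζ * Hg g M'.card * (M'.card : ℝ) := by ring
        _ = ζ * Hg g M'.card * (√(M'.card : ℝ) * √(M'.card : ℝ)) := by rw [h1]
        _ = _ := by ring
    rw [hsq] at hlow
    linarith

end Pool.Agent.WB
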