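import Pool.Agent.Lib.MP_c7fb7b_an.A1

/-!
# D1: bumps (45 min)

`Dm r a i = min (2r, a 0, …, a (i-1))`, `bump r a i = max 0 (min (r - a i) (Dm r a i - r/2))`.
`bump_exists`: let `i` be the least index with `a i ≤ 5r/8` (exists); then `Dm r a i > 5r/8`, so
`bump ≥ min (3r/8) (r/8)`.
`cc_dense`: approximate `x m` for `m ≤ n` by rationals up to `ε/(2(n+1)) / 2`, take the finitely
supported rational sequence, and `ga_le_sum`: gauge `≤ 2 ∑ |·|`.
-/

open Finset Filter Topology

namespace Pool.Agent.WB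

theorem bump_nonneg (r : ℝ) (a : ℕ → ℝ) (i : ℕ) : 0 ≤ bump r a i := le_max_left _ _

theorem bump_le {r : ℝ} (hr : 0 < r) {a : ℕ → ℝ} (ha : ∀ i, 0 ≤ a i) (i : ℕ) :
    bump r a i ≤ r := by
  unfold bump
  refine max_le hr.le ((min_le_left _ _).trans ?_)
  have := ha i
  linarith

theorem d1_min_lip {p q p' q' δ : ℝ} (h1 : |p - p'| ≤ δ) (h2 : |q - q'| ≤ δ) :
    |min p q - min p' q'| ≤ δ :=
  (abs_min_sub_min_le_max p q p' q').trans (max_le h1 h2)

theorem d1_Dm_lip {r δ : ℝ} (hδ : 0 ≤ δ) {a a' : ℕ → ℝ} (h : ∀ i, |a i - a' i| ≤ δ) (i : ℕ) :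
    |Dm r a i - Dm r a' i| ≤ δ := by
  induction i with
  | zero => simpa [Dm] using hδ
  | succ i ih => exact d1_min_lip ih (h i)

theorem bump_lip {r δ : ℝ} (hδ : 0 ≤ δ) {a a' : ℕ → ℝ} (h : ∀ i, |a i - a' i| ≤ δ) (i : ℕ) :
    |bump r a i - bump r a' i| ≤ δ := by
  unfold bump
  refine (abs_max_sub_max_le_max _ _ _ _).trans (max_le (by simpa using hδ) ?_)
  refine d1_min_lip ?_ ?_
  · have : r - a i - (r - a' i) = -(a i - a' i) := by ring
    rw [this, abs_neg]
    exact h i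
  · have : Dm r a i - r / 2 - (Dm r a' i - r / 2) = Dm r a i - Dm r a' i := by ring
    rw [this]
    exact d1_Dm_lip hδ h i

theorem lt_of_bump_pos {r : ℝ} {a : ℕ → ℝ} {i : ℕ} (h : 0 < bump r a i) : a i < r := by
  unfold bump at h
  rcases lt_max_iff.mp h with h | h
  · exact absurd h (lt_irrefl _)
  · have := (lt_min_iff.mp h).1
    linarith

theorem d1_Dm_le {r : ℝ} {a : ℕ → ℝ} {i j : ℕ} (hj : j < i) : Dm r a i ≤ a j := by
  induction i with
  | zero => omega
  | succ i ih =>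
    rcases Nat.lt_succ_iff_lt_or_eq.mp hj with h | h
    · exact (min_le_left _ _).trans (ih h)
    · rw [h]
      exact min_le_right _ _

theorem bump_eq_zero {r : ℝ} {a : ℕ → ℝ} {i j : ℕ} (hj : j < i) (h : a j ≤ r / 2) :
    bump r a i = 0 := by
  unfold bump
  have h1 : Dm r a i ≤ a j := d1_Dm_le hj
  refine max_eq_left ((min_le_right _ _).trans ?_)
  linarith

theorem d1_le_Dm {r c : ℝ} {a : ℕ → ℝ} {i : ℕ} (h2 : c ≤ 2 * r) (h : ∀ j < i, c ≤ a j) :
    c ≤ Dm r a i := by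
  induction i with
  | zero => exact h2
  | succ i ih => exact le_min (ih fun j hj => h j (by omega)) (h i (by omega))

theorem bump_exists {r : ℝ} (hr : 0 < r) {a : ℕ → ℝ} (h : ∃ j, a j ≤ r / 2) :
    ∃ i, r / 8 ≤ bump r a i := by
  classical
  have h' : ∃ j, a j ≤ 5 * r / 8 := by
    obtain ⟨j, hj⟩ := h
    exact ⟨j, by linarith⟩
  refine ⟨Nat.find h', ?_⟩
  have h1 := Nat.find_spec h'
  have h2 : 5 * r / 8 ≤ Dm r a (Nat.find h') := by
    refine d1_le_Dm (by linarith) fun j hj => ?_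
    have := Nat.find_min h' hj
    linarith
  unfold bump
  refine le_max_of_le_right (le_min ?_ ?_)
  · linarith
  · linarith

theorem continuous_bump {X : Type} [TopologicalSpace X] (r : ℝ) (a : X → ℕ → ℝ)
    (ha : ∀ i, Continuous (fun x => a x i)) (i : ℕ) : Continuous (fun x => bump r (a x) i) := by
  have hD : ∀ i, Continuous (fun x => Dm r (a x) i) := by
    intro i
    induction i with
    | zero => exact continuous_const
    | succ i ih => exact ih.min (ha i)
  unfold bump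
  exact continuous_const.max ((continuous_const.sub (ha i)).min ((hD i).sub continuous_const))

theorem cc_dense {k : ℕ → ℝ} (hk : ∀ v, 0 ≤ k v) (hk2 : ∀ v, k v ≤ 2) (x : ℕ → ℝ) (n : ℕ) {ε : ℝ}
    (hε : 0 < ε) : ∃ i, hh k (fun m => x m - cc i m) n ≤ ε := by
  classical
  have hpos : 0 < ε / (2 * ((n : ℝ) + 1)) := by positivity
  have hq : ∀ m : ℕ, ∃ q : ℚ, |x m - (q : ℝ)| ≤ ε / (2 * ((n : ℝ) + 1)) := by
    intro m
    obtain ⟨q, h1, h2⟩ := exists_rat_btwn (show x m - ε / (2 * ((n : ℝ) + 1)) < x m by linarith)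
    refine ⟨q, ?_⟩
    rw [abs_le]
    constructor <;> linarith
  choose q hq using hq
  let fs : ℕ →₀ ℚ := Finsupp.onFinset (range (n + 1)) (fun m => if m ∈ range (n + 1) then q m else 0)
    (by
      intro m hm
      by_contra hc
      exact hm (if_neg hc))
  obtain ⟨i, hi⟩ := (exists_surjective_nat (ℕ →₀ ℚ)).choose_spec fs
  refine ⟨i, ?_⟩
  unfold hh
  refine (ga_le_sum hk hk2 _ _).trans ?_
  have h1 : ∀ m ∈ range (n + 1), |x m - cc i m| ≤ ε / (2 * ((n : ℝ) + 1)) := by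
    intro m hm
    have : cc i m = ((q m : ℚ) : ℝ) := by
      unfold cc
      rw [hi]
      show (((if m ∈ range (n + 1) then q m else 0 : ℚ)) : ℝ) = _
      rw [if_pos hm]
    rw [this]
    exact hq m
  calc 2 * ∑ m ∈ range (n + 1), |x m - cc i m|
      ≤ 2 * ∑ m ∈ range (n + 1), ε / (2 * ((n : ℝ) + 1)) := by
        have := Finset.sum_le_sum h1
        linarith
    _ = ε := by
        rw [Finset.sum_const, card_range, nsmul_eq_mul]
        push_cast
        field_simp

end Pool.Agent.WB
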