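import Pool.Agent.Lib.MP_c7fb7b_an.B2

/-!
# D2: the carrier is Lipschitz and bounded (45 min)

`qs_lip`: this is `lemT_dn` with `A = σ` (functions `fun m => dn σ (hh k u m) * u m`).
`xb_lip`: `xt k σ u - xt k σ v` has gauge `≤ 4δ` by `lemT_up` (`A = 4σ`), so also Euclidean norm
`≤ 4δ` (`ga_k0`, `l2_le_ga`); `|min a σ - min b σ| ≤ |a - b|`.
`wr_bdd`: `wr n = σ⁻¹ dn(2σ)(ub n) xb n` with `ub n = hh k0 (xb) n`.  Nonzero only if
`ub n < 4σ`.  For finite `s` let `N` be the maximum of `{n ∈ s | wr n ≠ 0}`; then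
`√(∑_s wr²) ≤ σ⁻¹ √(∑_{n ≤ N} xb²) = σ⁻¹ ub N ≤ 4` (`|wr n| ≤ σ⁻¹ |xb n|`; `ga_restrict`,
`ga_smul`, `ga_set`).
`wr_lip`: `lemT_mul` (or `lemT_dn`) for `k0`, `A = 2σ`, `x = xb u`, `y = xb v`, `δ := 4δ`, gives
`16δ` for `dn(..) xb u - dn(..) xb v`, then multiply by `σ⁻¹` (`ga_smul`).
-/

open Finset Filter Topology

namespace Pool.Agent.WB

theorem k0_nonneg (v : ℕ) : 0 ≤ k0 v := le_refl _

theorem qs_lip {k : ℕ → ℝ} (hk : ∀ v, 0 ≤ k v)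
    (hk' : ∀ v w, 1 ≤ w → w ≤ v → k v ≤ k w) {σ : ℝ} (hσ : 0 < σ) {u v : ℕ → ℝ} {δ : ℝ}
    (hδ : Bd (ga k) (u - v) δ) : Bd (ga k) (qs k σ u - qs k σ v) (4 * δ) :=
  lemT_dn hk hk' hσ hδ

theorem xb_lip {k : ℕ → ℝ} (hk : ∀ v, 0 ≤ k v)
    (hk' : ∀ v w, 1 ≤ w → w ≤ v → k v ≤ k w) {σ : ℝ} (hσ : 0 < σ) {u v : ℕ → ℝ} {δ : ℝ}
    (hδ : Bd (ga k) (u - v) δ) : Bd (ga k0) (xb k σ u - xb k σ v) (4 * δ) := by
  intro s
  have h1 : Bd (ga k) (fun n => up (4 * σ) (hh k u n) * u n - up (4 * σ) (hh k v n) * v n)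
      (4 * δ) := lemT_up hk hk' (by linarith) hδ
  refine le_trans ?_ (h1 s)
  rw [ga_k0]
  refine le_trans ?_ (l2_le_ga k s _)
  refine Real.sqrt_le_sqrt (Finset.sum_le_sum fun m _ => ?_)
  rw [sq_le_sq]
  show |min (xt k σ u m) σ - min (xt k σ v m) σ| ≤ |xt k σ u m - xt k σ v m|
  refine (abs_min_sub_min_le_max _ _ _ _).trans (max_le le_rfl ?_)
  rw [sub_self, abs_zero]
  exact abs_nonneg _

theorem wr_bdd {k : ℕ → ℝ} {σ : ℝ} (hσ : 0 < σ) (u : ℕ → ℝ) : Bd (ga k0) (wr k σ u) 4 := by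
  classical
  intro s
  set s' := s.filter (fun n => wr k σ u n ≠ 0) with hs'
  have h1 : ga k0 s (wr k σ u) ≤ ga k0 s' (wr k σ u) := by
    refine ga_restrict k0_nonneg (fun _ _ _ _ => le_refl _) fun m hm hm' => ?_
    by_contra hc
    exact hm' (Finset.mem_filter.2 ⟨hm, hc⟩)
  refine h1.trans ?_
  rcases s'.eq_empty_or_nonempty with he | hne
  · rw [he, ga_k0]
    simp
  · have hN := s'.max'_mem hne
    set N := s'.max' hne with hNd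
    have hN2 : wr k σ u N ≠ 0 := (Finset.mem_filter.1 hN).2
    have hlt : hh k0 (xb k σ u) N < 4 * σ := by
      by_contra hc
      rw [not_lt] at hc
      apply hN2
      unfold wr
      rw [dn_of_ge (by linarith) (by linarith), zero_mul, mul_zero]
    have h2 : ga k0 s' (wr k σ u) ≤ σ⁻¹ * ga k0 s' (xb k σ u) := by
      refine ga_smul k0_nonneg (inv_nonneg.2 hσ.le) fun m _ => ?_
      unfold wr
      rw [abs_mul, abs_mul, abs_of_nonneg (inv_nonneg.2 hσ.le), abs_of_nonneg (dn_nonneg _ _)]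
      refine mul_le_mul_of_nonneg_left ?_ (inv_nonneg.2 hσ.le)
      exact mul_le_of_le_one_left (abs_nonneg _) (dn_le_one _ _)
    have h3 : ga k0 s' (xb k σ u) ≤ hh k0 (xb k σ u) N := by
      refine ga_set k0_nonneg ?_ _
      intro m hm
      have := s'.le_max' m hm
      rw [Finset.mem_range]
      omega
    calc ga k0 s' (wr k σ u) ≤ σ⁻¹ * ga k0 s' (xb k σ u) := h2
      _ ≤ σ⁻¹ * (4 * σ) := mul_le_mul_of_nonneg_left (h3.trans hlt.le) (inv_nonneg.2 hσ.le)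
      _ = 4 := by field_simp

theorem wr_lip {k : ℕ → ℝ} (hk : ∀ v, 0 ≤ k v)
    (hk' : ∀ v w, 1 ≤ w → w ≤ v → k v ≤ k w) {σ : ℝ} (hσ : 0 < σ) {u v : ℕ → ℝ} {δ : ℝ}
    (hδ : Bd (ga k) (u - v) δ) : Bd (ga k0) (wr k σ u - wr k σ v) (16 * δ / σ) := by
  intro s
  have h1 := lemT_dn k0_nonneg (fun _ _ _ _ => le_refl _) (show (0 : ℝ) < 2 * σ by linarith)
    (xb_lip hk hk' hσ hδ)
  have h2 := h1 s
  have h3 : ga k0 s (wr k σ u - wr k σ v) ≤ σ⁻¹ * ga k0 s (fun n =>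
      dn (2 * σ) (hh k0 (xb k σ u) n) * xb k σ u n -
        dn (2 * σ) (hh k0 (xb k σ v) n) * xb k σ v n) := by
    refine ga_smul k0_nonneg (inv_nonneg.2 hσ.le) fun m _ => ?_
    have e : (wr k σ u - wr k σ v) m = σ⁻¹ * (dn (2 * σ) (hh k0 (xb k σ u) m) * xb k σ u m -
        dn (2 * σ) (hh k0 (xb k σ v) m) * xb k σ v m) := by
      rw [Pi.sub_apply]
      unfold wr
      ring
    rw [e, abs_mul, abs_of_nonneg (inv_nonneg.2 hσ.le)]
  refine h3.trans ((mul_le_mul_of_nonneg_left h2 (inv_nonneg.2 hσ.le)).trans (le_of_eq ?_))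
  field_simp
  ring

end Pool.Agent.WB
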