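import Pool.Agent.Lib.MP_c7fb7b_an.A2
import Pool.Agent.Lib.MP_c7fb7b_an.D1
import Pool.Agent.Lib.MP_c7fb7b_an.D2

/-!
# D3: the recorder is Lipschitz (45 min)

`σ = Lam g ^ t > 0`.  Fix the functional `(s, ι)` of `LN`: `√(∑_{n∈s} (R u - R v)(n, ι n)²)`.
Put `l = (unpair (ι n)).1`, `i = (unpair (ι n)).2`, `r = 2^l`.  If `r > 4σ` the entry is `0`.
Otherwise `|R u - R v|(n, ι n) ≤ |w_u n - w_v n| * bump(u) + |w_v n| * |bump(u) - bump(v)|
 ≤ 4σ |w_u n - w_v n| + 4δ |w_v n|`, because `0 ≤ bump ≤ r ≤ 4σ` and by `bump_lip` with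
`|hh (qs u - c_i) n - hh (qs v - c_i) n| ≤ hh (qs u - qs v) n ≤ 4δ` (`abs_hh_sub_le`, `qs_lip`).
By the triangle inequality (`ga_add`, `ga_smul` for `k0`, or Minkowski) the Euclidean norm is at most
`4σ * 16δ/σ + 4δ * 4 = 80δ`.
-/

open Finset Filter Topology

namespace Pool.Agent.WB

theorem d3_entry (g t : ℕ) (u v : ℕ → ℝ) {δ : ℝ} (hδ : Bd (ga (kap g)) (u - v) δ) (n e : ℕ) :
    |Rmap g t u (n, e) - Rmap g t v (n, e)| ≤
      4 * Lam g ^ t * |(wr (kap g) (Lam g ^ t) u - wr (kap g) (Lam g ^ t) v) n| +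
        4 * δ * |wr (kap g) (Lam g ^ t) v n| := by
  have hL : 0 < Lam g := by
    unfold Lam
    have := Hm_nonneg g
    linarith
  have hσ : 0 < Lam g ^ t := pow_pos hL t
  have hδ0 : 0 ≤ δ := (ga_nonneg _ _ _).trans (hδ ∅)
  unfold Rmap
  simp only
  by_cases hr : (2 : ℝ) ^ (Nat.unpair e).1 ≤ 4 * Lam g ^ t
  · rw [if_pos hr, if_pos hr]
    have hr0 : (0 : ℝ) < 2 ^ (Nat.unpair e).1 := by positivity
    have hnn : ∀ (x : ℕ → ℝ) (m : ℕ), 0 ≤ hh (kap g) x m := fun x m => ga_nonneg _ _ _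
    have hb0 := bump_nonneg (2 ^ (Nat.unpair e).1)
      (fun i => hh (kap g) (fun m => qs (kap g) (Lam g ^ t) u m - cc i m) n) (Nat.unpair e).2
    have hb1 := bump_le hr0
      (a := fun i => hh (kap g) (fun m => qs (kap g) (Lam g ^ t) u m - cc i m) n)
      (fun i => hnn _ _) (Nat.unpair e).2
    have hbl := bump_lip (r := 2 ^ (Nat.unpair e).1) (δ := 4 * δ) (by linarith)
      (a := fun i => hh (kap g) (fun m => qs (kap g) (Lam g ^ t) u m - cc i m) n)
      (a' := fun i => hh (kap g) (fun m => qs (kap g) (Lam g ^ t) v m - cc i m) n)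
      (by
        intro i
        refine (abs_hh_sub_le (kap_nonneg g) _ _ n).trans ?_
        have e1 : ((fun m => qs (kap g) (Lam g ^ t) u m - cc i m) -
            fun m => qs (kap g) (Lam g ^ t) v m - cc i m) =
            qs (kap g) (Lam g ^ t) u - qs (kap g) (Lam g ^ t) v := by
          ext m
          simp
        rw [e1]
        exact qs_lip (kap_nonneg g) (kap_anti g) hσ hδ _) (Nat.unpair e).2
    rw [Pi.sub_apply]
    generalize bump (2 ^ (Nat.unpair e).1)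
      (fun i => hh (kap g) (fun m => qs (kap g) (Lam g ^ t) u m - cc i m) n) (Nat.unpair e).2
      = b at *
    generalize bump (2 ^ (Nat.unpair e).1)
      (fun i => hh (kap g) (fun m => qs (kap g) (Lam g ^ t) v m - cc i m) n) (Nat.unpair e).2
      = b' at *
    generalize wr (kap g) (Lam g ^ t) u n = w at *
    generalize wr (kap g) (Lam g ^ t) v n = w' at *
    have e2 : w * b - w' * b' = (w - w') * b + w' * (b - b') := by ring
    rw [e2]
    refine (abs_add_le _ _).trans ?_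
    rw [abs_mul, abs_mul, abs_of_nonneg hb0]
    have h1 : |w - w'| * b ≤ |w - w'| * (4 * Lam g ^ t) :=
      mul_le_mul_of_nonneg_left (hb1.trans hr) (abs_nonneg _)
    have h2 : |w'| * |b - b'| ≤ |w'| * (4 * δ) := mul_le_mul_of_nonneg_left hbl (abs_nonneg _)
    linarith
  · rw [if_neg hr, if_neg hr, sub_self, abs_zero]
    positivity

theorem R_lip (g t : ℕ) (u v : ℕ → ℝ) {δ : ℝ} (hδ : Bd (ga (kap g)) (u - v) δ) :
    Bd LN (Rmap g t u - Rmap g t v) (80 * δ) := by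
  intro j
  have hL : 0 < Lam g := by
    unfold Lam
    have := Hm_nonneg g
    linarith
  have hσ : 0 < Lam g ^ t := pow_pos hL t
  have hδ0 : 0 ≤ δ := (ga_nonneg _ _ _).trans (hδ ∅)
  unfold LN
  have e1 : √(∑ n ∈ j.2.1, ((Rmap g t u - Rmap g t v) (n, j.2.2.2 n)) ^ 2) =
      ga k0 j.2.1 (fun n => (Rmap g t u - Rmap g t v) (n, j.2.2.2 n)) := (ga_k0 _ _).symm
  rw [e1]
  have h1 : ga k0 j.2.1 (fun n => (Rmap g t u - Rmap g t v) (n, j.2.2.2 n)) ≤
      ga k0 j.2.1 (fun n => 4 * Lam g ^ t *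
        (wr (kap g) (Lam g ^ t) u - wr (kap g) (Lam g ^ t) v) n) +
      ga k0 j.2.1 (fun n => 4 * δ * wr (kap g) (Lam g ^ t) v n) := by
    refine ga_add k0_nonneg fun m _ => ?_
    have h := d3_entry g t u v hδ m (j.2.2.2 m)
    have a1 : (0 : ℝ) ≤ 4 * Lam g ^ t := by positivity
    have a2 : (0 : ℝ) ≤ 4 * δ := by positivity
    rw [abs_mul (4 * Lam g ^ t), abs_mul (4 * δ), abs_of_nonneg a1, abs_of_nonneg a2]
    exact h
  have h2 : ga k0 j.2.1 (fun n => 4 * Lam g ^ t *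
      (wr (kap g) (Lam g ^ t) u - wr (kap g) (Lam g ^ t) v) n) ≤
      4 * Lam g ^ t * ga k0 j.2.1 (wr (kap g) (Lam g ^ t) u - wr (kap g) (Lam g ^ t) v) := by
    refine ga_smul k0_nonneg (by positivity) fun m _ => ?_
    have a1 : (0 : ℝ) ≤ 4 * Lam g ^ t := by positivity
    rw [abs_mul, abs_of_nonneg a1]
  have h3 : ga k0 j.2.1 (fun n => 4 * δ * wr (kap g) (Lam g ^ t) v n) ≤
      4 * δ * ga k0 j.2.1 (wr (kap g) (Lam g ^ t) v) := by
    refine ga_smul k0_nonneg (by positivity) fun m _ => ?_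
    have a2 : (0 : ℝ) ≤ 4 * δ := by positivity
    rw [abs_mul, abs_of_nonneg a2]
  have h4 := wr_lip (kap_nonneg g) (kap_anti g) hσ hδ j.2.1
  have h5 := wr_bdd (k := kap g) hσ v j.2.1
  have h6 : 4 * Lam g ^ t * (16 * δ / Lam g ^ t) = 64 * δ := by
    field_simp
    ring
  have h7 : 4 * Lam g ^ t * ga k0 j.2.1 (wr (kap g) (Lam g ^ t) u - wr (kap g) (Lam g ^ t) v) ≤
      4 * Lam g ^ t * (16 * δ / Lam g ^ t) := mul_le_mul_of_nonneg_left h4 (by positivity)
  have h8 : 4 * δ * ga k0 j.2.1 (wr (kap g) (Lam g ^ t) v) ≤ 4 * δ * 4 :=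
    mul_le_mul_of_nonneg_left h5 (by positivity)
  linarith

end Pool.Agent.WB
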