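import Pool.Agent.Lib.MP_c7fb7b_an.A1
import Pool.Agent.Lib.MP_c7fb7b_an.A2
import Pool.Agent.Lib.MP_c7fb7b_an.B1

/-!
# D4: capacity of the carrier
-/

open Finset Filter Topology

namespace Pool.Agent.WB

theorem d4_xt_nonneg (k : ℕ → ℝ) (σ : ℝ) (u : ℕ → ℝ) (hu : ∀ n, 0 ≤ u n) (n : ℕ) :
    0 ≤ xt k σ u n := mul_nonneg (up_nonneg _ _) (hu n)

theorem d4_xb_nonneg (k : ℕ → ℝ) {σ : ℝ} (hσ : 0 < σ) (u : ℕ → ℝ) (hu : ∀ n, 0 ≤ u n) (n : ℕ) :
    0 ≤ xb k σ u n := le_min (d4_xt_nonneg k σ u hu n) hσ.le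

theorem wr_nonneg (k : ℕ → ℝ) {σ : ℝ} (hσ : 0 < σ) (u : ℕ → ℝ) (hu : ∀ n, 0 ≤ u n) (n : ℕ) :
    0 ≤ wr k σ u n := by
  unfold wr
  exact mul_nonneg (by positivity) (mul_nonneg (dn_nonneg _ _) (d4_xb_nonneg k hσ u hu n))

/-- The carrier is nonzero only where the initial gauge is above `4σ`. -/
theorem hh_gt_of_wr (k : ℕ → ℝ) {σ : ℝ} (hσ : 0 < σ) (u : ℕ → ℝ) (n : ℕ)
    (h : wr k σ u n ≠ 0) : 4 * σ < hh k u n := by
  by_contra hle
  push Not at hle
  apply h
  have h1 : xt k σ u n = 0 := by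
    unfold xt
    rw [up_of_le (by linarith) hle, zero_mul]
  have h2 : xb k σ u n = 0 := by
    unfold xb
    rw [h1]
    exact min_eq_left hσ.le
  unfold wr
  rw [h2, mul_zero, mul_zero]

theorem d4_step1 (g : ℕ) (hg : 1 ≤ g) (σ : ℝ) (hσ : 0 < σ) (u : ℕ → ℝ) (hu : ∀ n, 0 ≤ u n)
    (N : ℕ) (h : Lam g * σ ≤ hh (kap g) u N) :
    σ ^ 2 ≤ ∑ n ∈ range (N + 1), xb (kap g) σ u n ^ 2 := by
  by_cases hA : ∃ n ∈ range (N + 1), σ ≤ xt (kap g) σ u n
  · obtain ⟨n, hn, hle⟩ := hA
    have h1 : xb (kap g) σ u n = σ := min_eq_right hle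
    have h2 := Finset.single_le_sum (f := fun n => xb (kap g) σ u n ^ 2)
      (fun i _ => sq_nonneg _) hn
    simp only [h1] at h2
    exact h2
  · push Not at hA
    have hxb : ∀ n ∈ range (N + 1), xb (kap g) σ u n = xt (kap g) σ u n := fun n hn =>
      min_eq_left (hA n hn).le
    have hk := kap_nonneg g
    -- the difference `u - xt`
    have hdiff : ga (kap g) (range (N + 1)) (fun n => u n - xt (kap g) σ u n) ≤ 8 * σ := by
      have hbig : ∀ n, 8 * σ ≤ hh (kap g) u n → u n - xt (kap g) σ u n = 0 := by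
        intro n hn
        unfold xt
        rw [up_of_ge (by linarith) (by linarith)]
        ring
      have habs : ∀ n, |u n - xt (kap g) σ u n| ≤ |u n| := by
        intro n
        have h1 : xt (kap g) σ u n ≤ u n := mul_le_of_le_one_left (hu n) (up_le_one _ _)
        have h2 := d4_xt_nonneg (kap g) σ u hu n
        rw [abs_of_nonneg (by linarith), abs_of_nonneg (hu n)]
        linarith
      by_cases hZ : ((range (N + 1)).filter (fun n => hh (kap g) u n < 8 * σ)).Nonempty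
      · set Z := (range (N + 1)).filter (fun n => hh (kap g) u n < 8 * σ) with hZd
        set n0 := Z.max' hZ with hn0
        have hmem : n0 ∈ Z := Z.max'_mem hZ
        have hlt : hh (kap g) u n0 < 8 * σ := (mem_filter.1 hmem).2
        have h1 : ga (kap g) (range (N + 1)) (fun n => u n - xt (kap g) σ u n) ≤
            ga (kap g) (range (n0 + 1)) (fun n => u n - xt (kap g) σ u n) := by
          apply ga_restrict hk (kap_anti g)
          intro m hm hm'
          apply hbig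
          by_contra hcon
          push Not at hcon
          have : m ∈ Z := mem_filter.2 ⟨hm, hcon⟩
          have h3 := Z.le_max' m this
          apply hm'
          rw [mem_range]
          omega
        have h2 : ga (kap g) (range (n0 + 1)) (fun n => u n - xt (kap g) σ u n) ≤
            ga (kap g) (range (n0 + 1)) u := ga_mono hk (fun m _ => habs m)
        exact h1.trans (h2.trans hlt.le)
      · have h0 : ∀ m ∈ range (N + 1), |u m - xt (kap g) σ u m| ≤ 0 * |u m| := by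
          intro m hm
          rw [hbig m ?_]
          · simp
          · by_contra hcon
            push Not at hcon
            exact hZ ⟨m, mem_filter.2 ⟨hm, hcon⟩⟩
        have h1 := ga_smul (s := range (N + 1)) hk (le_refl (0 : ℝ)) h0
        rw [zero_mul] at h1
        linarith
    have htri : hh (kap g) u N ≤ ga (kap g) (range (N + 1)) (fun n => u n - xt (kap g) σ u n)
        + ga (kap g) (range (N + 1)) (xt (kap g) σ u) := by
      apply ga_add hk
      intro m _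
      have e : u m = (u m - xt (kap g) σ u m) + xt (kap g) σ u m := by ring
      calc |u m| = |(u m - xt (kap g) σ u m) + xt (kap g) σ u m| := by rw [← e]
        _ ≤ _ := abs_add_le _ _
    have hl2 := gauge_le_l2 g hg (range (N + 1)) (xt (kap g) σ u)
    have hHm : 1 ≤ Hm g := one_le_Hm hg
    have hLam : Lam g = 8 + Hm g := rfl
    rw [hLam] at h
    have h5 : Hm g * σ ≤ Hm g * √(∑ m ∈ range (N + 1), xt (kap g) σ u m ^ 2) := by
      have : (8 + Hm g) * σ = 8 * σ + Hm g * σ := by ring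
      linarith
    have h6 : σ ≤ √(∑ m ∈ range (N + 1), xt (kap g) σ u m ^ 2) :=
      le_of_mul_le_mul_left h5 (by linarith)
    have h7 : ∑ n ∈ range (N + 1), xb (kap g) σ u n ^ 2
        = ∑ n ∈ range (N + 1), xt (kap g) σ u n ^ 2 :=
      Finset.sum_congr rfl (fun n hn => by rw [hxb n hn])
    rw [h7]
    exact (Real.le_sqrt' hσ).1 h6

theorem d4_step2 (x : ℕ → ℝ) (hx : ∀ n, 0 ≤ x n) (σ : ℝ) (hσ : 0 < σ) (hxσ : ∀ n, x n ≤ σ)
    (N : ℕ) (h : σ ^ 2 ≤ ∑ n ∈ range (N + 1), x n ^ 2) :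
    ∃ n0 ≤ N + 1, (∀ n < n0, ∑ m ∈ range (n + 1), x m ^ 2 ≤ (2 * σ) ^ 2) ∧
      σ ^ 2 ≤ ∑ n ∈ range n0, x n ^ 2 := by
  classical
  by_cases hb : ∃ n, (2 * σ) ^ 2 < ∑ m ∈ range (n + 1), x m ^ 2
  · by_cases hle : N < Nat.find hb
    · refine ⟨N + 1, le_rfl, fun n hn => ?_, h⟩
      have := Nat.find_min hb (m := n) (by omega)
      push Not at this
      exact this
    · push Not at hle
      refine ⟨Nat.find hb, by omega, fun n hn => ?_, ?_⟩
      · have := Nat.find_min hb (m := n) hn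
        push Not at this
        exact this
      · have h1 := Nat.find_spec hb
        rw [Finset.sum_range_succ] at h1
        have h2 := hxσ (Nat.find hb)
        have h3 := hx (Nat.find hb)
        nlinarith
  · push Not at hb
    exact ⟨N + 1, le_rfl, fun n _ => hb n, h⟩

theorem wr_capacity (g : ℕ) (hg : 1 ≤ g) (t : ℕ) (u : ℕ → ℝ) (hu : ∀ n, 0 ≤ u n) (N : ℕ)
    (h : Lam g ^ (t + 1) ≤ hh (kap g) u N) :
    1 ≤ √(∑ n ∈ range (N + 1), wr (kap g) (Lam g ^ t) u n ^ 2) := by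
  have hLam : 0 < Lam g := by
    unfold Lam
    have := Hm_nonneg g
    linarith
  have hσ : 0 < Lam g ^ t := pow_pos hLam t
  set σ := Lam g ^ t with hσd
  have h1 : Lam g * σ ≤ hh (kap g) u N := by
    rw [pow_succ, mul_comm] at h
    exact h
  have h2 := d4_step1 g hg σ hσ u hu N h1
  obtain ⟨n0, hn0, h3, h4⟩ := d4_step2 (xb (kap g) σ u) (d4_xb_nonneg (kap g) hσ u hu) σ hσ
    (fun n => min_le_right _ _) N h2
  rw [Real.one_le_sqrt]
  have h5 : ∀ n ∈ range n0, wr (kap g) σ u n ^ 2 = (σ⁻¹) ^ 2 * xb (kap g) σ u n ^ 2 := by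
    intro n hn
    have hn' := h3 n (mem_range.1 hn)
    have h6 : hh k0 (xb (kap g) σ u) n ≤ 2 * σ := by
      show ga k0 (range (n + 1)) (xb (kap g) σ u) ≤ 2 * σ
      rw [ga_k0]
      exact Real.sqrt_le_iff.2 ⟨by linarith, hn'⟩
    unfold wr
    rw [dn_of_le (by linarith) h6]
    ring
  have hsub : range n0 ⊆ range (N + 1) := Finset.range_subset_range.2 hn0
  calc (1 : ℝ) = (σ⁻¹) ^ 2 * σ ^ 2 := by
        rw [← mul_pow, inv_mul_cancel₀ hσ.ne', one_pow]
    _ ≤ (σ⁻¹) ^ 2 * ∑ n ∈ range n0, xb (kap g) σ u n ^ 2 :=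
        mul_le_mul_of_nonneg_left h4 (sq_nonneg _)
    _ = ∑ n ∈ range n0, wr (kap g) σ u n ^ 2 := by
        rw [Finset.mul_sum]
        exact Finset.sum_congr rfl (fun n hn => (h5 n hn).symm)
    _ ≤ ∑ n ∈ range (N + 1), wr (kap g) σ u n ^ 2 :=
        Finset.sum_le_sum_of_subset_of_nonneg hsub (fun i _ _ => sq_nonneg _)

end Pool.Agent.WB
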