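import Pool.Agent.Lib.MP_c7fb7b_an.D1
import Pool.Agent.Lib.MP_c7fb7b_an.D4

/-!
# D5: detection by the recorder (60 min)

`σ = Lam g ^ t`, `D = ζ (√|E| Hg g |E|)`, `0 ≤ C'` (a functional of `LN` is nonnegative).
If `D < 2` (in particular if `E` is empty) done.  Otherwise `D/2 ≥ 1`: choose `l` with
`2^l ≤ D/2 < 2^(l+1)` (`exists_nat_pow_near`), `r = 2^l`, `2r ≤ D < 4r`.  `D ≤ hh u (max E) < σ`
(`gauge_lower`, `ζ ≤ u n`), so `r ≤ 4σ`.
On `E`: `qs u n = u n` (`hh u n < σ`, `dn_of_le`), `qs v n ≤ v n ≤ u n - ζ` (`0 ≤ dn ≤ 1`), so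
`|qs u n - qs v n| ≥ ζ`.
Let `n ≤ N` with `w = wr u n ≠ 0`: `hh u n > 4σ` (`hh_gt_of_wr`), so `E ⊆ range (n+1)`
(`hh_mono`), so `hh (qs u - qs v) n ≥ D ≥ 2r` (`gauge_lower`).  Put `a i = hh (qs u - c_i) n`,
`a' i = hh (qs v - c_i) n`: `a i + a' i ≥ 2r` (`ga_add`).  By `cc_dense` and `bump_exists` there is
`i_n` with `bump r a i_n ≥ r/8 > 0`, so `a i_n < r`, `a' i_n > r`, and `bump r a' i_n = 0`
(`lt_of_bump_pos`, `bump_nonneg`).  With `ι n = pair l i_n` the entry of `R u - R v` at `(n, ι n)`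
is `≥ w n * r/8 ≥ 0`.  For `n` with `wr u n = 0` take the same choice or anything: we only need
`(w n r/8)² ≤ (entry)²`, trivially true when `w n = 0`.
Functional `(range (N+1), ι)`: `C' ≥ (r/8) √(∑ w²) ≥ r/8` (`wr_capacity`), so
`D < 4r ≤ 32 C'`.
-/

open Finset Filter Topology

namespace Pool.Agent.WB

theorem d5_Lam_pos (g : ℕ) : 0 < Lam g := by
  unfold Lam
  have := Hm_nonneg g
  linarith

/-- One entry of the recorder separates `u` and `v`. -/
theorem d5_entry (g t : ℕ) (u v : ℕ → ℝ) (hu : ∀ n, 0 ≤ u n) (E : Finset ℕ) (ζ : ℝ)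
    (hq : ∀ m ∈ E, ζ ≤ |qs (kap g) (Lam g ^ t) u m - qs (kap g) (Lam g ^ t) v m|)
    (l : ℕ) (hl : (2 : ℝ) ^ l ≤ 4 * Lam g ^ t)
    (hD : 2 * (2 : ℝ) ^ l ≤ ζ * (√(E.card : ℝ) * Hg g E.card)) (n : ℕ)
    (hEn : ∀ e ∈ E, e < n + 1) :
    ∃ i : ℕ, wr (kap g) (Lam g ^ t) u n * ((2 : ℝ) ^ l / 8) ≤
      (Rmap g t u - Rmap g t v) (n, Nat.pair l i) := by
  have hk := kap_nonneg g
  have hσ : 0 < Lam g ^ t := pow_pos (d5_Lam_pos g) t
  have hr : (0 : ℝ) < (2 : ℝ) ^ l := by positivity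
  set q : ℕ → ℝ := qs (kap g) (Lam g ^ t) u with hqdef
  set q' : ℕ → ℝ := qs (kap g) (Lam g ^ t) v with hq'def
  have hsub : E ⊆ range (n + 1) := fun e he => mem_range.2 (hEn e he)
  obtain ⟨j, hj⟩ := cc_dense hk (kap_le_two g) q n (half_pos hr)
  obtain ⟨i, hi⟩ := bump_exists hr (a := fun i => hh (kap g) (fun m => q m - cc i m) n) ⟨j, hj⟩
  refine ⟨i, ?_⟩
  have hpos : 0 < bump ((2 : ℝ) ^ l) (fun i => hh (kap g) (fun m => q m - cc i m) n) i := by
    have : 0 < (2 : ℝ) ^ l / 8 := by positivity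
    linarith
  have ha : hh (kap g) (fun m => q m - cc i m) n < (2 : ℝ) ^ l :=
    lt_of_bump_pos (a := fun i => hh (kap g) (fun m => q m - cc i m) n) hpos
  have hsum : ζ * (√(E.card : ℝ) * Hg g E.card) ≤
      hh (kap g) (fun m => q m - cc i m) n + hh (kap g) (fun m => q' m - cc i m) n := by
    refine (gauge_lower g E (range (n + 1)) hsub (fun m => q m - q' m) ζ hq).trans ?_
    refine ga_add hk (fun m _ => ?_)
    have : q m - q' m = (q m - cc i m) - (q' m - cc i m) := by ring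
    rw [this]
    exact abs_sub _ _
  have hzero : bump ((2 : ℝ) ^ l) (fun i => hh (kap g) (fun m => q' m - cc i m) n) i = 0 := by
    by_contra hne
    have h0 := bump_nonneg ((2 : ℝ) ^ l) (fun i => hh (kap g) (fun m => q' m - cc i m) n) i
    have h1 : hh (kap g) (fun m => q' m - cc i m) n < (2 : ℝ) ^ l :=
      lt_of_bump_pos (a := fun i => hh (kap g) (fun m => q' m - cc i m) n)
        (lt_of_le_of_ne h0 (Ne.symm hne))
    linarith
  have e1 : Rmap g t u (n, Nat.pair l i) = wr (kap g) (Lam g ^ t) u n *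
      bump ((2 : ℝ) ^ l) (fun i => hh (kap g) (fun m => q m - cc i m) n) i := by
    unfold Rmap
    simp only [Nat.unpair_pair]
    rw [if_pos hl]
  have e2 : Rmap g t v (n, Nat.pair l i) = 0 := by
    unfold Rmap
    simp only [Nat.unpair_pair]
    rw [if_pos hl]
    have : bump ((2 : ℝ) ^ l)
      (fun i => hh (kap g) (fun m => qs (kap g) (Lam g ^ t) v m - cc i m) n) i = 0 := hzero
    rw [this, mul_zero]
  rw [Pi.sub_apply, e1, e2, sub_zero]
  exact mul_le_mul_of_nonneg_left hi (wr_nonneg (kap g) hσ u hu n)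

theorem R_detect (g : ℕ) (hg : 1 ≤ g) (t : ℕ) (u v : ℕ → ℝ) (hu : ∀ n, 0 ≤ u n)
    (hv : ∀ n, 0 ≤ v n) (E : Finset ℕ) (ζ : ℝ) (hζ : 0 < ζ)
    (hE : ∀ n ∈ E, v n + ζ ≤ u n) (hE' : ∀ n ∈ E, hh (kap g) u n < Lam g ^ t) (N : ℕ)
    (hN : Lam g ^ (t + 1) ≤ hh (kap g) u N) (C' : ℝ)
    (hR : Bd LN (Rmap g t u - Rmap g t v) C') :
    ζ * (√(E.card : ℝ) * Hg g E.card) ≤ 32 * C' + 2 := by
  have hk := kap_nonneg g
  have hσ : 0 < Lam g ^ t := pow_pos (d5_Lam_pos g) t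
  have hC : 0 ≤ C' := (Real.sqrt_nonneg _).trans (hR (true, ∅, 0, fun _ => 0))
  rcases lt_or_ge (ζ * (√(E.card : ℝ) * Hg g E.card)) 2 with hlt | hge
  · linarith
  have hne : E.Nonempty := by
    rw [Finset.nonempty_iff_ne_empty]
    rintro rfl
    simp at hge
    linarith
  -- the size of `D`
  have hDσ : ζ * (√(E.card : ℝ) * Hg g E.card) < Lam g ^ t := by
    refine lt_of_le_of_lt ?_ (hE' _ (E.max'_mem hne))
    refine gauge_lower g E (range (E.max' hne + 1))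
      (fun e he => mem_range.2 (Nat.lt_succ_of_le (E.le_max' e he))) u ζ (fun n hn => ?_)
    have h1 := hE n hn
    have h2 := hv n
    exact (by linarith : ζ ≤ u n).trans (le_abs_self _)
  obtain ⟨l, hl1, hl2⟩ := exists_nat_pow_near (x := ζ * (√(E.card : ℝ) * Hg g E.card) / 2)
    (y := (2 : ℝ)) (by linarith) (by norm_num)
  have hl2' : ζ * (√(E.card : ℝ) * Hg g E.card) < 4 * (2 : ℝ) ^ l := by
    rw [pow_succ] at hl2
    linarith
  have hl1' : 2 * (2 : ℝ) ^ l ≤ ζ * (√(E.card : ℝ) * Hg g E.card) := by linarith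
  have hr : (0 : ℝ) < (2 : ℝ) ^ l := by positivity
  have hl4 : (2 : ℝ) ^ l ≤ 4 * Lam g ^ t := by linarith
  -- the early parts differ by at least `ζ` on `E`
  have hq : ∀ m ∈ E, ζ ≤ |qs (kap g) (Lam g ^ t) u m - qs (kap g) (Lam g ^ t) v m| := by
    intro m hm
    have h1 : qs (kap g) (Lam g ^ t) u m = u m := by
      unfold qs
      rw [dn_of_le hσ (hE' m hm).le, one_mul]
    have h2 : qs (kap g) (Lam g ^ t) v m ≤ v m := by
      unfold qs
      calc dn (Lam g ^ t) (hh (kap g) v m) * v m ≤ 1 * v m :=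
            mul_le_mul_of_nonneg_right (dn_le_one _ _) (hv m)
        _ = v m := one_mul _
    have h3 := hE m hm
    rw [h1]
    exact (by linarith : ζ ≤ u m - qs (kap g) (Lam g ^ t) v m).trans (le_abs_self _)
  -- choice of the entries
  have hchoice : ∀ n : ℕ, ∃ i : ℕ,
      (wr (kap g) (Lam g ^ t) u n * ((2 : ℝ) ^ l / 8)) ^ 2 ≤
      ((Rmap g t u - Rmap g t v) (n, i)) ^ 2 := by
    intro n
    by_cases hw : wr (kap g) (Lam g ^ t) u n = 0
    · refine ⟨0, ?_⟩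
      rw [hw, zero_mul]
      nlinarith [sq_nonneg ((Rmap g t u - Rmap g t v) (n, 0))]
    · have h4 := hh_gt_of_wr (kap g) hσ u n hw
      have hEn : ∀ e ∈ E, e < n + 1 := by
        intro e he
        by_contra hcon
        have h5 : hh (kap g) u n ≤ hh (kap g) u e := hh_mono hk u (by omega)
        have h6 := hE' e he
        linarith
      obtain ⟨i, hi⟩ := d5_entry g t u v hu E ζ hq l hl4 hl1' n hEn
      refine ⟨Nat.pair l i, ?_⟩
      have h7 : 0 ≤ wr (kap g) (Lam g ^ t) u n * ((2 : ℝ) ^ l / 8) :=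
        mul_nonneg (wr_nonneg (kap g) hσ u hu n) (by positivity)
      exact pow_le_pow_left₀ h7 hi 2
  choose ι hι using hchoice
  have hfun := hR (true, range (N + 1), 0, ι)
  have hlow : (2 : ℝ) ^ l / 8 * √(∑ n ∈ range (N + 1), wr (kap g) (Lam g ^ t) u n ^ 2) ≤
      LN (true, range (N + 1), 0, ι) (Rmap g t u - Rmap g t v) := by
    unfold LN
    have h8 : (2 : ℝ) ^ l / 8 * √(∑ n ∈ range (N + 1), wr (kap g) (Lam g ^ t) u n ^ 2) =
        √(∑ n ∈ range (N + 1), (wr (kap g) (Lam g ^ t) u n * ((2 : ℝ) ^ l / 8)) ^ 2) := by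
      have h9 : ∑ n ∈ range (N + 1), (wr (kap g) (Lam g ^ t) u n * ((2 : ℝ) ^ l / 8)) ^ 2 =
          ((2 : ℝ) ^ l / 8) ^ 2 * ∑ n ∈ range (N + 1), wr (kap g) (Lam g ^ t) u n ^ 2 := by
        rw [Finset.mul_sum]
        refine Finset.sum_congr rfl (fun n _ => ?_)
        ring
      rw [h9, Real.sqrt_mul (by positivity), Real.sqrt_sq (by positivity)]
    rw [h8]
    exact Real.sqrt_le_sqrt (Finset.sum_le_sum (fun n _ => hι n))
  have hcap := wr_capacity g hg t u hu N hN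
  have h10 : (2 : ℝ) ^ l / 8 * 1 ≤
      (2 : ℝ) ^ l / 8 * √(∑ n ∈ range (N + 1), wr (kap g) (Lam g ^ t) u n ^ 2) :=
    mul_le_mul_of_nonneg_left hcap (by positivity)
  linarith

end Pool.Agent.WB
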