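import Pool.Agent.Lib.MP_c7fb7b_an.Notions

/-!
# MP_c7fb7b_an: definitions

The weak `2`-Banach-Saks property is not preserved by weakly sequentially continuous coarse
Lipschitz embeddings.  This file contains all definitions of the construction, no proofs.
Overview of the proof: `/team-store/WPBS_PROOF.md`.
-/

open Finset Filter Topology

namespace Pool.Agent.WB

/-! ## Families of lattice seminorms and their spaces -/

variable {ι J Γ : Type}

/-- `y` is bounded by `C` for all functionals of the family. -/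
def Bd (N : J → (Γ → ℝ) → ℝ) (y : Γ → ℝ) (C : ℝ) : Prop := ∀ j, N j y ≤ C

/-- A family of lattice seminorms each depending on finitely many coordinates. -/
structure LatFam (N : J → (Γ → ℝ) → ℝ) : Prop where
  add_le : ∀ j y z, N j (y + z) ≤ N j y + N j z
  smul_eq : ∀ j (a : ℝ) y, N j (a • y) = |a| * N j y
  mono : ∀ j y z, (∀ γ, |y γ| ≤ |z γ|) → N j y ≤ N j z
  fin : ∀ j, ∃ F : Finset Γ, ∀ y, (∀ γ ∈ F, y γ = 0) → N j y = 0
  single_le : ∀ j y γ, (∀ δ, δ ≠ γ → y δ = 0) → N j y ≤ 2 * |y γ|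

/-- A coordinate is unseen if every functional of the family ignores it. -/
def Unseen (N : J → (Γ → ℝ) → ℝ) (γ : Γ) : Prop :=
  ∀ j y, (∀ δ, δ ≠ γ → y δ = 0) → N j y = 0

/-- Approximable by finitely supported functions. -/
def Appr (N : J → (Γ → ℝ) → ℝ) (y : Γ → ℝ) : Prop :=
  ∀ ε : ℝ, 0 < ε → ∃ z : Γ → ℝ, (Function.support z).Finite ∧ Bd N (y - z) ε

/-- Membership in the space of the family. -/
def Mem (N : J → (Γ → ℝ) → ℝ) (y : Γ → ℝ) : Prop :=
  (∀ γ, Unseen N γ → y γ = 0) ∧ Appr N y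

/-- The `c₀`-sum of families. -/
def sumN (N : ι → J → (Γ → ℝ) → ℝ) : ι × J → (ι × Γ → ℝ) → ℝ :=
  fun p y => N p.1 p.2 (fun γ => y (p.1, γ))

/-- The subsequence property. -/
def PP (N : J → (Γ → ℝ) → ℝ) (C : ℝ) : Prop :=
  ∀ y : ℕ → Γ → ℝ, (∀ q, (Function.support (y q)).Finite) → (∀ q, Bd N (y q) 1) →
    (∀ γ, Tendsto (fun q => y q γ) atTop (𝓝 0)) → ∀ k : ℕ, ∀ M₀ : Set ℕ, M₀.Infinite →
      ∃ M : Set ℕ, M ⊆ M₀ ∧ M.Infinite ∧ ∀ F : Finset ℕ, (F : Set ℕ) ⊆ M → F.card ≤ k →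
        Bd N (∑ q ∈ F, y q) (C * √(k : ℝ))

/-! ## Harmonic sums and gauges -/

/-- One plus the harmonic sum (so that `Hm v / √v` is nonincreasing for `v ≥ 1`). -/
noncomputable def Hm (v : ℕ) : ℝ := 1 + ∑ d ∈ range v, 1 / ((d : ℝ) + 1)

/-- Truncated harmonic sums. -/
noncomputable def Hg (g v : ℕ) : ℝ := Hm (min v g)

/-- The coefficient `H_g(v) / √v`. -/
noncomputable def kap (g v : ℕ) : ℝ := Hg g v / √(v : ℝ)

/-- The gauge of the restriction of `x` to the finite set `s`. -/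
noncomputable def ga (k : ℕ → ℝ) (s : Finset ℕ) (x : ℕ → ℝ) : ℝ :=
  max (√(∑ m ∈ s, x m ^ 2))
    (s.powerset.sup' ⟨∅, empty_mem_powerset s⟩ (fun V => k V.card * ∑ m ∈ V, |x m|))

/-- The gauge of the initial segment `{0, …, n}`. -/
noncomputable def hh (k : ℕ → ℝ) (x : ℕ → ℝ) (n : ℕ) : ℝ := ga k (range (n + 1)) x

/-- The coefficient function of `ℓ₂`. -/
def k0 : ℕ → ℝ := fun _ => 0

/-! ## Clamps -/

/-- `0` below `A`, `1` above `2A`. -/
noncomputable def up (A s : ℝ) : ℝ := max 0 (min 1 ((s - A) / A))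

/-- `1` below `A`, `0` above `2A`. -/
noncomputable def dn (A s : ℝ) : ℝ := 1 - up A s

/-- `1` on `[S, S']`, `0` off `[S / 2, 2 S']`. -/
noncomputable def chi (S S' s : ℝ) : ℝ := up (S / 2) s * dn S' s

/-! ## The edge components -/

/-- The band function. -/
noncomputable def bet (τ B s : ℝ) : ℝ := min (max (s - τ) 0) (4 * B * τ)

/-- The ratio of the windows. -/
noncomputable def Lam (g : ℕ) : ℝ := 8 + Hm g

/-- The band threshold `τ`. -/
noncomputable def tau (g t i : ℕ) : ℝ := Lam g ^ (t + 2) * (1 / 2) ^ i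

/-- The band cap `B`. -/
noncomputable def Bc (g t : ℕ) : ℝ := 2 * Lam g ^ (t + 2) * Hm g

/-- The edge component. -/
noncomputable def Kmap (g t i : ℕ) (u : ℕ → ℝ) : ℕ × ℕ → ℝ := fun e =>
  if e.1 < e.2 then chi (Lam g ^ t) (Lam g ^ (t + 2)) (hh (kap g) u e.2) *
    min (bet (tau g t i) (Bc g t) (u e.1)) (bet (tau g t i) (Bc g t) (u e.2)) else 0

/-- Number of elements of `V` in `(b, n]`. -/
def dV (V : Finset ℕ) (b n : ℕ) : ℕ := (V.filter (fun m => b < m ∧ m ≤ n)).card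

/-- The main edge functional. -/
noncomputable def NV (g : ℕ) (V : Finset ℕ) (y : ℕ × ℕ → ℝ) : ℝ :=
  (√(V.card : ℝ))⁻¹ * ∑ b ∈ V, ∑ n ∈ V, if b < n ∧ dV V b n ≤ g then
    |y (b, n)| / (dV V b n : ℝ) else 0

/-- The row functional. -/
noncomputable def N1 (G : ℝ) (m : ℕ) (nn : ℕ → ℕ) (y : ℕ × ℕ → ℝ) : ℝ :=
  G⁻¹ * ∑ b ∈ range m, |y (b, max m (nn b))|

/-- Common index type of all functionals of the components of `Y`. -/
abbrev JJ : Type := Bool × Finset ℕ × ℕ × (ℕ → ℕ)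

/-- The edge family. -/
noncomputable def EN (g : ℕ) (G : ℝ) : JJ → (ℕ × ℕ → ℝ) → ℝ := fun j y =>
  if j.1 = true then NV g j.2.1 y else N1 G j.2.2.1 j.2.2.2 y

/-! ## The recorder -/

/-- The family of `ℓ₂(c₀)`. -/
noncomputable def LN : JJ → (ℕ × ℕ → ℝ) → ℝ := fun j y =>
  √(∑ n ∈ j.2.1, (y (n, j.2.2.2 n)) ^ 2)

/-- The early part of `u`. -/
noncomputable def qs (k : ℕ → ℝ) (σ : ℝ) (u : ℕ → ℝ) (m : ℕ) : ℝ := dn σ (hh k u m) * u m

/-- The late part of `u`. -/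
noncomputable def xt (k : ℕ → ℝ) (σ : ℝ) (u : ℕ → ℝ) (n : ℕ) : ℝ := up (4 * σ) (hh k u n) * u n

/-- The capped late part. -/
noncomputable def xb (k : ℕ → ℝ) (σ : ℝ) (u : ℕ → ℝ) (n : ℕ) : ℝ := min (xt k σ u n) σ

/-- The carrier. -/
noncomputable def wr (k : ℕ → ℝ) (σ : ℝ) (u : ℕ → ℝ) (n : ℕ) : ℝ :=
  σ⁻¹ * (dn (2 * σ) (hh k0 (xb k σ u) n) * xb k σ u n)

/-- Running minimum of the distances to the centres. -/
noncomputable def Dm (r : ℝ) (a : ℕ → ℝ) : ℕ → ℝ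
  | 0 => 2 * r
  | i + 1 => min (Dm r a i) (a i)

/-- The bumps in terms of the distances `a i` to the centres. -/
noncomputable def bump (r : ℝ) (a : ℕ → ℝ) (i : ℕ) : ℝ :=
  max 0 (min (r - a i) (Dm r a i - r / 2))

/-- The centres: an enumeration of the finitely supported rational sequences. -/
noncomputable def cc (i : ℕ) : ℕ → ℝ := fun m =>
  (((exists_surjective_nat (ℕ →₀ ℚ)).choose i m : ℚ) : ℝ)

/-- The recorder. -/
noncomputable def Rmap (g t : ℕ) (u : ℕ → ℝ) : ℕ × ℕ → ℝ := fun e =>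
  if (2 : ℝ) ^ (Nat.unpair e.2).1 ≤ 4 * Lam g ^ t then
    wr (kap g) (Lam g ^ t) u e.1 *
      bump (2 ^ (Nat.unpair e.2).1)
        (fun i => hh (kap g) (fun m => qs (kap g) (Lam g ^ t) u m - cc i m) e.1)
        (Nat.unpair e.2).2
  else 0

/-! ## The components and the map -/

/-- Components. -/
inductive Cp
  | base
  | edge (t i : ℕ)
  | rcd (t : ℕ)

/-- The component maps. -/
noncomputable def Fm (g : ℕ) : Cp → (ℕ → ℝ) → ℕ × ℕ → ℝ
  | Cp.base => fun u e => if e.2 = 0 then u e.1 else 0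
  | Cp.edge t i => Kmap g t i
  | Cp.rcd t => Rmap g t

/-- The component families. -/
noncomputable def YN (g : ℕ) : Cp → JJ → (ℕ × ℕ → ℝ) → ℝ
  | Cp.base => LN
  | Cp.edge _ i => EN g (2 * 4 ^ (i + 1))
  | Cp.rcd _ => LN

/-- Index set of the components of `Y`: `g`, the sign, the component. -/
abbrev YI : Type := ℕ × Bool × Cp

/-- The family of `Y`. -/
noncomputable def YF : YI × JJ → (YI × (ℕ × ℕ) → ℝ) → ℝ :=
  sumN (fun c : YI => YN (c.1 + 1) c.2.2)

/-- The family of `X`. -/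
noncomputable def XF : ℕ × Finset ℕ → (ℕ × ℕ → ℝ) → ℝ :=
  sumN (fun (g : ℕ) (s : Finset ℕ) (x : ℕ → ℝ) => ga (kap (g + 1)) s x)

/-- Signed parts of a coordinate block. -/
def sgn (b : Bool) (x : ℕ → ℝ) : ℕ → ℝ := fun n => if b then max (x n) 0 else max (-(x n)) 0

/-- The map on functions. -/
noncomputable def fr (x : ℕ × ℕ → ℝ) : YI × (ℕ × ℕ) → ℝ := fun p =>
  Fm (p.1.1 + 1) p.1.2.2 (sgn p.1.2.1 (fun n => x (p.1.1, n))) p.2

end Pool.Agent.WB
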