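import Pool.Agent.Lib.MP_c7fb7b_an.C2
import Pool.Agent.Lib.MP_c7fb7b_an.D5

/-!
# E1: full detection (45 min)

`D A = ζ (√|A| Hg g |A|)`.  `0 ≤ C'` (functional of `LN` nonnegative, component `base`).
`J = ∅`: trivial.  `N = max J`, `h = hh (kap g) u N ≥ D J` (`gauge_lower`, `ζ ≤ u n`).
If `h < 1` done.  Otherwise choose `s` with `Lam^s ≤ h < Lam^(s+1)` (`Lam g ≥ 8 > 1`,
`exists_nat_pow_near`), `t = s - 1`, `E = {n ∈ J | hh u n < Lam^t}`, `M = J \ E`.
For `n ∈ M`: `Lam^t ≤ hh u n ≤ h < Lam^(s+1) ≤ Lam^(t+2)`, so `K_detect` gives `D M ≤ 64 C' + 1`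
(`hbase` from the component `base` with the functional `({n}, 0)` of `LN`; `hK` from the components
`edge t i`).
If `s = 0` (`t = 0`): `D E ≤ hh u (max E) < 1` if `E` is nonempty.  If `s ≥ 1`: `t + 1 = s`,
`R_detect` gives `D E ≤ 32 C' + 2`.
`|J| ≤ 2|E|` or `|J| ≤ 2|M|`, so `D J ≤ 4 max (D E) (D M) ≤ 256 C' + 8` (`sq_double`).
-/

open Finset Filter Topology

namespace Pool.Agent.WB

theorem detect (g : ℕ) (hg : 1 ≤ g) (u v : ℕ → ℝ) (hu : ∀ n, 0 ≤ u n)
    (hv : ∀ n, 0 ≤ v n) (J : Finset ℕ) (ζ : ℝ) (hζ : 0 < ζ)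
    (hJ : ∀ n ∈ J, v n + ζ ≤ u n) (C' : ℝ)
    (hF : ∀ c, Bd (YN g c) (Fm g c u - Fm g c v) C') :
    ζ * (√(J.card : ℝ) * Hg g J.card) ≤ 256 * C' + 8 := by
  classical
  have hk : ∀ w, 0 ≤ kap g w := kap_nonneg g
  have hbase : ∀ n, |u n - v n| ≤ C' := by
    intro n
    have h := hF Cp.base (false, {n}, 0, fun _ => 0)
    have h2 : LN (false, {n}, 0, fun _ => 0) (Fm g Cp.base u - Fm g Cp.base v) = |u n - v n| := by
      simp only [LN, Finset.sum_singleton, Pi.sub_apply, Fm, if_true]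
      exact Real.sqrt_sq_eq_abs _
    have h3 : LN (false, {n}, 0, fun _ => 0) (Fm g Cp.base u - Fm g Cp.base v) ≤ C' := h
    rw [h2] at h3
    exact h3
  have hC : 0 ≤ C' := le_trans (abs_nonneg _) (hbase 0)
  -- the gauge bound for a subset of `J`
  have hgl : ∀ A : Finset ℕ, A ⊆ J → ∀ n, (∀ m ∈ A, m ≤ n) →
      ζ * (√(A.card : ℝ) * Hg g A.card) ≤ hh (kap g) u n := by
    intro A hA n hn
    unfold hh
    refine gauge_lower g A (range (n + 1)) ?_ u ζ ?_
    · intro m hm
      exact Finset.mem_range.2 (Nat.lt_succ_of_le (hn m hm))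
    · intro m hm
      have h1 := hJ m (hA hm)
      have h2 := hv m
      rw [abs_of_nonneg (hu m)]
      linarith
  rcases J.eq_empty_or_nonempty with hJe | hJn
  · subst hJe
    simp only [Finset.card_empty, Nat.cast_zero, Real.sqrt_zero, zero_mul, mul_zero]
    linarith
  set N := J.max' hJn with hNdef
  have hNJ : ∀ m ∈ J, m ≤ N := fun m hm => Finset.le_max' J m hm
  have hDJ := hgl J (Finset.Subset.refl J) N hNJ
  by_cases hh1 : hh (kap g) u N < 1
  · linarith
  have hLam : 1 < Lam g := by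
    unfold Lam
    have := Hm_nonneg g
    linarith
  obtain ⟨s, hs1, hs2⟩ := exists_nat_pow_near (not_lt.1 hh1) hLam
  set t := s - 1 with ht
  set E := J.filter (fun n => hh (kap g) u n < Lam g ^ t) with hEdef
  set M := J.filter (fun n => ¬ hh (kap g) u n < Lam g ^ t) with hMdef
  have hcard : E.card + M.card = J.card := by
    rw [hEdef, hMdef]
    exact Finset.card_filter_add_card_filter_not _
  have hDM : ζ * (√(M.card : ℝ) * Hg g M.card) ≤ 64 * C' + 1 := by
    refine K_detect g hg t u v hu hv M ζ hζ (fun n hn => hJ n (Finset.mem_filter.1 hn).1) ?_ C'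
      hbase (fun i => hF (Cp.edge t i))
    intro n hn
    obtain ⟨hnJ, hn2⟩ := Finset.mem_filter.1 hn
    refine ⟨not_lt.1 hn2, ?_⟩
    have h1 : hh (kap g) u n ≤ hh (kap g) u N := hh_mono hk u (hNJ n hnJ)
    have h2 : Lam g ^ (s + 1) ≤ Lam g ^ (t + 2) :=
      pow_le_pow_right₀ hLam.le (by omega)
    linarith
  have hDE : ζ * (√(E.card : ℝ) * Hg g E.card) ≤ 32 * C' + 2 := by
    rcases Nat.eq_zero_or_pos s with hs0 | hspos
    · rcases E.eq_empty_or_nonempty with hEe | hEn
      · rw [hEe]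
        simp only [Finset.card_empty, Nat.cast_zero, Real.sqrt_zero, zero_mul, mul_zero]
        linarith
      · have h1 := hgl E (Finset.filter_subset _ _) (E.max' hEn)
          (fun m hm => Finset.le_max' E m hm)
        have h2 := (Finset.mem_filter.1 (E.max'_mem hEn)).2
        have ht0 : t = 0 := by omega
        have h3 : hh (kap g) u (E.max' hEn) < 1 := by
          have : Lam g ^ t = 1 := by rw [ht0, pow_zero]
          rw [this] at h2
          exact h2
        linarith
    · refine R_detect g hg t u v hu hv E ζ hζ (fun n hn => hJ n (Finset.mem_filter.1 hn).1)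
        (fun n hn => (Finset.mem_filter.1 hn).2) N ?_ C' (hF (Cp.rcd t))
      have : t + 1 = s := by omega
      rw [this]
      exact hs1
  rcases le_total E.card M.card with hEM | hME
  · have h1 := sq_double g (v := J.card) (w := M.card) (by omega)
    have h2 := mul_le_mul_of_nonneg_left h1 hζ.le
    nlinarith
  · have h1 := sq_double g (v := J.card) (w := E.card) (by omega)
    have h2 := mul_le_mul_of_nonneg_left h1 hζ.le
    nlinarith

end Pool.Agent.WB
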