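import Pool.Agent.Lib.MP_c7fb7b_an.A2

/-!
# E2: from level sets to the gauge (50 min)

`0 ≤ M` (`J = ∅`, `ζ = 1`).  Let `b v = ∑_{i<v} 1/(√(i+1) * Hg g (i+1))`.
Claim 1: `∑_{n∈V} |z n| ≤ M * b V.card`, by induction on `V.card`: let `n₀ ∈ V` minimise `|z|` on
`V`, `ζ = |z n₀|`; if `ζ = 0` the term is `0`; otherwise `ζ (√v Hg g v) ≤ M` for `J = V`, so
`|z n₀| ≤ M / (√v Hg g v)`; apply the induction hypothesis to `V.erase n₀`.
Claim 2: `b v ≤ 10 √v / Hg g v` for `v ≥ 1`.  Note `b v ≤ ∑_{i<v} 1/√(i+1) ≤ 2√v` (`Hg ≥ 1`).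
If `Hg g v ≤ 5` this gives the claim.  If `Hg g v > 5` then `v = w + 1` with `w ≥ 1` and
`Hg g w ≥ Hg g v - 1 ≥ 4` (`Hg g (w+1) ≤ Hg g w + 1/(w+1)`); by induction
`b v ≤ 10 √w / Hg g w + 1/(√v Hg g v)`, and `Hg g v / Hg g w ≤ 1 + 1/(v * Hg g w) ≤ 1 + 1/(4v)`, so
`b v * Hg g v ≤ 10 √w (1 + 1/(4v)) + 1/√v ≤ 10 √v`
since `√v - √w ≥ 1/(2√v)` and `10 √w/(4v) + 1/√v ≤ (2.5 + 1)/√v ≤ 5/√v`.
Conclusion: `kap g v * ∑ |z| ≤ (Hg g v/√v) * M * 10 √v / Hg g v = 10 M`.
-/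

open Finset Filter Topology

namespace Pool.Agent.WB

/-- The comparison sums. -/
noncomputable def e2b (g v : ℕ) : ℝ := ∑ i ∈ range v, 1 / (√((i : ℝ) + 1) * Hg g (i + 1))

theorem e2b_succ (g w : ℕ) :
    e2b g (w + 1) = e2b g w + 1 / (√((w : ℝ) + 1) * Hg g (w + 1)) := by
  unfold e2b
  rw [Finset.sum_range_succ]

theorem e2_sqrt_gap (w : ℕ) : 1 / √((w : ℝ) + 1) ≤ 2 * (√((w : ℝ) + 1) - √(w : ℝ)) := by
  have h1 : 0 < √((w : ℝ) + 1) := Real.sqrt_pos.2 (by positivity)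
  have h2 : √(w : ℝ) ≤ √((w : ℝ) + 1) := Real.sqrt_le_sqrt (by linarith)
  have h3 : 0 ≤ √(w : ℝ) := Real.sqrt_nonneg _
  have h4 : √((w : ℝ) + 1) ^ 2 = (w : ℝ) + 1 := Real.sq_sqrt (by positivity)
  have h5 : √(w : ℝ) ^ 2 = (w : ℝ) := Real.sq_sqrt (by positivity)
  rw [div_le_iff₀ h1]
  nlinarith

theorem e2b_le (g : ℕ) (hg : 1 ≤ g) (v : ℕ) : e2b g v ≤ 2 * √(v : ℝ) := by
  induction v with
  | zero => simp [e2b]
  | succ w ih =>
    rw [e2b_succ]
    have h1 : 0 < √((w : ℝ) + 1) := Real.sqrt_pos.2 (by positivity)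
    have h2 : 1 ≤ Hg g (w + 1) := one_le_Hg hg (by omega)
    have h3 : 1 / (√((w : ℝ) + 1) * Hg g (w + 1)) ≤ 1 / √((w : ℝ) + 1) := by
      apply one_div_le_one_div_of_le h1
      nlinarith
    have h4 := e2_sqrt_gap w
    push_cast
    linarith

theorem e2_Hg_succ (g w : ℕ) : Hg g (w + 1) ≤ Hg g w + 1 / ((w : ℝ) + 1) := by
  unfold Hg
  by_cases h : w + 1 ≤ g
  · rw [min_eq_left h, min_eq_left (by omega : w ≤ g), Hm_succ]
  · rw [min_eq_right (by omega : g ≤ w + 1), min_eq_right (by omega : g ≤ w)]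
    have : (0 : ℝ) ≤ 1 / ((w : ℝ) + 1) := by positivity
    linarith

theorem e2_claim (g : ℕ) (hg : 1 ≤ g) (v : ℕ) : e2b g v * Hg g v ≤ 10 * √(v : ℝ) := by
  induction v with
  | zero => simp [e2b]
  | succ w ih =>
    have hH0 : 0 ≤ Hg g (w + 1) := Hg_nonneg _ _
    have hs0 : 0 ≤ √((w + 1 : ℕ) : ℝ) := Real.sqrt_nonneg _
    by_cases h5 : Hg g (w + 1) ≤ 5
    · have h1 := e2b_le g hg (w + 1)
      calc e2b g (w + 1) * Hg g (w + 1) ≤ (2 * √((w + 1 : ℕ) : ℝ)) * Hg g (w + 1) :=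
            mul_le_mul_of_nonneg_right h1 hH0
        _ ≤ (2 * √((w + 1 : ℕ) : ℝ)) * 5 := mul_le_mul_of_nonneg_left h5 (by positivity)
        _ = 10 * √((w + 1 : ℕ) : ℝ) := by ring
    · push Not at h5
      have hw := e2_Hg_succ g w
      have hw1 : (1 : ℝ) / ((w : ℝ) + 1) ≤ 1 := by
        rw [div_le_one (by positivity)]
        have : (0 : ℝ) ≤ w := by positivity
        linarith
      have h4 : 4 ≤ Hg g w := by linarith
      rw [e2b_succ]
      push_cast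
      have ht : 0 < √((w : ℝ) + 1) := Real.sqrt_pos.2 (by positivity)
      have ht2 : √((w : ℝ) + 1) ^ 2 = (w : ℝ) + 1 := Real.sq_sqrt (by positivity)
      have hr0 : 0 ≤ √(w : ℝ) := Real.sqrt_nonneg _
      have hr : √(w : ℝ) ≤ √((w : ℝ) + 1) := Real.sqrt_le_sqrt (by linarith)
      have hgap := e2_sqrt_gap w
      have hpos : 0 < Hg g (w + 1) := by linarith
      have e1 : (e2b g w + 1 / (√((w : ℝ) + 1) * Hg g (w + 1))) * Hg g (w + 1) =
          e2b g w * Hg g (w + 1) + 1 / √((w : ℝ) + 1) := by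
        field_simp
      rw [e1]
      have hb0 : 0 ≤ e2b g w := by
        unfold e2b
        refine Finset.sum_nonneg (fun i _ => ?_)
        have := Hg_nonneg g (i + 1)
        positivity
      have e2 : e2b g w * Hg g (w + 1) ≤ e2b g w * Hg g w + e2b g w * (1 / ((w : ℝ) + 1)) := by
        rw [← mul_add]
        exact mul_le_mul_of_nonneg_left hw hb0
      have e3 : e2b g w ≤ 10 * √(w : ℝ) / 4 := by
        rw [le_div_iff₀ (by norm_num)]
        calc e2b g w * 4 ≤ e2b g w * Hg g w := mul_le_mul_of_nonneg_left h4 hb0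
          _ ≤ 10 * √(w : ℝ) := ih
      have e4 : e2b g w * (1 / ((w : ℝ) + 1)) ≤ (5 / 2) * (1 / √((w : ℝ) + 1)) := by
        have e5 : (1 : ℝ) / ((w : ℝ) + 1) = (1 / √((w : ℝ) + 1)) * (1 / √((w : ℝ) + 1)) := by
          rw [div_mul_div_comm, one_mul, ← sq, ht2]
        rw [e5, ← mul_assoc]
        refine mul_le_mul_of_nonneg_right ?_ (by positivity)
        rw [mul_one_div, div_le_iff₀ ht]
        nlinarith
      have e6 : 0 ≤ 1 / √((w : ℝ) + 1) := by positivity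
      nlinarith

theorem e2_level (g : ℕ) (hg : 1 ≤ g) (z : ℕ → ℝ) (M : ℝ) (hM : 0 ≤ M)
    (h : ∀ (J : Finset ℕ) (ζ : ℝ), 0 < ζ → (∀ n ∈ J, ζ ≤ |z n|) →
      ζ * (√(J.card : ℝ) * Hg g J.card) ≤ M) (v : ℕ) :
    ∀ V : Finset ℕ, V.card = v → ∑ n ∈ V, |z n| ≤ M * e2b g v := by
  classical
  induction v with
  | zero =>
    intro V hV
    rw [Finset.card_eq_zero] at hV
    subst hV
    simp [e2b]
  | succ w ih =>
    intro V hV
    have hne : V.Nonempty := by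
      rw [← Finset.card_pos]
      omega
    obtain ⟨n₀, hn₀, hmin⟩ := V.exists_min_image (fun n => |z n|) hne
    rw [← Finset.add_sum_erase V _ hn₀, e2b_succ]
    have h1 := ih (V.erase n₀) (by rw [Finset.card_erase_of_mem hn₀, hV]; rfl)
    have hH := Hg_nonneg g (w + 1)
    have h2 : |z n₀| ≤ M * (1 / (√((w : ℝ) + 1) * Hg g (w + 1))) := by
      rcases (abs_nonneg (z n₀)).eq_or_lt with h0 | h0
      · rw [← h0]
        positivity
      · have h3 := h V |z n₀| h0 (fun n hn => hmin n hn)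
        rw [hV] at h3
        push_cast at h3
        rw [mul_one_div]
        have hz : 0 < Hg g (w + 1) := lt_of_lt_of_le one_pos (one_le_Hg hg (by omega))
        rw [le_div_iff₀ (mul_pos (Real.sqrt_pos.2 (by positivity)) hz)]
        exact h3
    linarith

theorem level_to_gauge (g : ℕ) (hg : 1 ≤ g) (z : ℕ → ℝ) (M : ℝ)
    (h : ∀ (J : Finset ℕ) (ζ : ℝ), 0 < ζ → (∀ n ∈ J, ζ ≤ |z n|) →
      ζ * (√(J.card : ℝ) * Hg g J.card) ≤ M) (V : Finset ℕ) :
    kap g V.card * ∑ n ∈ V, |z n| ≤ 10 * M := by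
  have hM : 0 ≤ M := by
    have := h ∅ 1 one_pos (by simp)
    simpa using this
  have h1 := e2_level g hg z M hM h V.card V rfl
  have h2 := e2_claim g hg V.card
  rcases Nat.eq_zero_or_pos V.card with h0 | h0
  · rw [Finset.card_eq_zero] at h0
    subst h0
    simp only [Finset.sum_empty, mul_zero]
    positivity
  · have hs : 0 < √(V.card : ℝ) := Real.sqrt_pos.2 (by exact_mod_cast h0)
    have hk := kap_nonneg g V.card
    calc kap g V.card * ∑ n ∈ V, |z n| ≤ kap g V.card * (M * e2b g V.card) :=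
          mul_le_mul_of_nonneg_left h1 hk
      _ = M * (e2b g V.card * Hg g V.card) / √(V.card : ℝ) := by
          unfold kap
          ring
      _ ≤ M * (10 * √(V.card : ℝ)) / √(V.card : ℝ) := by
          apply div_le_div_of_nonneg_right _ hs.le
          exact mul_le_mul_of_nonneg_left h2 hM
      _ = 10 * M := by
          field_simp

end Pool.Agent.WB
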