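import Pool.Agent.Lib.MP_c7fb7b_an.E1
import Pool.Agent.Lib.MP_c7fb7b_an.E2

/-!
# E3: lower bound for signed vectors (45 min)

`x n = sgn true x n - sgn false x n`, both parts `≥ 0`.
Claim: for `J` finite, `ζ > 0`, `ζ ≤ |x n - y n|` on `J`: `ζ (√|J| Hg g |J|) ≤ 8192 C' + 256`.
For `n ∈ J` one of four statements holds: `sgn b y n + ζ/2 ≤ sgn b x n` or
`sgn b x n + ζ/2 ≤ sgn b y n` for `b = true` or `b = false`
(`|x n - y n| ≤ |x⁺ - y⁺| + |x⁻ - y⁻|`).  One of the four subsets `J'` has `|J| ≤ 4 |J'|`.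
`detect` (with `(x, y)` or `(y, x)`; `Bd` of the difference is symmetric because the functionals
only see absolute values: `LN`, `EN` of `-y`) gives `(ζ/2) √|J'| Hg g |J'| ≤ 256 C' + 8`, and
`sq_quad` gives the claim (factor `2 * 16`).
`level_to_gauge` : `kap g |V| ∑_V |x - y| ≤ 81920 C' + 2560`.
Euclidean part: component `base`, functional `(s, 0)` of `LN`: `√(∑_s (sgn b x - sgn b y)²) ≤ C'`,
so `√(∑_s (x-y)²) ≤ 2 C'` (Minkowski or `(a-b)² ≤ 2a²+2b²`).  Then `ga_le`; `C' ≥ 0`.
-/

open Finset Filter Topology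

namespace Pool.Agent.WB

theorem e3_YN_sub (g : ℕ) (c : Cp) (j : JJ) (y z : ℕ × ℕ → ℝ) :
    YN g c j (y - z) = YN g c j (z - y) := by
  have hLN : LN j (y - z) = LN j (z - y) := by
    unfold LN
    congr 1
    refine Finset.sum_congr rfl fun n _ => ?_
    simp only [Pi.sub_apply]
    ring
  cases c with
  | base => exact hLN
  | rcd t => exact hLN
  | edge t i =>
    show EN g _ j (y - z) = EN g _ j (z - y)
    have ha : ∀ e, |(y - z) e| = |(z - y) e| := fun e => abs_sub_comm _ _
    unfold EN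
    split_ifs with h
    · unfold NV
      simp only [ha]
    · unfold N1
      simp only [ha]

theorem e3_sgn_nonneg (b : Bool) (x : ℕ → ℝ) (n : ℕ) : 0 ≤ sgn b x n := by
  unfold sgn
  split_ifs <;> exact le_max_right _ _

theorem e3_sgn_sub (x : ℕ → ℝ) (n : ℕ) : x n = sgn true x n - sgn false x n := by
  unfold sgn
  simp only [if_true, Bool.false_eq_true, if_false]
  rcases le_total 0 (x n) with h | h
  · rw [max_eq_left h, max_eq_right (by linarith)]; ring
  · rw [max_eq_right h, max_eq_left (by linarith)]; ring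

theorem e3_level (g : ℕ) (hg : 1 ≤ g) (x y : ℕ → ℝ) (C' : ℝ)
    (hF : ∀ (b : Bool) (c : Cp), Bd (YN g c) (Fm g c (sgn b x) - Fm g c (sgn b y)) C')
    (J : Finset ℕ) (ζ : ℝ) (hζ : 0 < ζ) (hJ : ∀ n ∈ J, ζ ≤ |(x - y) n|) :
    ζ * (√(J.card : ℝ) * Hg g J.card) ≤ 8192 * C' + 256 := by
  classical
  have hF' : ∀ (b : Bool) (c : Cp), Bd (YN g c) (Fm g c (sgn b y) - Fm g c (sgn b x)) C' := by
    intro b c j
    rw [e3_YN_sub]
    exact hF b c j
  have hfin : ∀ J' : Finset ℕ, J.card ≤ 4 * J'.card →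
      (ζ / 2) * (√(J'.card : ℝ) * Hg g J'.card) ≤ 256 * C' + 8 →
      ζ * (√(J.card : ℝ) * Hg g J.card) ≤ 8192 * C' + 256 := by
    intro J' hc h
    have h1 := sq_quad g hc
    have h2 := mul_le_mul_of_nonneg_left h1 hζ.le
    linarith
  set J1 := J.filter (fun n => sgn true y n + ζ / 2 ≤ sgn true x n) with hJ1
  set J2 := J.filter (fun n => sgn true x n + ζ / 2 ≤ sgn true y n) with hJ2
  set J3 := J.filter (fun n => sgn false y n + ζ / 2 ≤ sgn false x n) with hJ3
  set J4 := J.filter (fun n => sgn false x n + ζ / 2 ≤ sgn false y n) with hJ4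
  have hcov : J ⊆ J1 ∪ J2 ∪ J3 ∪ J4 := by
    intro n hn
    have h := hJ n hn
    by_contra hc
    simp only [hJ1, hJ2, hJ3, hJ4, Finset.mem_union, Finset.mem_filter, not_or, not_and,
      not_le] at hc
    obtain ⟨⟨⟨c1, c2⟩, c3⟩, c4⟩ := hc
    have c1 := c1 hn
    have c2 := c2 hn
    have c3 := c3 hn
    have c4 := c4 hn
    have e : (x - y) n = (sgn true x n - sgn true y n) - (sgn false x n - sgn false y n) := by
      rw [Pi.sub_apply, e3_sgn_sub x n, e3_sgn_sub y n]
      ring
    have a1 : |sgn true x n - sgn true y n| < ζ / 2 := by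
      rw [abs_lt]; constructor <;> linarith
    have a2 : |sgn false x n - sgn false y n| < ζ / 2 := by
      rw [abs_lt]; constructor <;> linarith
    have a3 : |(x - y) n| < ζ := by
      rw [e]
      have := abs_sub (sgn true x n - sgn true y n) (sgn false x n - sgn false y n)
      linarith
    linarith
  have hcard : J.card ≤ J1.card + J2.card + J3.card + J4.card := by
    refine (Finset.card_le_card hcov).trans ?_
    have u1 := Finset.card_union_le (J1 ∪ J2 ∪ J3) J4
    have u2 := Finset.card_union_le (J1 ∪ J2) J3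
    have u3 := Finset.card_union_le J1 J2
    omega
  have hor : J.card ≤ 4 * J1.card ∨ J.card ≤ 4 * J2.card ∨ J.card ≤ 4 * J3.card ∨
      J.card ≤ 4 * J4.card := by omega
  rcases hor with h | h | h | h
  · exact hfin J1 h (detect g hg (sgn true x) (sgn true y) (e3_sgn_nonneg _ _)
      (e3_sgn_nonneg _ _) J1 (ζ / 2) (by linarith) (fun n hn => (Finset.mem_filter.1 hn).2) C'
      (hF true))
  · exact hfin J2 h (detect g hg (sgn true y) (sgn true x) (e3_sgn_nonneg _ _)
      (e3_sgn_nonneg _ _) J2 (ζ / 2) (by linarith) (fun n hn => (Finset.mem_filter.1 hn).2) C'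
      (hF' true))
  · exact hfin J3 h (detect g hg (sgn false x) (sgn false y) (e3_sgn_nonneg _ _)
      (e3_sgn_nonneg _ _) J3 (ζ / 2) (by linarith) (fun n hn => (Finset.mem_filter.1 hn).2) C'
      (hF false))
  · exact hfin J4 h (detect g hg (sgn false y) (sgn false x) (e3_sgn_nonneg _ _)
      (e3_sgn_nonneg _ _) J4 (ζ / 2) (by linarith) (fun n hn => (Finset.mem_filter.1 hn).2) C'
      (hF' false))

theorem lower (g : ℕ) (hg : 1 ≤ g) (x y : ℕ → ℝ) (C' : ℝ)
    (hF : ∀ (b : Bool) (c : Cp), Bd (YN g c) (Fm g c (sgn b x) - Fm g c (sgn b y)) C') :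
    Bd (ga (kap g)) (x - y) (81920 * C' + 2560) := by
  intro s
  have hbase : ∀ b, ga k0 s (fun n => sgn b x n - sgn b y n) ≤ C' := by
    intro b
    have h := hF b Cp.base (false, s, 0, fun _ => 0)
    rw [ga_k0]
    exact h
  have hC : 0 ≤ C' := (ga_nonneg _ _ _).trans (hbase true)
  refine ga_le ?_ ?_
  · have h1 : ga k0 s (x - y) ≤ ga k0 s (fun n => sgn true x n - sgn true y n) +
        ga k0 s (fun n => sgn false x n - sgn false y n) := by
      refine ga_add (fun _ => le_refl _) fun m _ => ?_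
      have e : (x - y) m = (sgn true x m - sgn true y m) - (sgn false x m - sgn false y m) := by
        rw [Pi.sub_apply, e3_sgn_sub x m, e3_sgn_sub y m]
        ring
      rw [e]
      exact abs_sub _ _
    rw [ga_k0] at h1
    have h2 := hbase true
    have h3 := hbase false
    linarith
  · intro V _
    have h := level_to_gauge g hg (x - y) (8192 * C' + 256) (e3_level g hg x y C' hF) V
    linarith

end Pool.Agent.WB
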