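import Pool.Agent.Lib.MP_c7fb7b_an.A1
import Pool.Agent.Lib.MP_c7fb7b_an.A2

/-!
# Q2: the families are lattice families
-/

open Finset Filter Topology

namespace Pool.Agent.WB

theorem q2_ga_zero (k : ℕ → ℝ) (hk : ∀ v, 0 ≤ k v) (hk2 : ∀ v, k v ≤ 2) (s : Finset ℕ) (x : ℕ → ℝ)
    (h : ∀ m ∈ s, x m = 0) : ga k s x = 0 := by
  refine le_antisymm ?_ (ga_nonneg k s x)
  refine (ga_le_sum hk hk2 s x).trans (le_of_eq ?_)
  rw [Finset.sum_eq_zero (fun m hm => by rw [h m hm, abs_zero]), mul_zero]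

theorem q2_single_sum {α : Type} (s : Finset α) (w : α → ℝ) (c : ℝ) (hc : 0 ≤ c)
    (hw : ∀ i ∈ s, w i ≤ c) (h : ∀ i ∈ s, ∀ j ∈ s, w i ≠ 0 → w j ≠ 0 → i = j) :
    ∑ i ∈ s, w i ≤ c := by
  classical
  by_cases hz : ∀ i ∈ s, w i = 0
  · rw [Finset.sum_eq_zero hz]
    exact hc
  · push Not at hz
    obtain ⟨i, hi, hwi⟩ := hz
    rw [Finset.sum_eq_single_of_mem i hi (fun j hj hji => ?_)]
    · exact hw i hi
    · by_contra hwj
      exact hji (h j hj i hi hwj hwi)

theorem lat_ga (g : ℕ) : LatFam (ga (kap g)) where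
  add_le j y z := ga_add (kap_nonneg g) (fun m _ => abs_add_le (y m) (z m))
  smul_eq j a y := ga_smul_eq (kap_nonneg g) a y
  mono j y z h := ga_mono (kap_nonneg g) (fun m _ => h m)
  fin j := ⟨j, fun y hy => q2_ga_zero _ (kap_nonneg g) (kap_le_two g) j y hy⟩
  single_le j y γ hy := by
    refine (ga_le_sum (kap_nonneg g) (kap_le_two g) j y).trans ?_
    refine mul_le_mul_of_nonneg_left ?_ (by norm_num)
    refine q2_single_sum j (fun m => |y m|) |y γ| (abs_nonneg _) (fun m _ => ?_) ?_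
    · by_cases hm : m = γ
      · rw [hm]
      · rw [hy m hm, abs_zero]
        exact abs_nonneg _
    · intro i _ i' _ hi hi'
      have h1 : i = γ := by
        by_contra h
        exact hi (by rw [hy i h, abs_zero])
      have h2 : i' = γ := by
        by_contra h
        exact hi' (by rw [hy i' h, abs_zero])
      rw [h1, h2]

theorem q2_LN (j : JJ) (y : ℕ × ℕ → ℝ) :
    LN j y = ga k0 j.2.1 (fun n => y (n, j.2.2.2 n)) := by
  rw [ga_k0]
  rfl

theorem lat_LN : LatFam LN := by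
  have hk : ∀ v, 0 ≤ k0 v := fun v => le_rfl
  have hk2 : ∀ v, k0 v ≤ 2 := fun v => by
    show (0 : ℝ) ≤ 2
    norm_num
  refine ⟨?_, ?_, ?_, ?_, ?_⟩
  · intro j y z
    rw [q2_LN, q2_LN, q2_LN]
    exact ga_add hk (fun m _ => abs_add_le _ _)
  · intro j a y
    rw [q2_LN, q2_LN]
    exact ga_smul_eq hk a (fun n => y (n, j.2.2.2 n))
  · intro j y z h
    rw [q2_LN, q2_LN]
    exact ga_mono hk (fun m _ => h _)
  · intro j
    refine ⟨j.2.1.image (fun n => (n, j.2.2.2 n)), fun y hy => ?_⟩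
    rw [q2_LN]
    exact q2_ga_zero _ hk hk2 _ _ (fun m hm => hy _ (mem_image_of_mem _ hm))
  · intro j y γ hy
    rw [q2_LN]
    refine (ga_le_sum hk hk2 _ _).trans ?_
    refine mul_le_mul_of_nonneg_left ?_ (by norm_num)
    refine q2_single_sum j.2.1 (fun n => |y (n, j.2.2.2 n)|) |y γ| (abs_nonneg _)
      (fun m _ => ?_) ?_
    · by_cases hm : (m, j.2.2.2 m) = γ
      · rw [hm]
      · rw [hy _ hm, abs_zero]
        exact abs_nonneg _
    · intro i _ i' _ hi hi'
      have h1 : (i, j.2.2.2 i) = γ := by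
        by_contra h
        exact hi (by rw [hy _ h, abs_zero])
      have h2 : (i', j.2.2.2 i') = γ := by
        by_contra h
        exact hi' (by rw [hy _ h, abs_zero])
      exact congrArg Prod.fst (h1.trans h2.symm)

/-- weighted sums of absolute values at different places, with weights in `[0, 1]` -/
def q2W {Γ : Type} (f : (Γ → ℝ) → ℝ) : Prop :=
  ∃ (α : Type) (s : Finset α) (w : α → ℝ) (e : α → Γ), (∀ i ∈ s, 0 ≤ w i ∧ w i ≤ 1) ∧
    (∀ i ∈ s, ∀ j ∈ s, e i = e j → i = j) ∧ ∀ y, f y = ∑ i ∈ s, w i * |y (e i)|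

theorem q2_lat {J Γ : Type} (N : J → (Γ → ℝ) → ℝ) (h : ∀ j, q2W (N j)) : LatFam N := by
  classical
  refine ⟨?_, ?_, ?_, ?_, ?_⟩
  · intro j y z
    obtain ⟨α, s, w, e, hw, he, hf⟩ := h j
    rw [hf, hf, hf, ← Finset.sum_add_distrib]
    refine Finset.sum_le_sum (fun i hi => ?_)
    rw [← mul_add]
    exact mul_le_mul_of_nonneg_left (abs_add_le _ _) (hw i hi).1
  · intro j a y
    obtain ⟨α, s, w, e, hw, he, hf⟩ := h j
    rw [hf, hf, Finset.mul_sum]
    refine Finset.sum_congr rfl (fun i hi => ?_)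
    rw [Pi.smul_apply, smul_eq_mul, abs_mul]
    ring
  · intro j y z hyz
    obtain ⟨α, s, w, e, hw, he, hf⟩ := h j
    rw [hf, hf]
    exact Finset.sum_le_sum (fun i hi => mul_le_mul_of_nonneg_left (hyz _) (hw i hi).1)
  · intro j
    obtain ⟨α, s, w, e, hw, he, hf⟩ := h j
    refine ⟨s.image e, fun y hy => ?_⟩
    rw [hf]
    refine Finset.sum_eq_zero (fun i hi => ?_)
    rw [hy _ (mem_image_of_mem _ hi), abs_zero, mul_zero]
  · intro j y γ hy
    obtain ⟨α, s, w, e, hw, he, hf⟩ := h j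
    rw [hf]
    have h1 : ∑ i ∈ s, w i * |y (e i)| ≤ |y γ| := by
      refine q2_single_sum s (fun i => w i * |y (e i)|) |y γ| (abs_nonneg _) (fun i hi => ?_) ?_
      · by_cases hm : e i = γ
        · rw [hm]
          exact mul_le_of_le_one_left (abs_nonneg _) (hw i hi).2
        · rw [hy _ hm, abs_zero, mul_zero]
          exact abs_nonneg _
      · intro i hi i' hi' hwi hwi'
        have h1 : e i = γ := by
          by_contra h
          exact hwi (by rw [hy _ h, abs_zero, mul_zero])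
        have h2 : e i' = γ := by
          by_contra h
          exact hwi' (by rw [hy _ h, abs_zero, mul_zero])
        exact he i hi i' hi' (h1.trans h2.symm)
    have h2 : 0 ≤ |y γ| := abs_nonneg _
    linarith

theorem q2_inv_sqrt (n : ℕ) : 0 ≤ (√(n : ℝ))⁻¹ ∧ (√(n : ℝ))⁻¹ ≤ 1 := by
  refine ⟨by positivity, ?_⟩
  rcases Nat.eq_zero_or_pos n with h | h
  · subst h
    simp
  · apply inv_le_one_of_one_le₀
    rw [Real.one_le_sqrt]
    exact_mod_cast h

theorem q2_NV (g : ℕ) (V : Finset ℕ) : q2W (NV g V) := by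
  refine ⟨ℕ × ℕ, V ×ˢ V, fun e => (√(V.card : ℝ))⁻¹ *
    (if e.1 < e.2 ∧ dV V e.1 e.2 ≤ g then 1 / (dV V e.1 e.2 : ℝ) else 0), fun e => e, ?_, ?_, ?_⟩
  · intro e _
    have h1 := q2_inv_sqrt V.card
    have h2 : (0 : ℝ) ≤ (if e.1 < e.2 ∧ dV V e.1 e.2 ≤ g then 1 / (dV V e.1 e.2 : ℝ) else 0) ∧
        (if e.1 < e.2 ∧ dV V e.1 e.2 ≤ g then 1 / (dV V e.1 e.2 : ℝ) else 0) ≤ 1 := by
      split_ifs with h
      · refine ⟨by positivity, ?_⟩
        rcases Nat.eq_zero_or_pos (dV V e.1 e.2) with h0 | h0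
        · rw [h0]
          simp
        · rw [one_div]
          apply inv_le_one_of_one_le₀
          exact_mod_cast h0
      · exact ⟨le_rfl, zero_le_one⟩
    exact ⟨mul_nonneg h1.1 h2.1, mul_le_one₀ h1.2 h2.1 h2.2⟩
  · intro i _ j _ h
    exact h
  · intro y
    rw [Finset.sum_product]
    unfold NV
    rw [Finset.mul_sum]
    refine Finset.sum_congr rfl (fun b _ => ?_)
    rw [Finset.mul_sum]
    refine Finset.sum_congr rfl (fun n _ => ?_)
    simp only []
    split_ifs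
    · ring
    · ring

theorem q2_N1 {G : ℝ} (hG : 1 ≤ G) (m : ℕ) (nn : ℕ → ℕ) : q2W (N1 G m nn) := by
  refine ⟨ℕ, range m, fun _ => G⁻¹, fun b => (b, max m (nn b)), ?_, ?_, ?_⟩
  · intro b _
    exact ⟨by positivity, inv_le_one_of_one_le₀ hG⟩
  · intro i _ j _ h
    exact congrArg Prod.fst h
  · intro y
    unfold N1
    rw [Finset.mul_sum]

theorem lat_EN (g : ℕ) {G : ℝ} (hG : 1 ≤ G) : LatFam (EN g G) := by
  apply q2_lat
  rintro ⟨b, V, m, nn⟩
  cases b
  · exact q2_N1 hG m nn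
  · exact q2_NV g V

theorem lat_sum {ι J Γ : Type} (N : ι → J → (Γ → ℝ) → ℝ) (h : ∀ c, LatFam (N c)) :
    LatFam (sumN N) := by
  classical
  refine ⟨?_, ?_, ?_, ?_, ?_⟩
  · rintro ⟨c, j⟩ y z
    exact (h c).add_le j _ _
  · rintro ⟨c, j⟩ a y
    exact (h c).smul_eq j a _
  · rintro ⟨c, j⟩ y z hyz
    exact (h c).mono j _ _ (fun γ => hyz _)
  · rintro ⟨c, j⟩
    obtain ⟨F, hF⟩ := (h c).fin j
    refine ⟨F.image (fun γ => (c, γ)), fun y hy => ?_⟩
    exact hF _ (fun γ hγ => hy _ (mem_image_of_mem _ hγ))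
  · rintro ⟨c, j⟩ y ⟨c', γ⟩ hy
    by_cases hc : c' = c
    · subst hc
      exact (h c').single_le j _ γ (fun δ hδ => hy _ (fun he => hδ (congrArg Prod.snd he)))
    · have h0 : (fun δ => y (c, δ)) = (0 : ℝ) • (fun δ : Γ => y (c, δ)) := by
        ext δ
        rw [Pi.smul_apply, smul_eq_mul, zero_mul]
        exact hy _ (fun he => hc (congrArg Prod.fst he).symm)
      show N c j (fun δ => y (c, δ)) ≤ _
      rw [h0, (h c).smul_eq, abs_zero, zero_mul]
      positivity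

theorem lat_YN (g : ℕ) (c : Cp) : LatFam (YN g c) := by
  cases c with
  | base => exact lat_LN
  | edge t i =>
    refine lat_EN g ?_
    have : (1 : ℝ) ≤ 4 ^ (i + 1) := one_le_pow₀ (by norm_num)
    linarith
  | rcd t => exact lat_LN

theorem lat_YF : LatFam YF := lat_sum _ (fun c => lat_YN _ _)

theorem lat_XF : LatFam XF := lat_sum _ (fun g => lat_ga _)

end Pool.Agent.WB
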