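import Pool.Agent.Lib.MP_c7fb7b_an.Defs

/-!
# S1: the Banach space of a lattice family (75 min)

`Sp N h` = functions with `Mem N`, norm `‖u‖ = sInf {C ≥ 0 | Bd N u C}`.
`Bd N y C` facts: closed under sums, scalars, `Bd N 0 0`, monotone in `C`; every member is bounded
(`Appr` with `ε = 1` and finitely supported `z`: `N j z ≤ 2 ∑ |z γ|`, write `z` as the sum of its
one-coordinate parts, `single_le`).  The infimum is attained (`Bd N y C` is a closed condition on
`C`): `norm_le_iff`.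
`norm_eq_zero`: `Bd N u 0`; if `u γ ≠ 0` then by `mono`, `smul_eq` every `y` supported at `γ` has
`N j y ≤ (|y γ|/|u γ|) N j u ≤ 0`, so `γ` is unseen and `u γ = 0` by `Mem`, contradiction.
`exists_coord`: if `γ` is unseen take `0`; otherwise there are `j`, `y` supported at `γ` with
`N j y > 0`; with `e = single γ 1`: `N j e > 0` and `|u γ| * N j e = N j (u γ • e) ≤ N j u ≤ ‖u‖`;
`LinearMap.mkContinuous`.
Completeness: a Cauchy sequence `u_n` converges at every seen coordinate (`exists_coord` bounds) and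
is `0` at unseen ones; let `y` be the pointwise limit.  `Bd N (y - u_n) ε`: for fixed `j` the
functional depends on finitely many coordinates, `|N j a - N j b| ≤ N j (a - b) ≤ 2 ∑_{γ∈F} |a γ -
b γ|` (replace `a - b` by its restriction to `F`, `fin`), so `N j (y - u_n) = lim_m N j (u_m - u_n)
≤ ε`.  `Appr` of `y`: `(y - u_n) + (u_n - z)`.
-/

open Finset Filter Topology

namespace Pool.Agent.WB

section general

variable {J Γ : Type} {N : J → (Γ → ℝ) → ℝ}

theorem s1_zero (h : LatFam N) (j : J) : N j 0 = 0 := by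
  have := h.smul_eq j 0 (0 : Γ → ℝ)
  simpa using this

theorem LatFam.nonneg (h : LatFam N) (j : J) (y : Γ → ℝ) : 0 ≤ N j y := by
  have := h.mono j 0 y (fun γ => by simp)
  rwa [s1_zero h j] at this

theorem LatFam.zero (h : LatFam N) (j : J) : N j 0 = 0 := s1_zero h j

theorem LatFam.neg (h : LatFam N) (j : J) (y : Γ → ℝ) : N j (-y) = N j y := by
  have := h.smul_eq j (-1) y
  simpa using this

theorem LatFam.sum_le (h : LatFam N) (j : J) {α : Type} (s : Finset α) (y : α → Γ → ℝ) :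
    N j (∑ a ∈ s, y a) ≤ ∑ a ∈ s, N j (y a) := by
  classical
  induction s using Finset.induction_on with
  | empty => simp [h.zero j]
  | insert a s ha ih =>
    rw [Finset.sum_insert ha, Finset.sum_insert ha]
    exact (h.add_le j _ _).trans (add_le_add le_rfl ih)

/-- Finitely supported functions. -/
theorem LatFam.le_sum (h : LatFam N) (j : J) (F : Finset Γ) (y : Γ → ℝ)
    (hy : ∀ γ, γ ∉ F → y γ = 0) : N j y ≤ 2 * ∑ γ ∈ F, |y γ| := by
  classical
  have h1 : y = ∑ γ ∈ F, (fun δ => if δ = γ then y γ else 0) := by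
    funext δ
    rw [Finset.sum_apply]
    by_cases hδ : δ ∈ F
    · rw [Finset.sum_eq_single δ]
      · simp
      · intro b _ hb
        simp [Ne.symm hb]
      · intro h2
        exact absurd hδ h2
    · rw [hy δ hδ, Finset.sum_eq_zero]
      intro b hb
      have : δ ≠ b := fun h3 => hδ (h3 ▸ hb)
      simp [this]
  have h2 : N j y ≤ ∑ γ ∈ F, N j (fun δ => if δ = γ then y γ else 0) := by
    conv_lhs => rw [h1]
    exact h.sum_le j F _
  refine h2.trans ?_
  rw [Finset.mul_sum]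
  refine Finset.sum_le_sum (fun γ _ => ?_)
  refine (h.single_le j _ γ (fun δ hδ => by simp [hδ])).trans (le_of_eq ?_)
  simp

/-- Each functional is controlled by finitely many coordinates. -/
theorem LatFam.exists_fin (h : LatFam N) (j : J) : ∃ F : Finset Γ, ∀ y : Γ → ℝ,
    N j y ≤ 2 * ∑ γ ∈ F, |y γ| := by
  classical
  obtain ⟨F, hF⟩ := h.fin j
  refine ⟨F, fun y => ?_⟩
  have h1 : y = (fun γ => if γ ∈ F then y γ else 0) + (fun γ => if γ ∈ F then 0 else y γ) := by
    funext γ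
    by_cases hγ : γ ∈ F <;> simp [hγ]
  have h2 : N j y ≤ N j (fun γ => if γ ∈ F then y γ else 0) +
      N j (fun γ => if γ ∈ F then 0 else y γ) := by
    conv_lhs => rw [h1]
    exact h.add_le j _ _
  have h3 : N j (fun γ => if γ ∈ F then 0 else y γ) = 0 := hF _ (fun γ hγ => by simp [hγ])
  have h4 := h.le_sum j F (fun γ => if γ ∈ F then y γ else 0) (fun γ hγ => by simp [hγ])
  have h5 : ∑ γ ∈ F, |if γ ∈ F then y γ else 0| = ∑ γ ∈ F, |y γ| :=
    Finset.sum_congr rfl (fun γ hγ => by simp [hγ])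
  rw [h5] at h4
  linarith

theorem Bd.mono {y : Γ → ℝ} {C C' : ℝ} (hy : Bd N y C) (h : C ≤ C') : Bd N y C' :=
  fun j => (hy j).trans h

theorem Bd.add (h : LatFam N) {y z : Γ → ℝ} {C C' : ℝ} (hy : Bd N y C) (hz : Bd N z C') :
    Bd N (y + z) (C + C') :=
  fun j => (h.add_le j y z).trans (add_le_add (hy j) (hz j))

theorem Bd.symm (h : LatFam N) {y z : Γ → ℝ} {C : ℝ} (hy : Bd N (y - z) C) : Bd N (z - y) C := by
  intro j
  have := hy j
  rw [← h.neg j (y - z), neg_sub] at this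
  exact this

theorem Bd.smul (h : LatFam N) {y : Γ → ℝ} {C : ℝ} (hy : Bd N y C) (a : ℝ) :
    Bd N (a • y) (|a| * C) := by
  intro j
  rw [h.smul_eq]
  exact mul_le_mul_of_nonneg_left (hy j) (abs_nonneg _)

theorem Mem.zero' (h : LatFam N) : Mem N (0 : Γ → ℝ) := by
  refine ⟨fun γ _ => rfl, fun ε hε => ⟨0, by simp, fun j => ?_⟩⟩
  rw [sub_zero, h.zero j]
  exact hε.le

theorem Mem.add' (h : LatFam N) {y z : Γ → ℝ} (hy : Mem N y) (hz : Mem N z) : Mem N (y + z) := by
  refine ⟨fun γ hγ => ?_, fun ε hε => ?_⟩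
  · rw [Pi.add_apply, hy.1 γ hγ, hz.1 γ hγ, add_zero]
  · obtain ⟨y', hy', hyy⟩ := hy.2 (ε / 2) (by positivity)
    obtain ⟨z', hz', hzz⟩ := hz.2 (ε / 2) (by positivity)
    refine ⟨y' + z', (hy'.union hz').subset (Function.support_add y' z'), ?_⟩
    have h1 := Bd.add h hyy hzz
    have h2 : y - y' + (z - z') = y + z - (y' + z') := by abel
    rw [h2] at h1
    exact h1.mono (by linarith)

theorem Mem.smul' (h : LatFam N) (a : ℝ) {y : Γ → ℝ} (hy : Mem N y) : Mem N (a • y) := by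
  refine ⟨fun γ hγ => ?_, fun ε hε => ?_⟩
  · rw [Pi.smul_apply, hy.1 γ hγ, smul_zero]
  · obtain ⟨y', hy', hyy⟩ := hy.2 (ε / (|a| + 1)) (by positivity)
    refine ⟨a • y', hy'.subset (Function.support_const_smul_subset a y'), ?_⟩
    have h1 := Bd.smul h hyy a
    rw [smul_sub] at h1
    refine h1.mono ?_
    have h2 : 0 ≤ |a| := abs_nonneg a
    rw [mul_div_assoc', div_le_iff₀ (by positivity)]
    nlinarith

theorem s1_bdd (h : LatFam N) {y : Γ → ℝ} (hy : Mem N y) : ∃ C : ℝ, 0 ≤ C ∧ Bd N y C := by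
  obtain ⟨z, hz, hyz⟩ := hy.2 1 one_pos
  refine ⟨1 + 2 * ∑ γ ∈ hz.toFinset, |z γ|, by positivity, fun j => ?_⟩
  have h1 := h.add_le j (y - z) z
  rw [sub_add_cancel] at h1
  have h2 := hyz j
  have h3 := h.le_sum j hz.toFinset z (fun γ hγ => by
    simpa using hγ)
  linarith

/-- The underlying submodule. -/
def KSub (N : J → (Γ → ℝ) → ℝ) (h : LatFam N) : Submodule ℝ (Γ → ℝ) where
  carrier := {y | Mem N y}
  add_mem' hy hz := Mem.add' h hy hz
  zero_mem' := Mem.zero' h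
  smul_mem' a _ hy := Mem.smul' h a hy

/-- The space of the family. -/
def Sp (N : J → (Γ → ℝ) → ℝ) (h : LatFam N) : Type := ↥(KSub N h)

variable {h : LatFam N}

noncomputable instance : AddCommGroup (Sp N h) := inferInstanceAs (AddCommGroup ↥(KSub N h))

noncomputable instance : Module ℝ (Sp N h) := inferInstanceAs (Module ℝ ↥(KSub N h))

/-- The underlying function. -/
def Sp.fn (u : Sp N h) : Γ → ℝ := Subtype.val (p := fun y => y ∈ KSub N h) u

/-- The element with a given underlying function. -/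
def Sp.mk' (y : Γ → ℝ) (hy : Mem N y) : Sp N h := (⟨y, hy⟩ : ↥(KSub N h))

@[simp] theorem Sp.fn_mk' (y : Γ → ℝ) (hy : Mem N y) : (Sp.mk' (h := h) y hy).fn = y := rfl

theorem Sp.mem (u : Sp N h) : Mem N u.fn := Subtype.property (p := fun y => y ∈ KSub N h) u

theorem Sp.ext' {u v : Sp N h} (huv : u.fn = v.fn) : u = v := Subtype.ext huv

@[simp] theorem Sp.fn_add (u v : Sp N h) : (u + v).fn = u.fn + v.fn := rfl

@[simp] theorem Sp.fn_sub (u v : Sp N h) : (u - v).fn = u.fn - v.fn := rfl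

@[simp] theorem Sp.fn_neg (u : Sp N h) : (-u).fn = -u.fn := rfl

@[simp] theorem Sp.fn_zero : (0 : Sp N h).fn = 0 := rfl

@[simp] theorem Sp.fn_smul (a : ℝ) (u : Sp N h) : (a • u).fn = a • u.fn := rfl

/-- The underlying function as a linear map. -/
def Sp.fnL (N : J → (Γ → ℝ) → ℝ) (h : LatFam N) : Sp N h →ₗ[ℝ] (Γ → ℝ) where
  toFun u := u.fn
  map_add' _ _ := rfl
  map_smul' _ _ := rfl

@[simp] theorem Sp.fn_sum {α : Type} (s : Finset α) (u : α → Sp N h) :
    (∑ a ∈ s, u a).fn = ∑ a ∈ s, (u a).fn :=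
  map_sum (Sp.fnL N h) u s

noncomputable instance : Norm (Sp N h) := ⟨fun u => sInf {C : ℝ | 0 ≤ C ∧ Bd N u.fn C}⟩

theorem Sp.norm_def (u : Sp N h) : ‖u‖ = sInf {C : ℝ | 0 ≤ C ∧ Bd N u.fn C} := rfl

theorem s1_set_nonempty (u : Sp N h) : {C : ℝ | 0 ≤ C ∧ Bd N u.fn C}.Nonempty :=
  s1_bdd h u.mem

theorem s1_bddBelow (u : Sp N h) : BddBelow {C : ℝ | 0 ≤ C ∧ Bd N u.fn C} :=
  ⟨0, fun _ hC => hC.1⟩

theorem s1_attained (u : Sp N h) : Bd N u.fn ‖u‖ := by
  intro j
  rw [Sp.norm_def]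
  exact le_csInf (s1_set_nonempty u) (fun C hC => hC.2 j)

theorem s1_norm_nonneg (u : Sp N h) : 0 ≤ ‖u‖ := by
  rw [Sp.norm_def]
  exact le_csInf (s1_set_nonempty u) (fun C hC => hC.1)

theorem s1_le_iff (u : Sp N h) {C : ℝ} (hC : 0 ≤ C) : ‖u‖ ≤ C ↔ Bd N u.fn C := by
  constructor
  · intro h1
    exact (s1_attained u).mono h1
  · intro h1
    rw [Sp.norm_def]
    exact csInf_le (s1_bddBelow u) ⟨hC, h1⟩

theorem s1_coord_bound (h : LatFam N) (γ : Γ) (hγ : ¬ Unseen N γ) : ∃ c : ℝ, 0 < c ∧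
    ∀ y : Γ → ℝ, ∀ C, Bd N y C → |y γ| ≤ c * C := by
  classical
  unfold Unseen at hγ
  push Not at hγ
  obtain ⟨j, e, he, hj⟩ := hγ
  have hpos : 0 < N j e := lt_of_le_of_ne (h.nonneg j e) (Ne.symm hj)
  refine ⟨(|e γ| + 1) / N j e, by positivity, fun y C hy => ?_⟩
  have h1 : N j (y γ • e) ≤ |e γ| * N j y := by
    rw [← abs_abs (e γ), ← h.smul_eq]
    refine h.mono j _ _ (fun δ => ?_)
    by_cases hδ : δ = γ
    · subst hδ
      simp only [Pi.smul_apply, smul_eq_mul, abs_mul, abs_abs]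
      rw [mul_comm]
    · simp only [Pi.smul_apply, smul_eq_mul, he δ hδ, mul_zero, abs_zero, abs_mul, abs_abs]
      positivity
  rw [h.smul_eq] at h1
  have h2 : |e γ| * N j y ≤ (|e γ| + 1) * C := by
    have h3 : N j y ≤ C := hy j
    have h4 : 0 ≤ N j y := h.nonneg j y
    have h5 : 0 ≤ |e γ| := abs_nonneg _
    nlinarith
  rw [div_mul_eq_mul_div, le_div_iff₀ hpos]
  linarith

/-- Core of the norm. -/
theorem Sp.core (N : J → (Γ → ℝ) → ℝ) (h : LatFam N) : NormedSpace.Core ℝ (Sp N h) where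
  norm_nonneg u := s1_norm_nonneg u
  norm_smul a u := by
    have h1 : ∀ (a : ℝ) (u : Sp N h), ‖a • u‖ ≤ |a| * ‖u‖ := by
      intro a u
      rw [s1_le_iff _ (mul_nonneg (abs_nonneg a) (s1_norm_nonneg u)), Sp.fn_smul]
      exact Bd.smul h (s1_attained u) a
    rw [Real.norm_eq_abs]
    apply le_antisymm (h1 a u)
    by_cases ha : a = 0
    · subst ha
      rw [abs_zero, zero_mul]
      exact s1_norm_nonneg _
    · have h2 := h1 a⁻¹ (a • u)
      rw [smul_smul, inv_mul_cancel₀ ha, one_smul, abs_inv] at h2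
      have h3 : 0 < |a| := abs_pos.2 ha
      rw [inv_mul_eq_div, le_div_iff₀ h3] at h2
      linarith
  norm_triangle u v := by
    rw [s1_le_iff _ (add_nonneg (s1_norm_nonneg u) (s1_norm_nonneg v)), Sp.fn_add]
    exact Bd.add h (s1_attained u) (s1_attained v)
  norm_eq_zero_iff u := by
    constructor
    · intro h0
      have h1 : Bd N u.fn 0 := by
        have := s1_attained u
        rwa [h0] at this
      apply Sp.ext'
      funext γ
      by_cases hγ : Unseen N γ
      · rw [u.mem.1 γ hγ]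
        rfl
      · obtain ⟨c, _, hc⟩ := s1_coord_bound h γ hγ
        have h2 := hc u.fn 0 h1
        rw [mul_zero] at h2
        have h3 := abs_nonneg (u.fn γ)
        exact abs_eq_zero.1 (le_antisymm h2 h3)
    · rintro rfl
      apply le_antisymm _ (s1_norm_nonneg _)
      rw [s1_le_iff _ le_rfl]
      intro j
      rw [Sp.fn_zero, h.zero j]

noncomputable instance : NormedAddCommGroup (Sp N h) := NormedAddCommGroup.ofCore (Sp.core N h)

noncomputable instance : NormedSpace ℝ (Sp N h) := NormedSpace.ofCore (Sp.core N h)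

theorem Sp.norm_le_iff (u : Sp N h) {C : ℝ} (hC : 0 ≤ C) : ‖u‖ ≤ C ↔ Bd N u.fn C :=
  s1_le_iff u hC

theorem Sp.bd_norm (u : Sp N h) : Bd N u.fn ‖u‖ := s1_attained u

theorem Sp.exists_coord (γ : Γ) : ∃ φ : StrongDual ℝ (Sp N h), ∀ u, φ u = u.fn γ := by
  by_cases hγ : Unseen N γ
  · exact ⟨0, fun u => by rw [u.mem.1 γ hγ]; rfl⟩
  · obtain ⟨c, hc0, hc⟩ := s1_coord_bound h γ hγ
    let f : Sp N h →ₗ[ℝ] ℝ := (LinearMap.proj γ).comp (Sp.fnL N h)
    refine ⟨f.mkContinuous c (fun u => ?_), fun u => rfl⟩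
    rw [Real.norm_eq_abs]
    exact hc u.fn _ (Sp.bd_norm u)

instance : CompleteSpace (Sp N h) := by
  refine Metric.complete_of_cauchySeq_tendsto (fun u hu => ?_)
  have hcs : ∀ γ, ∃ a, Tendsto (fun n => (u n).fn γ) atTop (𝓝 a) := by
    intro γ
    obtain ⟨φ, hφ⟩ := Sp.exists_coord (h := h) γ
    have h1 : CauchySeq (fun n => φ (u n)) := hu.map φ.uniformContinuous
    obtain ⟨a, ha⟩ := cauchySeq_tendsto_of_complete h1
    refine ⟨a, ?_⟩
    simpa only [hφ] using ha
  choose y hy using hcs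
  have hlim : ∀ ε > 0, ∃ n₀, ∀ n ≥ n₀, Bd N (y - (u n).fn) ε := by
    intro ε hε
    obtain ⟨n₀, hn₀⟩ := Metric.cauchySeq_iff.1 hu ε hε
    refine ⟨n₀, fun n hn j => ?_⟩
    obtain ⟨F, hF⟩ := h.exists_fin j
    have h1 : ∀ m ≥ n₀, N j (y - (u n).fn) ≤ ε + 2 * ∑ γ ∈ F, |y γ - (u m).fn γ| := by
      intro m hm
      have h2 := h.add_le j (y - (u m).fn) ((u m).fn - (u n).fn)
      rw [sub_add_sub_cancel] at h2
      have h3 : N j ((u m).fn - (u n).fn) ≤ ε := by
        have h4 := Sp.bd_norm (u m - u n) j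
        rw [Sp.fn_sub] at h4
        have h5 := hn₀ m hm n hn
        rw [dist_eq_norm] at h5
        linarith
      have h6 := hF (y - (u m).fn)
      simp only [Pi.sub_apply] at h6
      linarith
    have h7 : Tendsto (fun m => ε + 2 * ∑ γ ∈ F, |y γ - (u m).fn γ|) atTop
        (𝓝 (ε + 2 * ∑ γ ∈ F, |y γ - y γ|)) := by
      refine Tendsto.add tendsto_const_nhds (Tendsto.const_mul _ (tendsto_finsetSum _ ?_))
      intro γ _
      exact (tendsto_const_nhds.sub (hy γ)).abs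
    have h8 : ε + 2 * ∑ γ ∈ F, |y γ - y γ| = ε := by simp
    rw [h8] at h7
    exact ge_of_tendsto h7 (eventually_atTop.2 ⟨n₀, h1⟩)
  have hmem : Mem N y := by
    refine ⟨fun γ hγ => ?_, fun ε hε => ?_⟩
    · have h1 : Tendsto (fun n => (u n).fn γ) atTop (𝓝 0) := by
        have : (fun n => (u n).fn γ) = fun _ => 0 := by
          funext n
          exact (u n).mem.1 γ hγ
        rw [this]
        exact tendsto_const_nhds
      exact tendsto_nhds_unique (hy γ) h1
    · obtain ⟨n₀, hn₀⟩ := hlim (ε / 2) (by positivity)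
      obtain ⟨z, hz, hzz⟩ := (u n₀).mem.2 (ε / 2) (by positivity)
      refine ⟨z, hz, ?_⟩
      have h1 := Bd.add h (hn₀ n₀ le_rfl) hzz
      rw [sub_add_sub_cancel] at h1
      exact h1.mono (by linarith)
  refine ⟨Sp.mk' y hmem, ?_⟩
  rw [Metric.tendsto_atTop]
  intro ε hε
  obtain ⟨n₀, hn₀⟩ := hlim (ε / 2) (by positivity)
  refine ⟨n₀, fun n hn => ?_⟩
  rw [dist_comm, dist_eq_norm]
  have h1 : ‖Sp.mk' (h := h) y hmem - u n‖ ≤ ε / 2 := by
    rw [Sp.norm_le_iff _ (by positivity)]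
    exact hn₀ n hn
  linarith

end general

end Pool.Agent.WB
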