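import Pool.Agent.Lib.MP_c7fb7b_an.B4
import Pool.Agent.Lib.MP_c7fb7b_an.D3
import Pool.Agent.Lib.MP_c7fb7b_an.E3
import Pool.Agent.Lib.MP_c7fb7b_an.Q2
import Pool.Agent.Lib.MP_c7fb7b_an.S1

/-!
# M1: Lipschitz and lower bounds for the whole map (40 min)

`Bd XF y C` says `Bd (ga (kap (g+1))) (fun n => y (g,n)) C` for every `g`; the same for `YF`.
`|sgn b x n - sgn b y n| ≤ |x n - y n|`.  `fr_lip`: component `base`: `LN` of
`(n,j) ↦ if j = 0 then u n - v n else 0` is at most `√(∑_s (u n - v n)²) ≤ ga ≤ δ`;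
`edge`: `K_lip`; `rcd`: `R_lip`.  `fr_lower`: `lower`.
-/

open Finset Filter Topology

namespace Pool.Agent.WB

theorem sgn_nonneg (b : Bool) (x : ℕ → ℝ) (n : ℕ) : 0 ≤ sgn b x n := by
  unfold sgn
  split_ifs
  · exact le_max_right _ _
  · exact le_max_right _ _

theorem m1_sgn_sub (b : Bool) (x y : ℕ → ℝ) (n : ℕ) :
    |sgn b x n - sgn b y n| ≤ |x n - y n| := by
  unfold sgn
  cases b
  · simp only [Bool.false_eq_true, if_false]
    refine (abs_max_sub_max_le_abs _ _ _).trans ?_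
    rw [show -x n - -y n = -(x n - y n) by ring, abs_neg]
  · simp only [if_true]
    exact abs_max_sub_max_le_abs _ _ _

theorem m1_part {x y : ℕ × ℕ → ℝ} {δ : ℝ} (h : Bd XF (x - y) δ) (g : ℕ) (b : Bool) :
    Bd (ga (kap (g + 1))) (sgn b (fun n => x (g, n)) - sgn b (fun n => y (g, n))) δ := by
  intro s
  have h1 : ga (kap (g + 1)) s (fun n => (x - y) (g, n)) ≤ δ := h (g, s)
  refine le_trans (ga_mono (kap_nonneg (g + 1)) ?_) h1
  intro m _
  exact m1_sgn_sub b (fun n => x (g, n)) (fun n => y (g, n)) m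

theorem fr_lip (x y : ℕ × ℕ → ℝ) {δ : ℝ} (h : Bd XF (x - y) δ) :
    Bd YF (fr x - fr y) (80 * δ) := by
  have hδ : 0 ≤ δ := (ga_nonneg (kap (0 + 1)) ∅ (fun n => (x - y) (0, n))).trans (h (0, ∅))
  rintro ⟨⟨g, b, c⟩, j⟩
  have hp := m1_part h g b
  have hu : ∀ n, 0 ≤ sgn b (fun n => x (g, n)) n := fun n => sgn_nonneg _ _ _
  have hv : ∀ n, 0 ≤ sgn b (fun n => y (g, n)) n := fun n => sgn_nonneg _ _ _
  cases c with
  | base =>
    show LN j (fun e => (if e.2 = 0 then sgn b (fun n => x (g, n)) e.1 else 0) -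
      (if e.2 = 0 then sgn b (fun n => y (g, n)) e.1 else 0)) ≤ 80 * δ
    have h1 := (l2_le_ga (kap (g + 1)) j.2.1 _).trans (hp j.2.1)
    refine le_trans ?_ (h1.trans (by linarith : δ ≤ 80 * δ))
    unfold LN
    apply Real.sqrt_le_sqrt
    refine Finset.sum_le_sum fun n _ => ?_
    by_cases hj : j.2.2.2 n = 0
    · simp [hj]
    · simp only [hj, if_false, sub_self]
      rw [zero_pow (by norm_num)]
      exact sq_nonneg _
  | edge t i =>
    have h1 := K_lip (g + 1) t i _ _ hu hv hp j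
    refine le_trans ?_ (h1.trans (by linarith : 8 * δ ≤ 80 * δ))
    exact le_of_eq rfl
  | rcd t =>
    have h1 := R_lip (g + 1) t _ _ hp j
    exact h1

theorem fr_lower (x y : ℕ × ℕ → ℝ) {C : ℝ} (h : Bd YF (fr x - fr y) C) :
    Bd XF (x - y) (81920 * C + 2560) := by
  rintro ⟨g, s⟩
  have h1 := lower (g + 1) (by omega) (fun n => x (g, n)) (fun n => y (g, n)) C
    (fun b c j => h ((g, b, c), j)) s
  exact h1

end Pool.Agent.WB
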