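import Pool.Agent.Lib.MP_c7fb7b_an.A1
import Pool.Agent.Lib.MP_c7fb7b_an.B1
import Pool.Agent.Lib.MP_c7fb7b_an.D1

/-!
# M2: every coordinate of the map is continuous for pointwise convergence (40 min)

Compositions of `continuous_hh`, `continuous_chi`, `continuous_bet`, `continuous_up`,
`continuous_dn`, `continuous_bump` with continuous maps of `ℕ × ℕ → ℝ` (product topology).  For the
carrier: `x ↦ hh k0 (xb k σ x) n` is `continuous_hh` composed with `x ↦ xb k σ x`
(`continuous_pi`).
-/

open Finset Filter Topology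

namespace Pool.Agent.WB

theorem m2_hh (k : ℕ → ℝ) (n : ℕ) {X : Type} [TopologicalSpace X] {f : X → ℕ → ℝ}
    (hf : ∀ m, Continuous fun x => f x m) : Continuous fun x => hh k (f x) n :=
  (continuous_hh k n).comp (continuous_pi hf)

theorem m2_qs (k : ℕ → ℝ) (σ : ℝ) (m : ℕ) : Continuous fun u : ℕ → ℝ => qs k σ u m :=
  ((continuous_dn σ).comp (continuous_hh k m)).mul (continuous_apply m)

theorem m2_xb (k : ℕ → ℝ) (σ : ℝ) (m : ℕ) : Continuous fun u : ℕ → ℝ => xb k σ u m :=
  (((continuous_up (4 * σ)).comp (continuous_hh k m)).mul (continuous_apply m)).min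
    continuous_const

theorem m2_wr (k : ℕ → ℝ) (σ : ℝ) (m : ℕ) : Continuous fun u : ℕ → ℝ => wr k σ u m :=
  continuous_const.mul (((continuous_dn (2 * σ)).comp (m2_hh k0 m (m2_xb k σ))).mul (m2_xb k σ m))

theorem continuous_Fm (g : ℕ) (c : Cp) (e : ℕ × ℕ) :
    Continuous (fun u : ℕ → ℝ => Fm g c u e) := by
  cases c with
  | base =>
    simp only [Fm]
    by_cases h : e.2 = 0
    · simp only [h, if_true]
      exact continuous_apply _
    · simp only [h, if_false]
      exact continuous_const
  | edge t i =>
    simp only [Fm, Kmap]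
    by_cases h : e.1 < e.2
    · simp only [h, if_true]
      exact ((continuous_chi _ _).comp (continuous_hh (kap g) e.2)).mul
        (((continuous_bet _ _).comp (continuous_apply e.1)).min
          ((continuous_bet _ _).comp (continuous_apply e.2)))
    · simp only [h, if_false]
      exact continuous_const
  | rcd t =>
    simp only [Fm, Rmap]
    by_cases h : (2 : ℝ) ^ (Nat.unpair e.2).1 ≤ 4 * Lam g ^ t
    · simp only [h, if_true]
      refine (m2_wr (kap g) (Lam g ^ t) e.1).mul ?_
      exact continuous_bump (X := ℕ → ℝ) (2 ^ (Nat.unpair e.2).1)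
        (fun (u : ℕ → ℝ) i => hh (kap g) (fun m => qs (kap g) (Lam g ^ t) u m - cc i m) e.1)
        (fun i => m2_hh (kap g) e.1 fun m => (m2_qs (kap g) (Lam g ^ t) m).sub continuous_const)
        (Nat.unpair e.2).2
    · simp only [h, if_false]
      exact continuous_const

theorem m2_sgn (b : Bool) (g : ℕ) :
    Continuous fun x : ℕ × ℕ → ℝ => sgn b (fun n => x (g, n)) := by
  refine continuous_pi fun n => ?_
  unfold sgn
  cases b
  · simp only [Bool.false_eq_true, if_false]
    exact (continuous_apply (g, n)).neg.max continuous_const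
  · simp only [if_true]
    exact (continuous_apply (g, n)).max continuous_const

theorem continuous_fr (p : YI × (ℕ × ℕ)) : Continuous (fun x : ℕ × ℕ → ℝ => fr x p) :=
  (continuous_Fm (p.1.1 + 1) p.1.2.2 p.2).comp (m2_sgn p.1.2.1 p.1.1)

end Pool.Agent.WB
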