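import Mathlib

/-!
# MP_c7fb7b_an: the notions of the problem
-/

open Finset Filter Topology

namespace Pool.Agent.WB

/-! ## The notions of the problem -/

/-- A sequence of a real normed space is weakly null. -/
def WeaklyNull {E : Type} [NormedAddCommGroup E] [NormedSpace ℝ E] (x : ℕ → E) : Prop :=
  ∀ φ : StrongDual ℝ E, Tendsto (fun n => φ (x n)) atTop (𝓝 0)

/-- The weak `p`-Banach-Saks property. -/
def WeakBS (p : ℝ) (E : Type) [NormedAddCommGroup E] [NormedSpace ℝ E] : Prop :=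
  ∃ C : ℝ, 0 < C ∧ ∀ x : ℕ → E, (∀ n, ‖x n‖ ≤ 1) → WeaklyNull x → ∀ k : ℕ,
    ∃ M : Set ℕ, M.Infinite ∧ ∀ s : Finset ℕ, (s : Set ℕ) ⊆ M → s.card = k →
      ‖∑ n ∈ s, x n‖ ≤ C * (k : ℝ) ^ (1 / p)

/-- Coarse Lipschitz embeddings. -/
def CoarseLip {X Y : Type} [NormedAddCommGroup X] [NormedAddCommGroup Y] (f : X → Y) : Prop :=
  ∃ L : ℝ, 0 < L ∧ ∀ x y : X, L⁻¹ * ‖x - y‖ - L ≤ ‖f x - f y‖ ∧ ‖f x - f y‖ ≤ L * ‖x - y‖ + L

/-- Weak sequential continuity. -/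
def WeakSeqCont {X Y : Type} [NormedAddCommGroup X] [NormedSpace ℝ X] [NormedAddCommGroup Y]
    [NormedSpace ℝ Y] (f : X → Y) : Prop :=
  ∀ (x : ℕ → X) (a : X), (∀ φ : StrongDual ℝ X, Tendsto (fun n => φ (x n)) atTop (𝓝 (φ a))) →
    ∀ ψ : StrongDual ℝ Y, Tendsto (fun n => ψ (f (x n))) atTop (𝓝 (ψ (f a)))

end Pool.Agent.WB
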