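import Pool.Agent.Lib.MP_c7fb7b_an.Defs

/-!
# P1: the subsequence property of `ℓ₂(c₀)` and a reduction (75 min)

`PP_mono`: clear.
`PP_LN`.  `k = 0`: take `M = M₀`; `F = ∅`, the sum is `0`.  Let `k ≥ 1`.  Choose recursively
`q_0 < q_1 < …` in `M₀` such that with the finite set `U_j = ⋃_{i<j} support (y q_i)`:
`∑_{e ∈ U_j} |y q_j e| ≤ 1/k` (possible: finitely many coordinates tending to `0`); e.g. with
`Nat.exists_strictMono'`-like recursion, `Filter.extraction_of_frequently_atTop`, or well-founded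
recursion on lists; `M = {q_j}`.  For `F ⊆ M`, `|F| ≤ k`, and a functional `(s, ι)`:
put `z_q = y q` off `U`, `0` on `U` (`U` = union of the supports of the earlier members of `M`);
then `√(∑_s (∑_F y)²) ≤ √(∑_s (∑_F z)²) + ∑_F ∑_{U} |y| ≤ √(∑_s (∑_F z)²) + 1`, and the `z_q`
have disjoint supports, so `(∑_F z_q(n, ι n))² = ∑_F z_q(n, ι n)²` and
`∑_s ∑_F z_q(n, ι n)² = ∑_F ∑_s z_q(..)² ≤ ∑_F 1 ≤ k`.  Total `√k + 1 ≤ 2√k`.
-/

open Finset Filter Topology

namespace Pool.Agent.WB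

theorem PP_mono {J Γ : Type} {N : J → (Γ → ℝ) → ℝ} {C C' : ℝ} (h : C ≤ C') (hP : PP N C) :
    PP N C' := by
  intro y h1 h2 h3 k M₀ hM₀
  obtain ⟨M, m1, m2, m3⟩ := hP y h1 h2 h3 k M₀ hM₀
  refine ⟨M, m1, m2, fun F hF hc j => (m3 F hF hc j).trans ?_⟩
  exact mul_le_mul_of_nonneg_right h (Real.sqrt_nonneg _)

/-- sparse subsets -/
theorem p1_sparse (N : ℕ → ℕ) (M₀ : Set ℕ) (hM₀ : M₀.Infinite) :
    ∃ M : Set ℕ, M ⊆ M₀ ∧ M.Infinite ∧ ∀ q ∈ M, ∀ r ∈ M, q < r → N q ≤ r := by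
  have hex : ∀ n : ℕ, ∃ m, m ∈ M₀ ∧ n < m := fun n => by
    obtain ⟨m, h1, h2⟩ := hM₀.exists_gt n
    exact ⟨m, h1, h2⟩
  choose g hg1 hg2 using hex
  let φ : ℕ → ℕ := fun n => Nat.rec (g 0) (fun _ x => g (max x (N x))) n
  have hφ : ∀ n, φ (n + 1) = g (max (φ n) (N (φ n))) := fun n => rfl
  have hmem : ∀ n, φ n ∈ M₀ := by
    intro n
    cases n with
    | zero => exact hg1 0
    | succ n => rw [hφ]; exact hg1 _
  have hlt : ∀ n, max (φ n) (N (φ n)) < φ (n + 1) := fun n => by rw [hφ]; exact hg2 _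
  have hmono : StrictMono φ := strictMono_nat_of_lt_succ fun n =>
    lt_of_le_of_lt (le_max_left _ _) (hlt n)
  refine ⟨Set.range φ, ?_, Set.infinite_range_of_injective hmono.injective, ?_⟩
  · rintro _ ⟨n, rfl⟩
    exact hmem n
  · rintro _ ⟨i, rfl⟩ _ ⟨j, rfl⟩ hij
    have h1 : i < j := hmono.lt_iff_lt.1 hij
    have h2 : φ (i + 1) ≤ φ j := hmono.monotone h1
    have h3 := hlt i
    have h4 := le_max_right (φ i) (N (φ i))
    omega

theorem p1_sq {α : Type} (F : Finset α) (a : α → ℝ)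
    (h : ∀ q ∈ F, ∀ r ∈ F, q ≠ r → a q * a r = 0) : (∑ q ∈ F, a q) ^ 2 = ∑ q ∈ F, a q ^ 2 := by
  rw [sq, Finset.sum_mul_sum]
  refine Finset.sum_congr rfl fun q hq => ?_
  rw [Finset.sum_eq_single q]
  · ring
  · intro r hr hne
    exact h q hq r hr hne.symm
  · intro h1
    exact absurd hq h1

theorem p1_abs {α : Type} (s : Finset α) (a : α → ℝ) :
    √(∑ n ∈ s, a n ^ 2) ≤ ∑ n ∈ s, |a n| := by
  refine Real.sqrt_le_iff.2 ⟨Finset.sum_nonneg fun n _ => abs_nonneg _, ?_⟩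
  classical
  induction s using Finset.induction_on with
  | empty => simp
  | insert q F hq ih =>
    rw [Finset.sum_insert hq, Finset.sum_insert hq]
    have h1 : 0 ≤ |a q| := abs_nonneg _
    have h2 : 0 ≤ ∑ n ∈ F, |a n| := Finset.sum_nonneg fun n _ => abs_nonneg _
    have h3 := mul_nonneg h1 h2
    have h4 := sq_abs (a q)
    nlinarith

/-- Minkowski -/
theorem p1_mink {α : Type} (s : Finset α) (a b : α → ℝ) :
    √(∑ n ∈ s, (a n + b n) ^ 2) ≤ √(∑ n ∈ s, a n ^ 2) + √(∑ n ∈ s, b n ^ 2) := by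
  classical
  have key : ∀ c : α → ℝ, √(∑ n ∈ s, c n ^ 2) =
      ‖(WithLp.toLp 2 (fun n : s => c n) : EuclideanSpace ℝ s)‖ := by
    intro c
    rw [EuclideanSpace.norm_eq]
    congr 1
    rw [← Finset.sum_coe_sort s]
    refine Finset.sum_congr rfl fun n _ => ?_
    rw [Real.norm_eq_abs, sq_abs]
  rw [key, key, key]
  refine le_trans (le_of_eq ?_) (norm_add_le _ _)
  congr 1

theorem p1_mink_sum {α β : Type} (s : Finset α) (F : Finset β) (a : β → α → ℝ) :
    √(∑ n ∈ s, (∑ q ∈ F, a q n) ^ 2) ≤ ∑ q ∈ F, √(∑ n ∈ s, a q n ^ 2) := by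
  classical
  induction F using Finset.induction_on with
  | empty => simp
  | insert q F hq ih =>
    rw [Finset.sum_insert hq]
    refine le_trans ?_ (add_le_add le_rfl ih)
    refine le_trans (le_of_eq ?_) (p1_mink s _ _)
    congr 1
    refine Finset.sum_congr rfl fun n _ => ?_
    rw [Finset.sum_insert hq]

theorem PP_LN : PP LN 2 := by
  classical
  intro y hfin hbd hto k M₀ hM₀
  rcases Nat.eq_zero_or_pos k with rfl | hk
  · refine ⟨M₀, le_rfl, hM₀, fun F _ hc j => ?_⟩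
    have : F = ∅ := Finset.card_eq_zero.1 (Nat.le_zero.1 hc)
    subst this
    simp [LN]
  have hkpos : (0 : ℝ) < k := by exact_mod_cast hk
  -- the union of the supports
  let U : ℕ → Finset (ℕ × ℕ) := fun q => (range (q + 1)).biUnion fun i => (hfin i).toFinset
  have hN : ∀ q, ∃ n, ∀ r, n ≤ r → ∑ e ∈ U q, |y r e| ≤ 1 / k := by
    intro q
    have h1 : Tendsto (fun r => ∑ e ∈ U q, |y r e|) atTop (𝓝 (∑ e ∈ U q, 0)) := by
      refine tendsto_finsetSum _ fun e _ => ?_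
      have := (hto e).abs
      rwa [abs_zero] at this
    rw [Finset.sum_const_zero] at h1
    obtain ⟨n, hn⟩ := (h1.eventually (gt_mem_nhds (show (0 : ℝ) < 1 / k by positivity))).exists_forall_of_atTop
    exact ⟨n, fun r hr => (hn r hr).le⟩
  choose N hN using hN
  obtain ⟨M, m1, m2, m3⟩ := p1_sparse N M₀ hM₀
  refine ⟨M, m1, m2, fun F hF hc j => ?_⟩
  obtain ⟨s, ν, hs⟩ : ∃ (s : Finset ℕ) (ν : ℕ → ℕ), ∀ w : ℕ × ℕ → ℝ,
      LN j w = √(∑ n ∈ s, (w (n, ν n)) ^ 2) := ⟨j.2.1, j.2.2.2, fun w => rfl⟩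
  -- earlier supports
  let V : ℕ → Finset (ℕ × ℕ) := fun q => (F.filter (· < q)).biUnion fun i => (hfin i).toFinset
  let z : ℕ → ℕ × ℕ → ℝ := fun q e => if e ∈ V q then 0 else y q e
  let w : ℕ → ℕ × ℕ → ℝ := fun q e => if e ∈ V q then y q e else 0
  have hzw : ∀ q e, y q e = z q e + w q e := by
    intro q e
    by_cases h : e ∈ V q <;> simp [z, w, h]
  have hw : ∀ q ∈ F, √(∑ n ∈ s, (w q (n, ν n)) ^ 2) ≤ 1 / k := by
    intro q hq
    refine (p1_abs _ _).trans ?_
    have e1 : ∑ n ∈ s, |w q (n, ν n)| ≤ ∑ e ∈ V q, |y q e| := by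
      have e2 : ∑ n ∈ s, |w q (n, ν n)| = ∑ e ∈ s.image (fun n => (n, ν n)), |w q e| := by
        rw [Finset.sum_image]
        intro a _ b _ hab
        exact (Prod.ext_iff.1 hab).1
      rw [e2]
      have e3 : ∑ e ∈ s.image (fun n => (n, ν n)), |w q e| =
          ∑ e ∈ (s.image (fun n => (n, ν n))).filter (· ∈ V q), |y q e| := by
        rw [Finset.sum_filter]
        refine Finset.sum_congr rfl fun e _ => ?_
        by_cases h : e ∈ V q <;> simp [w, h]
      rw [e3]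
      refine Finset.sum_le_sum_of_subset_of_nonneg ?_ fun _ _ _ => abs_nonneg _
      intro e he
      exact (Finset.mem_filter.1 he).2
    refine e1.trans ?_
    rcases (F.filter (· < q)).eq_empty_or_nonempty with hemp | hne
    · simp only [V, hemp, Finset.biUnion_empty, Finset.sum_empty]
      positivity
    · obtain ⟨i, hi, himax⟩ := Finset.exists_max_image _ id hne
      have hi' := Finset.mem_filter.1 hi
      have h5 : N i ≤ q := m3 i (hF hi'.1) q (hF hq) hi'.2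
      refine le_trans (Finset.sum_le_sum_of_subset_of_nonneg ?_ fun _ _ _ => abs_nonneg _)
        (hN i q h5)
      intro e he
      obtain ⟨l, hl, hel⟩ := Finset.mem_biUnion.1 he
      refine Finset.mem_biUnion.2 ⟨l, Finset.mem_range.2 ?_, hel⟩
      have := himax l hl
      simp only [id] at this
      omega
  have hz0 : ∀ e, ∀ q ∈ F, ∀ r ∈ F, q ≠ r → z q e * z r e = 0 := by
    have key : ∀ e, ∀ q ∈ F, ∀ r ∈ F, q < r → z q e * z r e = 0 := by
      intro e q hq r hr hlt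
      by_cases h : e ∈ V r
      · simp [z, h]
      · have h6 : y q e = 0 := by
          by_contra hne
          apply h
          refine Finset.mem_biUnion.2 ⟨q, Finset.mem_filter.2 ⟨hq, hlt⟩, ?_⟩
          rw [Set.Finite.mem_toFinset]
          exact hne
        have h7 : z q e = 0 := by
          simp only [z, h6, ite_self]
        rw [h7, zero_mul]
    intro e q hq r hr hne
    rcases lt_or_gt_of_ne hne with h | h
    · exact key e q hq r hr h
    · rw [mul_comm]; exact key e r hr q hq h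
  have hz : √(∑ n ∈ s, (∑ q ∈ F, z q (n, ν n)) ^ 2) ≤ √(k : ℝ) := by
    apply Real.sqrt_le_sqrt
    have e1 : ∀ n ∈ s, (∑ q ∈ F, z q (n, ν n)) ^ 2 = ∑ q ∈ F, z q (n, ν n) ^ 2 := fun n _ =>
      p1_sq F _ (hz0 _)
    rw [Finset.sum_congr rfl e1, Finset.sum_comm]
    have e2 : ∀ q ∈ F, ∑ n ∈ s, z q (n, ν n) ^ 2 ≤ 1 := by
      intro q _
      have h8 := hbd q j
      rw [hs] at h8
      have h9 : ∑ n ∈ s, (y q (n, ν n)) ^ 2 ≤ 1 := by
        have h10 := Real.sqrt_le_iff.1 h8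
        simpa using h10.2
      refine le_trans (Finset.sum_le_sum fun n _ => ?_) h9
      by_cases h : (n, ν n) ∈ V q
      · simp only [z, h, if_true]
        have h13 := sq_nonneg (y q (n, ν n))
        simpa using h13
      · simp only [z, h, if_false, le_refl]
    refine (Finset.sum_le_card_nsmul _ _ _ e2).trans ?_
    rw [nsmul_eq_mul, mul_one]
    exact_mod_cast hc
  have hsum : LN j (∑ q ∈ F, y q) ≤ √(k : ℝ) + ∑ q ∈ F, (1 / (k : ℝ)) := by
    rw [hs]
    have e1 : ∀ n ∈ s, ((∑ q ∈ F, y q) (n, ν n)) ^ 2 =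
        (∑ q ∈ F, z q (n, ν n) + ∑ q ∈ F, w q (n, ν n)) ^ 2 := by
      intro n _
      rw [Finset.sum_apply, ← Finset.sum_add_distrib]
      congr 1
      exact Finset.sum_congr rfl fun q _ => hzw q _
    rw [Finset.sum_congr rfl e1]
    refine (p1_mink s _ _).trans (add_le_add hz ?_)
    refine (p1_mink_sum s F _).trans ?_
    exact Finset.sum_le_sum hw
  refine hsum.trans ?_
  have h11 : ∑ q ∈ F, (1 / (k : ℝ)) ≤ 1 := by
    rw [Finset.sum_const, nsmul_eq_mul, mul_one_div, div_le_one hkpos]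
    exact_mod_cast hc
  have h12 : (1 : ℝ) ≤ √(k : ℝ) := by
    rw [Real.one_le_sqrt]
    exact_mod_cast hk
  linarith

end Pool.Agent.WB
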