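import Pool.Agent.Lib.MP_c7fb7b_an.Defs

/-!
# P2: numerical lemmas for the fixed rows (60 min)

`chunk_sum`: for `a ≥ 1` let `p = √√a`, `w = √√(a-1)`; `1 = a - (a-1) = (p²+w²)(p+w)(p-w) ≤
4 p³ (p-w)`, so `1/a = 1/p⁴ ≤ 4 (p-w)/p ≤ 4 (p - w)/√√(1+σ)` for `a ≥ 1 + σ`.  Sum over
`a = c+1+σ`, `c < n` (telescoping): `≤ 4 (√√(n+σ) - √√σ)/√√(1+σ)`.
`num_total`: `s j ≤ 12 √(2 v_j) √√(1 + a/S_j)`, so `s_j² ≤ 288 v_j √(1 + a/S_j) ≤
288 v_j (1 + √a/√S_j)` (also if `v j = 0`, `s j = 0`), where `S_j = ∑_{i ∈ F, i ≤ j} v_i`.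
`∑_{j∈F} v_j/√S_j ≤ 2 √S`, `S = ∑_F v` (only `v_j > 0`; induction on `F` adding a new maximum,
`Finset.induction_on_max`: `√S_j - √(S_j - v_j) ≥ v_j/(2√S_j)`).  So `∑ s_j² ≤ 288 (S + 2√(a S))
≤ 288 (2S + a) ≤ 576 (S + a)`, and `∑ s_j ≤ √k √(∑ s_j²) ≤ 24 √k √(a + S)` (Cauchy-Schwarz,
`|F| ≤ k`; use `s_j ≤ max s_j 0`).
-/

open Finset Filter Topology

namespace Pool.Agent.WB

theorem p2_step {a u : ℝ} (ha : 1 ≤ a) (hu : 1 ≤ u) (hua : u ≤ a) :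
    1 / a ≤ 4 * (√(√a) - √(√(a - 1))) / √(√u) := by
  have h1 : (√(√a)) ^ 4 = a := by
    have e : (√(√a)) ^ 4 = ((√(√a)) ^ 2) ^ 2 := by ring
    rw [e, Real.sq_sqrt (Real.sqrt_nonneg _), Real.sq_sqrt (by linarith)]
  have h2 : (√(√(a - 1))) ^ 4 = a - 1 := by
    have e : (√(√(a - 1))) ^ 4 = ((√(√(a - 1))) ^ 2) ^ 2 := by ring
    rw [e, Real.sq_sqrt (Real.sqrt_nonneg _), Real.sq_sqrt (by linarith)]
  have hpw : √(√(a - 1)) ≤ √(√a) := Real.sqrt_le_sqrt (Real.sqrt_le_sqrt (by linarith))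
  have hup : √(√u) ≤ √(√a) := Real.sqrt_le_sqrt (Real.sqrt_le_sqrt hua)
  have hu1 : 1 ≤ √(√u) := by
    rw [Real.one_le_sqrt, Real.one_le_sqrt]; exact hu
  have hw0 : 0 ≤ √(√(a - 1)) := Real.sqrt_nonneg _
  generalize √(√a) = p at *
  generalize √(√(a - 1)) = w at *
  generalize √(√u) = q at *
  have hp0 : 0 < p := by linarith
  have h3 : 1 ≤ 4 * p ^ 3 * (p - w) := by
    have e1 : (p - w) * (p ^ 3 + p ^ 2 * w + p * w ^ 2 + w ^ 3) = 1 := by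
      have : (p - w) * (p ^ 3 + p ^ 2 * w + p * w ^ 2 + w ^ 3) = p ^ 4 - w ^ 4 := by ring
      rw [this, h1, h2]; ring
    have e2 : p ^ 3 + p ^ 2 * w + p * w ^ 2 + w ^ 3 ≤ 4 * p ^ 3 := by
      have a1 : p ^ 2 * w ≤ p ^ 3 := by nlinarith [sq_nonneg p]
      have a2 : p * w ^ 2 ≤ p ^ 3 := by
        have : w ^ 2 ≤ p ^ 2 := by nlinarith
        nlinarith
      have a3 : w ^ 3 ≤ p ^ 3 := pow_le_pow_left₀ hw0 hpw 3
      linarith
    have e3 : 0 ≤ p - w := by linarith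
    nlinarith
  rw [← h1, div_le_div_iff₀ (by positivity) (by linarith)]
  have e4 : 0 ≤ p - w := by linarith
  calc 1 * q ≤ 1 * p := by linarith
    _ ≤ (4 * p ^ 3 * (p - w)) * p := by nlinarith
    _ = 4 * (p - w) * p ^ 4 := by ring

theorem chunk_sum (n : ℕ) {σ : ℝ} (hσ : 0 ≤ σ) :
    ∑ c ∈ range n, 1 / ((c : ℝ) + 1 + σ) ≤ 4 * √(√(((n : ℝ) + σ) / (1 + σ))) := by
  have key : ∀ n : ℕ, ∑ c ∈ range n, 1 / ((c : ℝ) + 1 + σ) ≤
      4 * (√(√((n : ℝ) + σ)) - √(√σ)) / √(√(1 + σ)) := by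
    intro n
    induction n with
    | zero => simp
    | succ n ih =>
      rw [Finset.sum_range_succ]
      have h := p2_step (a := (n : ℝ) + 1 + σ) (u := 1 + σ)
        (by have := Nat.cast_nonneg (α := ℝ) n; linarith) (by linarith)
        (by have := Nat.cast_nonneg (α := ℝ) n; linarith)
      have e1 : (n : ℝ) + 1 + σ - 1 = (n : ℝ) + σ := by ring
      rw [e1] at h
      have e2 : (((n + 1 : ℕ) : ℝ) + σ) = (n : ℝ) + 1 + σ := by push_cast; ring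
      rw [e2]
      refine (add_le_add ih h).trans (le_of_eq ?_)
      rw [← add_div]
      congr 1
      ring
  refine (key n).trans ?_
  rw [Real.sqrt_div (by positivity), Real.sqrt_div (Real.sqrt_nonneg _), mul_div_assoc]
  refine mul_le_mul_of_nonneg_left ?_ (by norm_num)
  refine div_le_div_of_nonneg_right ?_ (Real.sqrt_nonneg _)
  linarith [Real.sqrt_nonneg (√σ)]

theorem p2_sqrt_step {A v : ℝ} (hA : 0 ≤ A) (hv : 0 ≤ v) :
    2 * √A + v / √(A + v) ≤ 2 * √(A + v) := by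
  rcases eq_or_lt_of_le (add_nonneg hA hv) with h0 | h0
  · have h1 : A = 0 := by linarith
    have h2 : v = 0 := by linarith
    rw [h1, h2]; simp
  · have hs : 0 < √(A + v) := Real.sqrt_pos.2 h0
    have h1 : √A ≤ √(A + v) := Real.sqrt_le_sqrt (by linarith)
    have h2 : (√(A + v)) ^ 2 = A + v := Real.sq_sqrt h0.le
    have h3 : (√A) ^ 2 = A := Real.sq_sqrt hA
    have h4 : v / √(A + v) ≤ 2 * (√(A + v) - √A) := by
      rw [div_le_iff₀ hs]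
      have : v = (√(A + v) - √A) * (√(A + v) + √A) := by
        have : (√(A + v) - √A) * (√(A + v) + √A) = (√(A + v)) ^ 2 - (√A) ^ 2 := by ring
        rw [this, h2, h3]; ring
      nlinarith [Real.sqrt_nonneg A]
    linarith

theorem p2_sum (F : Finset ℕ) (v : ℕ → ℕ) :
    ∑ j ∈ F, (v j : ℝ) / √((∑ i ∈ F.filter (fun i => i ≤ j), v i : ℕ) : ℝ) ≤
      2 * √((∑ j ∈ F, v j : ℕ) : ℝ) := by
  induction F using Finset.induction_on_max with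
  | empty => simp
  | insert m F hm ih =>
    have hmF : m ∉ F := fun h => lt_irrefl _ (hm m h)
    rw [Finset.sum_insert hmF]
    have e1 : (insert m F).filter (fun i => i ≤ m) = insert m F := by
      apply Finset.filter_true_of_mem
      intro i hi
      rw [Finset.mem_insert] at hi
      rcases hi with rfl | hi
      · exact le_rfl
      · exact (hm i hi).le
    have e2 : ∀ j ∈ F, (insert m F).filter (fun i => i ≤ j) = F.filter (fun i => i ≤ j) := by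
      intro j hj
      rw [Finset.filter_insert, if_neg]
      exact not_le.2 (hm j hj)
    rw [e1]
    have e3 : ∑ j ∈ F, (v j : ℝ) / √((∑ i ∈ (insert m F).filter (fun i => i ≤ j), v i : ℕ) : ℝ) =
        ∑ j ∈ F, (v j : ℝ) / √((∑ i ∈ F.filter (fun i => i ≤ j), v i : ℕ) : ℝ) :=
      Finset.sum_congr rfl fun j hj => by rw [e2 j hj]
    rw [e3, Finset.sum_insert hmF]
    have h := p2_sqrt_step (A := ((∑ j ∈ F, v j : ℕ) : ℝ)) (v := (v m : ℝ)) (Nat.cast_nonneg _)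
      (Nat.cast_nonneg _)
    have e4 : ((v m + ∑ j ∈ F, v j : ℕ) : ℝ) = ((∑ j ∈ F, v j : ℕ) : ℝ) + (v m : ℝ) := by
      push_cast; ring
    rw [e4]
    linarith

theorem p2_sq {v A S : ℝ} (hv : 0 ≤ v) :
    (12 * √(2 * v) * √(√(1 + A / S))) ^ 2 = 288 * v * √(1 + A / S) := by
  have e : (12 * √(2 * v) * √(√(1 + A / S))) ^ 2 =
      144 * (√(2 * v)) ^ 2 * (√(√(1 + A / S))) ^ 2 := by ring
  rw [e, Real.sq_sqrt (by positivity), Real.sq_sqrt (Real.sqrt_nonneg _)]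
  ring

theorem p2_sqrt_add {A S : ℝ} (hA : 0 ≤ A) (hS : 0 ≤ S) : √(1 + A / S) ≤ 1 + √A / √S := by
  rw [← Real.sqrt_div hA]
  have h0 : 0 ≤ A / S := div_nonneg hA hS
  rw [Real.sqrt_le_left (by positivity)]
  nlinarith [Real.sq_sqrt h0, Real.sqrt_nonneg (A / S)]

theorem num_total (k : ℕ) (F : Finset ℕ) (hF : F.card ≤ k) (v : ℕ → ℕ) (a : ℕ) (s : ℕ → ℝ)
    (hs0 : ∀ j ∈ F, v j = 0 → s j ≤ 0)
    (hs : ∀ j ∈ F, 0 < v j → s j ≤ 12 * √(2 * (v j : ℝ)) *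
      √(√(1 + (a : ℝ) / ((∑ i ∈ F.filter (fun i => i ≤ j), v i : ℕ) : ℝ)))) :
    ∑ j ∈ F, s j ≤ 24 * √(k : ℝ) * √((a : ℝ) + ((∑ j ∈ F, v j : ℕ) : ℝ)) := by
  have hS0 : (0 : ℝ) ≤ ((∑ j ∈ F, v j : ℕ) : ℝ) := Nat.cast_nonneg _
  have ha0 : (0 : ℝ) ≤ (a : ℝ) := Nat.cast_nonneg _
  have h1 : ∑ j ∈ F, s j ≤ ∑ j ∈ F, 12 * √(2 * (v j : ℝ)) *
      √(√(1 + (a : ℝ) / ((∑ i ∈ F.filter (fun i => i ≤ j), v i : ℕ) : ℝ))) := by
    refine Finset.sum_le_sum fun j hj => ?_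
    rcases Nat.eq_zero_or_pos (v j) with h | h
    · exact (hs0 j hj h).trans (by positivity)
    · exact hs j hj h
  have h2 := sq_sum_le_card_mul_sum_sq (s := F) (f := fun j => 12 * √(2 * (v j : ℝ)) *
      √(√(1 + (a : ℝ) / ((∑ i ∈ F.filter (fun i => i ≤ j), v i : ℕ) : ℝ))))
  have h3 : ∑ j ∈ F, (12 * √(2 * (v j : ℝ)) *
      √(√(1 + (a : ℝ) / ((∑ i ∈ F.filter (fun i => i ≤ j), v i : ℕ) : ℝ)))) ^ 2 ≤
      576 * ((a : ℝ) + ((∑ j ∈ F, v j : ℕ) : ℝ)) := by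
    have h4 : ∀ j ∈ F, (12 * √(2 * (v j : ℝ)) *
        √(√(1 + (a : ℝ) / ((∑ i ∈ F.filter (fun i => i ≤ j), v i : ℕ) : ℝ)))) ^ 2 ≤
        288 * (v j : ℝ) + 288 * √(a : ℝ) *
          ((v j : ℝ) / √((∑ i ∈ F.filter (fun i => i ≤ j), v i : ℕ) : ℝ)) := by
      intro j _
      rw [p2_sq (Nat.cast_nonneg _)]
      have h5 := p2_sqrt_add ha0 (Nat.cast_nonneg (α := ℝ)
        (∑ i ∈ F.filter (fun i => i ≤ j), v i))
      have h6 := mul_le_mul_of_nonneg_left h5 (by positivity : (0 : ℝ) ≤ 288 * (v j : ℝ))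
      refine h6.trans (le_of_eq ?_)
      ring
    refine (Finset.sum_le_sum h4).trans ?_
    rw [Finset.sum_add_distrib, ← Finset.mul_sum, ← Finset.mul_sum]
    have h5 := mul_le_mul_of_nonneg_left (p2_sum F v)
      (by positivity : (0 : ℝ) ≤ 288 * √(a : ℝ))
    have e1 : ∑ j ∈ F, (v j : ℝ) = ((∑ j ∈ F, v j : ℕ) : ℝ) := by push_cast; rfl
    rw [e1]
    have h6 : 2 * (√(a : ℝ) * √((∑ j ∈ F, v j : ℕ) : ℝ)) ≤
        (a : ℝ) + ((∑ j ∈ F, v j : ℕ) : ℝ) := by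
      have q1 := Real.sq_sqrt ha0
      have q2 := Real.sq_sqrt hS0
      nlinarith [sq_nonneg (√(a : ℝ) - √((∑ j ∈ F, v j : ℕ) : ℝ))]
    nlinarith
  have h4 : (∑ j ∈ F, 12 * √(2 * (v j : ℝ)) *
      √(√(1 + (a : ℝ) / ((∑ i ∈ F.filter (fun i => i ≤ j), v i : ℕ) : ℝ)))) ^ 2 ≤
      (k : ℝ) * (576 * ((a : ℝ) + ((∑ j ∈ F, v j : ℕ) : ℝ))) := by
    refine h2.trans (mul_le_mul (by exact_mod_cast hF) h3 ?_ (Nat.cast_nonneg _))
    exact Finset.sum_nonneg fun j _ => sq_nonneg _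
  refine h1.trans ?_
  refine abs_le_of_sq_le_sq' ?_ (by positivity) |>.2
  have e : (24 * √(k : ℝ) * √((a : ℝ) + ((∑ j ∈ F, v j : ℕ) : ℝ))) ^ 2 =
      576 * (√(k : ℝ)) ^ 2 * (√((a : ℝ) + ((∑ j ∈ F, v j : ℕ) : ℝ))) ^ 2 := by ring
  rw [e, Real.sq_sqrt (Nat.cast_nonneg _), Real.sq_sqrt (by positivity)]
  linarith

end Pool.Agent.WB
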