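import Pool.Agent.Lib.MP_c7fb7b_an.B3
import Pool.Agent.Lib.MP_c7fb7b_an.P2

/-!
# P3: one block of columns against fixed rows
-/

open Finset Filter Topology

namespace Pool.Agent.WB

/-- number of later rows -/
def p3_r (V0 : Finset ℕ) (b : ℕ) : ℕ := (V0.filter (fun b' => b < b')).card

theorem p3_r_lt {V0 : Finset ℕ} {b : ℕ} (hb : b ∈ V0) : p3_r V0 b < V0.card := by
  apply Finset.card_lt_card
  refine (Finset.ssubset_iff_of_subset (filter_subset _ _)).2 ⟨b, hb, ?_⟩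
  simp

theorem p3_r_anti {V0 : Finset ℕ} {b b' : ℕ} (hb' : b' ∈ V0) (h : b < b') :
    p3_r V0 b' < p3_r V0 b := by
  apply Finset.card_lt_card
  refine (Finset.ssubset_iff_of_subset ?_).2 ⟨b', mem_filter.2 ⟨hb', h⟩, ?_⟩
  · intro x hx
    rw [mem_filter] at hx ⊢
    exact ⟨hx.1, h.trans hx.2⟩
  · simp

theorem p3_r_inj (V0 : Finset ℕ) : Set.InjOn (p3_r V0) (V0 : Set ℕ) := by
  intro b hb b' hb' h
  rcases lt_trichotomy b b' with hlt | heq | hlt
  · have := p3_r_anti (V0 := V0) hb' hlt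
    omega
  · exact heq
  · have := p3_r_anti (V0 := V0) hb hlt
    omega

theorem p3_card_chunk (V0 : Finset ℕ) (v c : ℕ) (hv : 0 < v) :
    (V0.filter (fun b => p3_r V0 b / v = c)).card ≤ v := by
  have h1 : (V0.filter (fun b => p3_r V0 b / v = c)).card ≤ (Finset.Ico (c * v) (c * v + v)).card := by
    apply Finset.card_le_card_of_injOn (p3_r V0)
    · intro b hb
      rw [Finset.mem_coe, mem_filter] at hb
      rw [Finset.mem_coe, Finset.mem_Ico]
      obtain ⟨_, hb2⟩ := hb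
      have h2 := Nat.div_add_mod (p3_r V0 b) v
      have h3 := Nat.mod_lt (p3_r V0 b) hv
      rw [hb2, mul_comm] at h2
      omega
    · intro b hb b' hb' h
      rw [Finset.mem_coe, mem_filter] at hb hb'
      exact p3_r_inj V0 hb.1 hb'.1 h
  rwa [Nat.card_Ico, Nat.add_sub_cancel_left] at h1

theorem p3_coef {v c T d d' : ℕ} (hv : 0 < v) (hd'1 : 1 ≤ d') (hd'd : d' ≤ d) (hd'v : d' ≤ 2 * v)
    (hd : c * v + T + 1 ≤ d) {X : ℝ} (hX : 0 ≤ X) :
    X / (d : ℝ) ≤ (3 * (v : ℝ) / (((c : ℝ) + 1) * v + T)) * (X / (d' : ℝ)) := by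
  have hN : d' * ((c + 1) * v + T) ≤ 3 * v * d := by
    by_cases h : (c + 1) * v + T ≤ 3 * v
    · calc d' * ((c + 1) * v + T) ≤ d * (3 * v) := Nat.mul_le_mul hd'd h
        _ = 3 * v * d := by ring
    · push Not at h
      have h1 : (c + 1) * v + T = c * v + T + v := by ring
      have h2 : 2 * v ≤ c * v + T := by omega
      calc d' * ((c + 1) * v + T) ≤ (2 * v) * ((c + 1) * v + T) := Nat.mul_le_mul_right _ hd'v
        _ = v * (2 * (c * v + T) + 2 * v) := by rw [h1]; ring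
        _ ≤ v * (2 * (c * v + T) + (c * v + T)) := by
            apply Nat.mul_le_mul_left
            omega
        _ = 3 * v * (c * v + T) := by ring
        _ ≤ 3 * v * d := Nat.mul_le_mul_left _ (by omega)
  have hR : (d' : ℝ) * (((c : ℝ) + 1) * v + T) ≤ 3 * v * d := by exact_mod_cast hN
  have hd'0 : (0 : ℝ) < d' := by exact_mod_cast hd'1
  have hd0 : (0 : ℝ) < d := by
    have : 0 < d := by omega
    exact_mod_cast this
  have hv0 : (0 : ℝ) < v := by exact_mod_cast hv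
  have hm : (0 : ℝ) < ((c : ℝ) + 1) * v + T := by positivity
  rw [div_mul_div_comm, div_le_div_iff₀ hd0 (mul_pos hm hd'0)]
  calc X * ((((c : ℝ) + 1) * v + T) * d') = X * ((d' : ℝ) * (((c : ℝ) + 1) * v + T)) := by ring
    _ ≤ X * (3 * v * d) := mul_le_mul_of_nonneg_left hR hX
    _ = 3 * v * X * d := by ring

theorem p3_NV_sum (g : ℕ) (C : ℕ × ℕ → ℝ) (W : Finset ℕ) (h : NV g W C ≤ 1) :
    ∑ b ∈ W, ∑ n ∈ W, (if b < n ∧ dV W b n ≤ g then |C (b, n)| / (dV W b n : ℝ) else 0)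
      ≤ √(W.card : ℝ) := by
  rcases Nat.eq_zero_or_pos W.card with h0 | h0
  · rw [Finset.card_eq_zero] at h0
    subst h0
    simp
  · have hs : 0 < √(W.card : ℝ) := Real.sqrt_pos.2 (by exact_mod_cast h0)
    unfold NV at h
    rw [inv_mul_le_iff₀ hs, mul_one] at h
    exact h

theorem p3_chunk (g : ℕ) (C : ℕ × ℕ → ℝ) (hC : ∀ V, NV g V C ≤ 1) (V V0 Vj : Finset ℕ)
    (hV0 : V0 ⊆ V) (hVj : Vj ⊆ V) (hne : 0 < Vj.card) (T : ℕ)
    (hT : ∀ b ∈ V0, ∀ n ∈ Vj, (V0.filter (fun b' => b < b')).card + T +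
      (Vj.filter (fun m => m ≤ n)).card ≤ dV V b n) (c : ℕ) :
    ∑ b ∈ V0.filter (fun b => p3_r V0 b / Vj.card = c),
      ∑ n ∈ Vj, (if b < n ∧ dV V b n ≤ g then |C (b, n)| / (dV V b n : ℝ) else 0) ≤
      (3 * (Vj.card : ℝ) / (((c : ℝ) + 1) * Vj.card + T)) * √(2 * (Vj.card : ℝ)) := by
  classical
  set v := Vj.card with hv
  set U := V0.filter (fun b => p3_r V0 b / v = c) with hU
  set W := U ∪ Vj with hW
  have hWV : W ⊆ V := Finset.union_subset ((filter_subset _ _).trans hV0) hVj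
  have hWc : W.card ≤ 2 * v := by
    refine (Finset.card_union_le _ _).trans ?_
    have h1 : U.card ≤ v := p3_card_chunk V0 v c hne
    omega
  have hv0 : (0 : ℝ) < v := by exact_mod_cast hne
  have hm0 : (0 : ℝ) ≤ 3 * (v : ℝ) / (((c : ℝ) + 1) * v + T) := by positivity
  have hG0 : ∀ b n, (0 : ℝ) ≤ (if b < n ∧ dV W b n ≤ g then |C (b, n)| / (dV W b n : ℝ) else 0) := by
    intro b n
    split_ifs
    · positivity
    · exact le_rfl
  have hpt : ∀ b ∈ U, ∀ n ∈ Vj,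
      (if b < n ∧ dV V b n ≤ g then |C (b, n)| / (dV V b n : ℝ) else 0) ≤
      (3 * (v : ℝ) / (((c : ℝ) + 1) * v + T)) *
        (if b < n ∧ dV W b n ≤ g then |C (b, n)| / (dV W b n : ℝ) else 0) := by
    intro b hb n hn
    by_cases hc : b < n ∧ dV V b n ≤ g
    · have hmono : dV W b n ≤ dV V b n := dV_mono hWV b n
      rw [if_pos hc, if_pos ⟨hc.1, hmono.trans hc.2⟩]
      rw [hU, mem_filter] at hb
      have h1 := hT b hb.1 n hn
      have h2 : 0 < (Vj.filter (fun m => m ≤ n)).card :=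
        Finset.card_pos.2 ⟨n, mem_filter.2 ⟨hn, le_rfl⟩⟩
      have h3 : c * v ≤ (V0.filter (fun b' => b < b')).card := by
        have := Nat.div_mul_le_self (p3_r V0 b) v
        rw [hb.2] at this
        exact this
      exact p3_coef hne (dV_pos (mem_union_right _ hn) hc.1) hmono
        ((dV_le_card W b n).trans hWc) (by omega) (abs_nonneg _)
    · rw [if_neg hc]
      exact mul_nonneg hm0 (hG0 b n)
  calc ∑ b ∈ U, ∑ n ∈ Vj, (if b < n ∧ dV V b n ≤ g then |C (b, n)| / (dV V b n : ℝ) else 0)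
      ≤ ∑ b ∈ U, ∑ n ∈ Vj, (3 * (v : ℝ) / (((c : ℝ) + 1) * v + T)) *
        (if b < n ∧ dV W b n ≤ g then |C (b, n)| / (dV W b n : ℝ) else 0) :=
        Finset.sum_le_sum (fun b hb => Finset.sum_le_sum (fun n hn => hpt b hb n hn))
    _ = (3 * (v : ℝ) / (((c : ℝ) + 1) * v + T)) * ∑ b ∈ U, ∑ n ∈ Vj,
        (if b < n ∧ dV W b n ≤ g then |C (b, n)| / (dV W b n : ℝ) else 0) := by
        rw [Finset.mul_sum]
        exact Finset.sum_congr rfl (fun b _ => (Finset.mul_sum _ _ _).symm)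
    _ ≤ (3 * (v : ℝ) / (((c : ℝ) + 1) * v + T)) * ∑ b ∈ W, ∑ n ∈ W,
        (if b < n ∧ dV W b n ≤ g then |C (b, n)| / (dV W b n : ℝ) else 0) := by
        refine mul_le_mul_of_nonneg_left ?_ hm0
        refine (Finset.sum_le_sum (fun b _ => Finset.sum_le_sum_of_subset_of_nonneg
          (t := W) (subset_union_right) (fun n _ _ => hG0 b n))).trans ?_
        exact Finset.sum_le_sum_of_subset_of_nonneg (subset_union_left)
          (fun b _ _ => Finset.sum_nonneg (fun n _ => hG0 b n))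
    _ ≤ (3 * (v : ℝ) / (((c : ℝ) + 1) * v + T)) * √(2 * (v : ℝ)) := by
        refine mul_le_mul_of_nonneg_left ?_ hm0
        refine (p3_NV_sum g C W (hC W)).trans (Real.sqrt_le_sqrt ?_)
        exact_mod_cast hWc

theorem chunk_bound (g : ℕ) (C : ℕ × ℕ → ℝ) (hC : ∀ V, NV g V C ≤ 1) (V V0 Vj : Finset ℕ)
    (hV0 : V0 ⊆ V) (hVj : Vj ⊆ V) (hne : 0 < Vj.card) (hlt : ∀ b ∈ V0, ∀ n ∈ Vj, b < n) (T : ℕ)
    (hT : ∀ b ∈ V0, ∀ n ∈ Vj, (V0.filter (fun b' => b < b')).card + T +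
      (Vj.filter (fun m => m ≤ n)).card ≤ dV V b n) :
    ∑ b ∈ V0, ∑ n ∈ Vj, (if b < n ∧ dV V b n ≤ g then |C (b, n)| / (dV V b n : ℝ) else 0) ≤
      12 * √(2 * (Vj.card : ℝ)) * √(√(1 + (V0.card : ℝ) / ((T + Vj.card : ℕ) : ℝ))) := by
  classical
  set v := Vj.card with hv
  set nC := V0.card / v + 1 with hnC
  have hv0 : (0 : ℝ) < v := by exact_mod_cast hne
  have hmaps : ∀ b ∈ V0, p3_r V0 b / v ∈ range nC := by
    intro b hb
    rw [mem_range, hnC]
    have := Nat.div_le_div_right (c := v) (p3_r_lt hb).le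
    omega
  rw [← Finset.sum_fiberwise_of_maps_to hmaps]
  have hσ : (0 : ℝ) ≤ (T : ℝ) / v := by positivity
  have hsum := chunk_sum nC hσ
  have hterm : ∀ c : ℕ, (3 * (v : ℝ) / (((c : ℝ) + 1) * v + T)) * √(2 * (v : ℝ))
      = (3 * √(2 * (v : ℝ))) * (1 / ((c : ℝ) + 1 + (T : ℝ) / v)) := by
    intro c
    have h1 : ((c : ℝ) + 1) * v + T = v * ((c : ℝ) + 1 + (T : ℝ) / v) := by
      field_simp
    have h2 : (0 : ℝ) < (c : ℝ) + 1 + (T : ℝ) / v := by positivity
    rw [h1]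
    field_simp
  calc ∑ c ∈ range nC, ∑ b ∈ V0 with p3_r V0 b / v = c, ∑ n ∈ Vj,
        (if b < n ∧ dV V b n ≤ g then |C (b, n)| / (dV V b n : ℝ) else 0)
      ≤ ∑ c ∈ range nC, (3 * (v : ℝ) / (((c : ℝ) + 1) * v + T)) * √(2 * (v : ℝ)) :=
        Finset.sum_le_sum (fun c _ => p3_chunk g C hC V V0 Vj hV0 hVj hne T hT c)
    _ = (3 * √(2 * (v : ℝ))) * ∑ c ∈ range nC, 1 / ((c : ℝ) + 1 + (T : ℝ) / v) := by
        rw [Finset.mul_sum]
        exact Finset.sum_congr rfl (fun c _ => hterm c)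
    _ ≤ (3 * √(2 * (v : ℝ))) * (4 * √(√(((nC : ℝ) + (T : ℝ) / v) / (1 + (T : ℝ) / v)))) :=
        mul_le_mul_of_nonneg_left hsum (by positivity)
    _ = 12 * √(2 * (v : ℝ)) * √(√(((nC : ℝ) + (T : ℝ) / v) / (1 + (T : ℝ) / v))) := by ring
    _ ≤ 12 * √(2 * (v : ℝ)) * √(√(1 + (V0.card : ℝ) / ((T + v : ℕ) : ℝ))) := by
        refine mul_le_mul_of_nonneg_left ?_ (by positivity)
        apply Real.sqrt_le_sqrt
        apply Real.sqrt_le_sqrt
        have h1 : (nC : ℝ) ≤ (V0.card : ℝ) / v + 1 := by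
          rw [hnC]
          push_cast
          have := Nat.cast_div_le (α := ℝ) (m := V0.card) (n := v)
          linarith
        have h2 : (0 : ℝ) < 1 + (T : ℝ) / v := by positivity
        rw [div_le_iff₀ h2]
        have h3 : (1 + (V0.card : ℝ) / ((T + v : ℕ) : ℝ)) * (1 + (T : ℝ) / v)
            = (V0.card : ℝ) / v + 1 + (T : ℝ) / v := by
          push_cast
          have h4 : (0 : ℝ) < (T : ℝ) + v := by positivity
          field_simp
          ring
        rw [h3]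
        linarith

end Pool.Agent.WB
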