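import Pool.Agent.Lib.MP_c7fb7b_an.P3

/-!
# P4: fixed rows (60 min)

`V0 = {b ∈ V | b < m0}`, `V_j = {n ∈ V | I j ≤ n < I (j+1)}`, `v j = |V_j|`, `a = |V0|`,
`s j = ∑_{b∈V0} ∑_{n∈V_j} [b<n, dV V b n ≤ g] |C j (b,n)| / dV V b n`.
`NV g V (∑_F C j) ≤ (√|V|)⁻¹ ∑_{j∈F} s j` (`|∑ C j| ≤ ∑ |C j|`, and `C j (b,n) ≠ 0` only for
`b < m0`, `n ∈ [I j, I (j+1))`).
For `v j > 0` apply `chunk_bound` with `T = ∑_{i∈F, i<j} v i`: for `b ∈ V0`, `n ∈ V_j` the set
`V ∩ (b, n]` contains the pairwise disjoint sets `{b' ∈ V0 | b < b'}`, `V_i` (`i ∈ F`, `i < j`;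
elements are `≥ I 0 ≥ m0 > b` and `< I (i+1) ≤ I j ≤ n`), `{m ∈ V_j | m ≤ n}`.
`T + v j = ∑_{i ∈ F, i ≤ j} v i`.  `num_total`: `∑ s j ≤ 24 √k √(a + ∑ v) ≤ 24 √k √|V|`
(`V0` and the `V_j` are disjoint subsets of `V`).  If `V` is empty everything is `0`.

# and blocks
`block_sum`: `∑_{j∈F} ∑_{b,n∈V} |D j(b,n)|/dV V b n` only sees `b, n ∈ V_j = V ∩ [I j, I(j+1))`, for
such `b < n` `dV V b n = dV V_j b n`; so it is `≤ ∑_j √|V_j| * NV g V_j (D j) ≤ ∑_j √|V_j| ≤
√k √(∑ |V_j|) ≤ √k √|V|` (Cauchy-Schwarz).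
-/

open Finset Filter Topology

namespace Pool.Agent.WB

/-- the columns of block `j` -/
def p4_blk (V : Finset ℕ) (I : ℕ → ℕ) (j : ℕ) : Finset ℕ :=
  V.filter (fun n => I j ≤ n ∧ n < I (j + 1))

theorem p4_mem {V : Finset ℕ} {I : ℕ → ℕ} {j n : ℕ} :
    n ∈ p4_blk V I j ↔ n ∈ V ∧ I j ≤ n ∧ n < I (j + 1) := by
  simp [p4_blk]

theorem p4_disj (V : Finset ℕ) {I : ℕ → ℕ} (hI : Monotone I) {i j : ℕ} (h : i ≠ j) :
    Disjoint (p4_blk V I i) (p4_blk V I j) := by
  rw [Finset.disjoint_left]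
  intro n hi hj
  rw [p4_mem] at hi hj
  rcases Nat.lt_or_gt_of_ne h with h' | h'
  · have := hI (show i + 1 ≤ j from h')
    omega
  · have := hI (show j + 1 ≤ i from h')
    omega

theorem p4_card (V : Finset ℕ) {I : ℕ → ℕ} (hI : Monotone I) (F : Finset ℕ) :
    ∑ j ∈ F, (p4_blk V I j).card = (F.biUnion (p4_blk V I)).card := by
  rw [Finset.card_biUnion]
  intro i _ j _ h
  exact p4_disj V hI h

theorem p4_tri (V F : Finset ℕ) (P : ℕ → ℕ → Prop) [∀ b n, Decidable (P b n)]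
    (d : ℕ → ℕ → ℝ) (hd : ∀ b n, 0 ≤ d b n) (C : ℕ → ℕ × ℕ → ℝ) :
    ∑ b ∈ V, ∑ n ∈ V, (if P b n then |(∑ j ∈ F, C j) (b, n)| / d b n else 0) ≤
      ∑ j ∈ F, ∑ b ∈ V, ∑ n ∈ V, (if P b n then |C j (b, n)| / d b n else 0) := by
  have h1 : ∑ j ∈ F, ∑ b ∈ V, ∑ n ∈ V, (if P b n then |C j (b, n)| / d b n else 0) =
      ∑ b ∈ V, ∑ n ∈ V, ∑ j ∈ F, (if P b n then |C j (b, n)| / d b n else 0) := by
    rw [Finset.sum_comm]
    refine Finset.sum_congr rfl fun b _ => ?_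
    rw [Finset.sum_comm]
  rw [h1]
  refine Finset.sum_le_sum fun b _ => Finset.sum_le_sum fun n _ => ?_
  by_cases h : P b n
  · simp only [if_pos h]
    rw [← Finset.sum_div]
    refine div_le_div_of_nonneg_right ?_ (hd b n)
    rw [Finset.sum_apply]
    exact Finset.abs_sum_le_sum_abs _ _
  · simp [if_neg h]

theorem p4_restrict (V A B : Finset ℕ) (hA : A ⊆ V) (hB : B ⊆ V) (f : ℕ → ℕ → ℝ)
    (hf : ∀ b ∈ V, ∀ n ∈ V, f b n ≠ 0 → b ∈ A ∧ n ∈ B) :
    ∑ b ∈ V, ∑ n ∈ V, f b n = ∑ b ∈ A, ∑ n ∈ B, f b n := by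
  have h1 : ∑ b ∈ V, ∑ n ∈ V, f b n = ∑ b ∈ A, ∑ n ∈ V, f b n := by
    symm
    refine Finset.sum_subset hA fun b hb hb' => ?_
    refine Finset.sum_eq_zero fun n hn => ?_
    by_contra hne
    exact hb' (hf b hb n hn hne).1
  rw [h1]
  refine Finset.sum_congr rfl fun b hb => ?_
  symm
  refine Finset.sum_subset hB fun n hn hn' => ?_
  by_contra hne
  exact hn' (hf b (hA hb) n hn hne).2

theorem fixed_rows (g k : ℕ) (F : Finset ℕ) (hF : F.card ≤ k) (m0 : ℕ) (I : ℕ → ℕ)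
    (hI : Monotone I) (hm : m0 ≤ I 0) (C : ℕ → ℕ × ℕ → ℝ) (hC : ∀ j V, NV g V (C j) ≤ 1)
    (hs : ∀ j b n, C j (b, n) ≠ 0 → b < m0 ∧ I j ≤ n ∧ n < I (j + 1)) (V : Finset ℕ) :
    NV g V (∑ j ∈ F, C j) ≤ 24 * √(k : ℝ) := by
  set V0 := V.filter (fun b => b < m0) with hV0
  set v : ℕ → ℕ := fun j => (p4_blk V I j).card with hv
  set s : ℕ → ℝ := fun j => ∑ b ∈ V0, ∑ n ∈ p4_blk V I j,
    (if b < n ∧ dV V b n ≤ g then |C j (b, n)| / (dV V b n : ℝ) else 0) with hsdef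
  have hV0V : V0 ⊆ V := Finset.filter_subset _ _
  have hblkV : ∀ j, p4_blk V I j ⊆ V := fun j => Finset.filter_subset _ _
  have hlt : ∀ j, ∀ b ∈ V0, ∀ n ∈ p4_blk V I j, b < n := by
    intro j b hb n hn
    rw [hV0, Finset.mem_filter] at hb
    rw [p4_mem] at hn
    have := hI (Nat.zero_le j)
    omega
  have h1 : ∑ b ∈ V, ∑ n ∈ V, (if b < n ∧ dV V b n ≤ g then
      |(∑ j ∈ F, C j) (b, n)| / (dV V b n : ℝ) else 0) ≤ ∑ j ∈ F, s j := by
    refine (p4_tri V F (fun b n => b < n ∧ dV V b n ≤ g) (fun b n => (dV V b n : ℝ))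
      (fun b n => Nat.cast_nonneg _) C).trans (le_of_eq ?_)
    refine Finset.sum_congr rfl fun j _ => ?_
    refine p4_restrict V V0 (p4_blk V I j) hV0V (hblkV j) _ ?_
    intro b hb n hn hne
    have hCne : C j (b, n) ≠ 0 := by
      intro h0
      apply hne
      rw [h0]
      simp
    obtain ⟨q1, q2, q3⟩ := hs j b n hCne
    exact ⟨Finset.mem_filter.2 ⟨hb, q1⟩, p4_mem.2 ⟨hn, q2, q3⟩⟩
  have h2 : ∑ j ∈ F, s j ≤ 24 * √(k : ℝ) * √((V0.card : ℝ) + ((∑ j ∈ F, v j : ℕ) : ℝ)) := by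
    refine num_total k F hF v V0.card s ?_ ?_
    · intro j _ hvj
      have hemp : p4_blk V I j = ∅ := Finset.card_eq_zero.1 hvj
      simp only [hsdef, hemp, Finset.sum_empty, Finset.sum_const_zero]
      exact le_rfl
    · intro j hj hvj
      set T := ∑ i ∈ F.filter (fun i => i < j), v i with hT
      have hTe : ∑ i ∈ F.filter (fun i => i ≤ j), v i = T + (p4_blk V I j).card := by
        have : F.filter (fun i => i ≤ j) = insert j (F.filter (fun i => i < j)) := by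
          ext i
          simp only [Finset.mem_filter, Finset.mem_insert]
          constructor
          · rintro ⟨q1, q2⟩
            rcases Nat.lt_or_eq_of_le q2 with q3 | q3
            · exact Or.inr ⟨q1, q3⟩
            · exact Or.inl q3
          · rintro (q | ⟨q1, q2⟩)
            · rw [q]; exact ⟨hj, le_rfl⟩
            · exact ⟨q1, q2.le⟩
        rw [this, Finset.sum_insert (by simp)]
        rw [add_comm]
      rw [hTe]
      refine chunk_bound g (C j) (hC j) V V0 (p4_blk V I j) hV0V (hblkV j) hvj (hlt j) T ?_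
      intro b hb n hn
      have hbm : b < m0 := (Finset.mem_filter.1 hb).2
      have hn' := p4_mem.1 hn
      have hI0 : I 0 ≤ I j := hI (Nat.zero_le j)
      rw [hT, p4_card V hI]
      have d1 : Disjoint (V0.filter (fun b' => b < b'))
          ((F.filter (fun i => i < j)).biUnion (p4_blk V I)) := by
        rw [Finset.disjoint_left]
        intro m q1 q2
        rw [Finset.mem_biUnion] at q2
        obtain ⟨i, _, q3⟩ := q2
        have q4 := (p4_mem.1 q3).2.1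
        have q5 := (Finset.mem_filter.1 (Finset.mem_filter.1 q1).1).2
        have q6 := hI (Nat.zero_le i)
        omega
      rw [← Finset.card_union_of_disjoint d1]
      have d2 : Disjoint (V0.filter (fun b' => b < b') ∪
          (F.filter (fun i => i < j)).biUnion (p4_blk V I))
          ((p4_blk V I j).filter (fun m => m ≤ n)) := by
        rw [Finset.disjoint_left]
        intro m q1 q2
        have q3 := (p4_mem.1 (Finset.mem_filter.1 q2).1).2.1
        rw [Finset.mem_union] at q1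
        rcases q1 with q1 | q1
        · have q5 := (Finset.mem_filter.1 (Finset.mem_filter.1 q1).1).2
          omega
        · rw [Finset.mem_biUnion] at q1
          obtain ⟨i, q6, q7⟩ := q1
          have q8 := (p4_mem.1 q7).2.2
          have q9 := (Finset.mem_filter.1 q6).2
          have q10 := hI (show i + 1 ≤ j from q9)
          omega
      rw [← Finset.card_union_of_disjoint d2]
      refine Finset.card_le_card ?_
      intro m hmem
      rw [Finset.mem_filter]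
      rw [Finset.mem_union, Finset.mem_union] at hmem
      rcases hmem with (q1 | q1) | q1
      · have q2 := Finset.mem_filter.1 q1
        have q3 := Finset.mem_filter.1 q2.1
        exact ⟨q3.1, q2.2, by omega⟩
      · rw [Finset.mem_biUnion] at q1
        obtain ⟨i, q6, q7⟩ := q1
        have q8 := p4_mem.1 q7
        have q9 := (Finset.mem_filter.1 q6).2
        have q10 := hI (show i + 1 ≤ j from q9)
        have q11 := hI (Nat.zero_le i)
        exact ⟨q8.1, by omega, by omega⟩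
      · have q2 := Finset.mem_filter.1 q1
        have q3 := p4_mem.1 q2.1
        exact ⟨q3.1, by omega, q2.2⟩
  have h3 : V0.card + ∑ j ∈ F, v j ≤ V.card := by
    have : ∑ j ∈ F, v j = (F.biUnion (p4_blk V I)).card := p4_card V hI F
    rw [this, ← Finset.card_union_of_disjoint]
    · refine Finset.card_le_card (Finset.union_subset hV0V ?_)
      intro m hm'
      rw [Finset.mem_biUnion] at hm'
      obtain ⟨i, _, q⟩ := hm'
      exact hblkV i q
    · rw [Finset.disjoint_left]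
      intro m q1 q2
      rw [Finset.mem_biUnion] at q2
      obtain ⟨i, _, q3⟩ := q2
      exact lt_irrefl _ (hlt i m q1 m q3)
  have h4 : √((V0.card : ℝ) + ((∑ j ∈ F, v j : ℕ) : ℝ)) ≤ √(V.card : ℝ) := by
    refine Real.sqrt_le_sqrt ?_
    exact_mod_cast h3
  unfold NV
  have h5 : ∑ b ∈ V, ∑ n ∈ V, (if b < n ∧ dV V b n ≤ g then
      |(∑ j ∈ F, C j) (b, n)| / (dV V b n : ℝ) else 0) ≤ 24 * √(k : ℝ) * √(V.card : ℝ) :=
    h1.trans (h2.trans (mul_le_mul_of_nonneg_left h4 (by positivity)))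
  rcases Nat.eq_zero_or_pos V.card with h0 | h0
  · rw [h0]
    simp
  · have hp : (0 : ℝ) < √(V.card : ℝ) := Real.sqrt_pos.2 (by exact_mod_cast h0)
    rw [inv_mul_le_iff₀ hp]
    linarith

theorem p4_NV_eq (g : ℕ) (W : Finset ℕ) (y : ℕ × ℕ → ℝ) :
    ∑ b ∈ W, ∑ n ∈ W, (if b < n ∧ dV W b n ≤ g then |y (b, n)| / (dV W b n : ℝ) else 0) =
      √(W.card : ℝ) * NV g W y := by
  unfold NV
  rcases Finset.eq_empty_or_nonempty W with h | h
  · subst h; simp
  · have hp : (0 : ℝ) < √(W.card : ℝ) :=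
      Real.sqrt_pos.2 (by exact_mod_cast Finset.card_pos.2 h)
    rw [← mul_assoc, mul_inv_cancel₀ hp.ne', one_mul]

theorem p4_dV (V : Finset ℕ) (I : ℕ → ℕ) (j b n : ℕ) (hb : I j ≤ b) (hn : n < I (j + 1)) :
    dV V b n = dV (p4_blk V I j) b n := by
  unfold dV
  congr 1
  ext m
  simp only [Finset.mem_filter, p4_mem]
  constructor
  · rintro ⟨q1, q2, q3⟩
    exact ⟨⟨q1, by omega, by omega⟩, q2, q3⟩
  · rintro ⟨⟨q1, _, _⟩, q2, q3⟩
    exact ⟨q1, q2, q3⟩

theorem block_sum (g k : ℕ) (F : Finset ℕ) (hF : F.card ≤ k) (I : ℕ → ℕ)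
    (hI : Monotone I) (D : ℕ → ℕ × ℕ → ℝ) (hD : ∀ j V, NV g V (D j) ≤ 1)
    (hs : ∀ j b n, D j (b, n) ≠ 0 → I j ≤ b ∧ I j ≤ n ∧ b < I (j + 1) ∧ n < I (j + 1))
    (V : Finset ℕ) : NV g V (∑ j ∈ F, D j) ≤ √(k : ℝ) := by
  have hblkV : ∀ j, p4_blk V I j ⊆ V := fun j => Finset.filter_subset _ _
  have h1 : ∑ b ∈ V, ∑ n ∈ V, (if b < n ∧ dV V b n ≤ g then
      |(∑ j ∈ F, D j) (b, n)| / (dV V b n : ℝ) else 0) ≤
      ∑ j ∈ F, √((p4_blk V I j).card : ℝ) := by
    refine (p4_tri V F (fun b n => b < n ∧ dV V b n ≤ g) (fun b n => (dV V b n : ℝ))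
      (fun b n => Nat.cast_nonneg _) D).trans ?_
    refine Finset.sum_le_sum fun j _ => ?_
    rw [p4_restrict V (p4_blk V I j) (p4_blk V I j) (hblkV j) (hblkV j)]
    · have e : ∑ b ∈ p4_blk V I j, ∑ n ∈ p4_blk V I j,
          (if b < n ∧ dV V b n ≤ g then |D j (b, n)| / (dV V b n : ℝ) else 0) =
          ∑ b ∈ p4_blk V I j, ∑ n ∈ p4_blk V I j,
          (if b < n ∧ dV (p4_blk V I j) b n ≤ g then
            |D j (b, n)| / (dV (p4_blk V I j) b n : ℝ) else 0) := by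
        refine Finset.sum_congr rfl fun b hb => Finset.sum_congr rfl fun n hn => ?_
        rw [p4_dV V I j b n (p4_mem.1 hb).2.1 (p4_mem.1 hn).2.2]
      rw [e, p4_NV_eq]
      have := mul_le_mul_of_nonneg_left (hD j (p4_blk V I j))
        (Real.sqrt_nonneg ((p4_blk V I j).card : ℝ))
      linarith
    · intro b hb n hn hne
      have hDne : D j (b, n) ≠ 0 := by
        intro h0
        apply hne
        rw [h0]
        simp
      obtain ⟨q1, q2, q3, q4⟩ := hs j b n hDne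
      exact ⟨p4_mem.2 ⟨hb, q1, q3⟩, p4_mem.2 ⟨hn, q2, q4⟩⟩
  have h2 : (∑ j ∈ F, √((p4_blk V I j).card : ℝ)) ^ 2 ≤ (k : ℝ) * (V.card : ℝ) := by
    refine (sq_sum_le_card_mul_sum_sq (s := F)
      (f := fun j => √((p4_blk V I j).card : ℝ))).trans ?_
    have e1 : ∑ j ∈ F, (√((p4_blk V I j).card : ℝ)) ^ 2 =
        ((∑ j ∈ F, (p4_blk V I j).card : ℕ) : ℝ) := by
      push_cast
      exact Finset.sum_congr rfl fun j _ => Real.sq_sqrt (Nat.cast_nonneg _)
    rw [e1, p4_card V hI]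
    have e2 : (F.biUnion (p4_blk V I)).card ≤ V.card := by
      refine Finset.card_le_card ?_
      intro m hm'
      rw [Finset.mem_biUnion] at hm'
      obtain ⟨i, _, q⟩ := hm'
      exact hblkV i q
    exact mul_le_mul (by exact_mod_cast hF) (by exact_mod_cast e2) (Nat.cast_nonneg _)
      (Nat.cast_nonneg _)
  have h3 : ∑ j ∈ F, √((p4_blk V I j).card : ℝ) ≤ √(k : ℝ) * √(V.card : ℝ) := by
    refine abs_le_of_sq_le_sq' ?_ (by positivity) |>.2
    rw [mul_pow, Real.sq_sqrt (Nat.cast_nonneg _), Real.sq_sqrt (Nat.cast_nonneg _)]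
    exact h2
  unfold NV
  rcases Nat.eq_zero_or_pos V.card with h0 | h0
  · rw [h0]
    simp
  · have hp : (0 : ℝ) < √(V.card : ℝ) := Real.sqrt_pos.2 (by exact_mod_cast h0)
    rw [inv_mul_le_iff₀ hp]
    have := h1.trans h3
    linarith

end Pool.Agent.WB
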