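import Pool.Agent.Lib.MP_c7fb7b_an.Defs

/-!
# P5: limits of row suprema (75 min)

`hbd` with the functional `N1 G m nn` gives `∑_{b<m} |y q (b, max m (nn b))| ≤ G` for all `m`, `nn`.
Let `ρ_q b = sup_{n > b} |y q (b, n)|` (finite support, or `⨆`; bounded by `G`: `m = b+1`).
`T_q m = ∑_{b<m} sup_{n ≥ m} |y q (b,n)| ≤ G` (choose `nn b` attaining the maximum; finite support).
`0 ≤ ρ_q b - sup_{n≥m} |y q (b,n)| ≤ ∑_{n<m} |y q (b,n)|` for `b < m`, which tends to `0` as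
`q → ∞` for fixed `m`.
Compactness: `ρ_q ∈ Set.pi univ (fun _ => Icc 0 G)`, compact in `ℕ → ℝ` (`isCompact_univ_pi`),
so for the enumeration of `M₀` there is a subsequence with `ρ_q → ρ'` coordinatewise
(`IsCompact.tendsto_subseq`).  `∑_{b<m} ρ' b ≤ G` for all `m` (limit of `T_q m + o(1)`).  So
`∑ ρ'` is summable; choose `m0` with `∑_{m0 ≤ b < m} ρ' b ≤ ε/2` for all `m`
(monotone bounded partial sums).
`ρ b = ρ' b + 1/(m0+1)` for `b < m0`; `M₁` = the subsequence from some index on, so that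
`ρ_q b ≤ ρ b` for the finitely many `b < m0`; `∑_{b<m0} ρ b ≤ G + 1`.
For fixed `m`: `∑_{b,n<m} |y q (b,n)| → 0`, and with `r = ρ_q`: `∑_{m0≤b<m} ρ_q b →
∑_{m0≤b<m} ρ' b ≤ ε/2`, so `≤ ε` eventually.
-/

open Finset Filter Topology

namespace Pool.Agent.WB

theorem p5_exists_max (f : ℕ → ℝ) (hf : (Function.support f).Finite) (h0 : ∀ n, 0 ≤ f n) :
    ∃ n, ∀ k, f k ≤ f n := by
  by_cases hne : (Function.support f).Nonempty
  · obtain ⟨n, _, hn⟩ := hf.toFinset.exists_max_image f (by simpa using hne)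
    refine ⟨n, fun k => ?_⟩
    by_cases hk : f k = 0
    · rw [hk]
      exact h0 n
    · exact hn k (by simpa using hk)
  · refine ⟨0, fun k => ?_⟩
    have hk : f k = 0 := by
      by_contra hk
      exact hne ⟨k, hk⟩
    rw [hk]
    exact h0 0

theorem p5_row_finite (y : ℕ × ℕ → ℝ) (hy : (Function.support y).Finite) (b m : ℕ) :
    ∃ n₀, ∀ n, |y (b, max m n)| ≤ |y (b, max m n₀)| := by
  obtain ⟨n₀, hn₀⟩ := p5_exists_max (fun n => if m ≤ n then |y (b, n)| else 0) (by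
    have h1 : (Prod.snd '' (Function.support y)).Finite := hy.image _
    refine h1.subset (fun n hn => ?_)
    simp only [Function.mem_support, ne_eq, ite_eq_right_iff, abs_eq_zero, Classical.not_imp] at hn
    exact ⟨(b, n), hn.2, rfl⟩) (fun n => by positivity)
  by_cases hm : m ≤ n₀
  · refine ⟨n₀, fun n => ?_⟩
    have := hn₀ (max m n)
    simpa [hm] using this
  · refine ⟨0, fun n => ?_⟩
    have := hn₀ (max m n)
    simp [hm] at this
    rw [this, abs_zero]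
    exact abs_nonneg _

theorem row_limit (g : ℕ) (G : ℝ) (hG : 1 ≤ G) (y : ℕ → ℕ × ℕ → ℝ)
    (hfin : ∀ q, (Function.support (y q)).Finite) (hbd : ∀ q, Bd (EN g G) (y q) 1)
    (hnull : ∀ e, Tendsto (fun q => y q e) atTop (𝓝 0)) (M₀ : Set ℕ) (hM₀ : M₀.Infinite)
    (ε : ℝ) (hε : 0 < ε) :
    ∃ (m0 : ℕ) (ρ : ℕ → ℝ) (M₁ : Set ℕ), M₁ ⊆ M₀ ∧ M₁.Infinite ∧ (∀ b, 0 ≤ ρ b) ∧
      ∑ b ∈ range m0, ρ b ≤ G + 1 ∧
      (∀ q ∈ M₁, ∀ b < m0, ∀ n, b < n → |y q (b, n)| ≤ ρ b) ∧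
      ∀ m, ∀ᶠ q in atTop, q ∈ M₁ → (∑ b ∈ range m, ∑ n ∈ range m, |y q (b, n)|) ≤ ε ∧
        ∃ r : ℕ → ℝ, (∀ b, 0 ≤ r b) ∧ (∀ b n, b < n → |y q (b, n)| ≤ r b) ∧
          ∑ b ∈ Ico m0 m, r b ≤ ε := by
  classical
  have hGpos : 0 < G := lt_of_lt_of_le one_pos hG
  choose nb hnb using fun q m b => p5_row_finite (y q) (hfin q) b m
  -- maxima over `n ≥ m`
  let σ : ℕ → ℕ → ℕ → ℝ := fun q m b => |y q (b, max m (nb q m b))|
  have hσ0 : ∀ q m b, 0 ≤ σ q m b := fun q m b => abs_nonneg _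
  have hσ : ∀ q m b n, m ≤ n → |y q (b, n)| ≤ σ q m b := by
    intro q m b n hn
    have := hnb q m b n
    rwa [max_eq_right hn] at this
  have hT : ∀ q m, ∑ b ∈ range m, σ q m b ≤ G := by
    intro q m
    have h1 := hbd q (false, ∅, m, nb q m)
    simp only [EN, N1, Bool.false_eq_true, if_false] at h1
    rw [inv_mul_le_iff₀ hGpos, mul_one] at h1
    exact h1
  let ρq : ℕ → ℕ → ℝ := fun q b => σ q (b + 1) b
  have hρ0 : ∀ q b, 0 ≤ ρq q b := fun q b => hσ0 _ _ _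
  have hρG : ∀ q b, ρq q b ≤ G := by
    intro q b
    refine le_trans ?_ (hT q (b + 1))
    exact Finset.single_le_sum (f := fun b' => σ q (b + 1) b') (fun i _ => hσ0 _ _ _)
      (Finset.mem_range.2 (Nat.lt_succ_self b))
  have hρy : ∀ q b n, b < n → |y q (b, n)| ≤ ρq q b := fun q b n hn => hσ q (b + 1) b n hn
  have hρσ : ∀ q m b, ρq q b ≤ σ q m b + ∑ n ∈ range m, |y q (b, n)| := by
    intro q m b
    have h2 : ρq q b = |y q (b, max (b + 1) (nb q (b + 1) b))| := rfl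
    rw [h2]
    by_cases hm : m ≤ max (b + 1) (nb q (b + 1) b)
    · have h3 := hσ q m b _ hm
      have h4 : 0 ≤ ∑ n ∈ range m, |y q (b, n)| := Finset.sum_nonneg (fun _ _ => abs_nonneg _)
      linarith
    · push Not at hm
      have h3 := Finset.single_le_sum (f := fun n => |y q (b, n)|) (fun i _ => abs_nonneg _)
        (Finset.mem_range.2 hm)
      have h4 := hσ0 q m b
      linarith
  -- tiny squares
  have hsq : ∀ m, Tendsto (fun q => ∑ b ∈ range m, ∑ n ∈ range m, |y q (b, n)|) atTop (𝓝 0) := by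
    intro m
    have h1 : Tendsto (fun q => ∑ b ∈ range m, ∑ n ∈ range m, |y q (b, n)|) atTop
        (𝓝 (∑ b ∈ range m, ∑ n ∈ range m, |(0 : ℝ)|)) :=
      tendsto_finsetSum _ (fun b _ => tendsto_finsetSum _ (fun n _ => (hnull (b, n)).abs))
    simpa using h1
  -- compactness
  have hinf : {n | n ∈ M₀}.Infinite := hM₀
  let e : ℕ → ℕ := Nat.nth (fun n => n ∈ M₀)
  have he : StrictMono e := Nat.nth_strictMono hinf
  have heM : ∀ i, e i ∈ M₀ := fun i => Nat.nth_mem_of_infinite hinf i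
  have hcomp : IsCompact (Set.pi Set.univ (fun _ : ℕ => Set.Icc (0 : ℝ) G)) :=
    isCompact_univ_pi (fun _ => isCompact_Icc)
  obtain ⟨ρ', _, φ, hφ, hlim⟩ := hcomp.tendsto_subseq (x := fun i => ρq (e i))
    (fun i b _ => ⟨hρ0 _ _, hρG _ _⟩)
  let θ : ℕ → ℕ := fun i => e (φ i)
  have hθ : StrictMono θ := he.comp hφ
  have hθt : Tendsto θ atTop atTop := hθ.tendsto_atTop
  have hθM : ∀ i, θ i ∈ M₀ := fun i => heM _
  have hlimb : ∀ b, Tendsto (fun i => ρq (θ i) b) atTop (𝓝 (ρ' b)) := by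
    intro b
    exact (tendsto_pi_nhds.1 hlim) b
  have hρ'0 : ∀ b, 0 ≤ ρ' b := fun b => ge_of_tendsto' (hlimb b) (fun i => hρ0 _ _)
  have hpart : ∀ m, ∑ b ∈ range m, ρ' b ≤ G := by
    intro m
    have h1 : Tendsto (fun i => ∑ b ∈ range m, ρq (θ i) b) atTop (𝓝 (∑ b ∈ range m, ρ' b)) :=
      tendsto_finsetSum _ (fun b _ => hlimb b)
    have h2 : Tendsto (fun i => G + ∑ b ∈ range m, ∑ n ∈ range m, |y (θ i) (b, n)|) atTop
        (𝓝 (G + 0)) := tendsto_const_nhds.add ((hsq m).comp hθt)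
    rw [add_zero] at h2
    refine le_of_tendsto_of_tendsto' h1 h2 (fun i => ?_)
    calc ∑ b ∈ range m, ρq (θ i) b
        ≤ ∑ b ∈ range m, (σ (θ i) m b + ∑ n ∈ range m, |y (θ i) (b, n)|) :=
          Finset.sum_le_sum (fun b _ => hρσ _ _ _)
      _ ≤ G + ∑ b ∈ range m, ∑ n ∈ range m, |y (θ i) (b, n)| := by
          rw [Finset.sum_add_distrib]
          exact add_le_add (hT _ _) le_rfl
  have hsum : Summable ρ' := summable_of_sum_range_le hρ'0 hpart
  have htail : ∃ m0, (∑' b, ρ' b) - ε / 2 < ∑ b ∈ range m0, ρ' b := by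
    have h1 := hsum.hasSum.tendsto_sum_nat
    have h2 : ∀ᶠ m in atTop, (∑' b, ρ' b) - ε / 2 < ∑ b ∈ range m, ρ' b :=
      h1.eventually (lt_mem_nhds (by linarith))
    exact h2.exists
  obtain ⟨m0, hm0⟩ := htail
  have hIco : ∀ m, ∑ b ∈ Ico m0 m, ρ' b ≤ ε / 2 := by
    intro m
    by_cases hm : m0 ≤ m
    · rw [Finset.sum_Ico_eq_sub _ hm]
      have h1 : ∑ b ∈ range m, ρ' b ≤ ∑' b, ρ' b := hsum.sum_le_tsum _ (fun b _ => hρ'0 b)
      linarith
    · rw [Finset.Ico_eq_empty (by omega), Finset.sum_empty]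
      positivity
  -- the sequence from some index on
  have hev : ∀ᶠ i in atTop, ∀ b ∈ range m0, ρq (θ i) b < ρ' b + 1 / ((m0 : ℝ) + 1) := by
    rw [Filter.eventually_all_finset]
    intro b _
    exact (hlimb b).eventually (gt_mem_nhds (by
      have : (0 : ℝ) < 1 / ((m0 : ℝ) + 1) := by positivity
      linarith))
  obtain ⟨i₀, hi₀⟩ := eventually_atTop.1 hev
  refine ⟨m0, fun b => ρ' b + 1 / ((m0 : ℝ) + 1), Set.range (fun i => θ (i + i₀)), ?_, ?_, ?_, ?_,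
    ?_, ?_⟩
  · rintro _ ⟨i, rfl⟩
    exact hθM _
  · apply Set.infinite_range_of_injective
    intro i j hij
    have := hθ.injective hij
    omega
  · intro b
    have := hρ'0 b
    positivity
  · rw [Finset.sum_add_distrib, Finset.sum_const, Finset.card_range, nsmul_eq_mul]
    have h1 := hpart m0
    have h2 : (m0 : ℝ) * (1 / ((m0 : ℝ) + 1)) ≤ 1 := by
      rw [mul_one_div, div_le_one (by positivity)]
      linarith
    linarith
  · rintro _ ⟨i, rfl⟩ b hb n hn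
    refine (hρy _ _ _ hn).trans ?_
    exact (hi₀ (i + i₀) (by omega) b (Finset.mem_range.2 hb)).le
  · intro m
    have h1 : ∀ᶠ q in atTop, ∑ b ∈ range m, ∑ n ∈ range m, |y q (b, n)| < ε :=
      (hsq m).eventually (gt_mem_nhds hε)
    have h2 : Tendsto (fun i => ∑ b ∈ Ico m0 m, ρq (θ i) b) atTop (𝓝 (∑ b ∈ Ico m0 m, ρ' b)) :=
      tendsto_finsetSum _ (fun b _ => hlimb b)
    have h3 : ∀ᶠ i in atTop, ∑ b ∈ Ico m0 m, ρq (θ i) b < ε :=
      h2.eventually (gt_mem_nhds (lt_of_le_of_lt (hIco m) (by linarith)))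
    obtain ⟨i₁, hi₁⟩ := eventually_atTop.1 h3
    filter_upwards [h1, eventually_ge_atTop (θ i₁)] with q hq1 hq2
    rintro ⟨i, rfl⟩
    refine ⟨hq1.le, ρq (θ (i + i₀)), hρ0 _, hρy _, ?_⟩
    exact (hi₁ (i + i₀) (hθ.le_iff_le.1 hq2)).le

/-- Selection of a subsequence together with intervals. -/
theorem selection (y : ℕ → ℕ × ℕ → ℝ) (hfin : ∀ q, (Function.support (y q)).Finite)
    (M₁ : Set ℕ) (hM₁ : M₁.Infinite) (Pr : ℕ → ℕ → Prop)
    (hPr : ∀ m, ∀ᶠ q in atTop, q ∈ M₁ → Pr q m) (m0 : ℕ) :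
    ∃ (φ I : ℕ → ℕ), StrictMono φ ∧ Monotone I ∧ m0 ≤ I 0 ∧ (∀ j, φ j ∈ M₁) ∧
      (∀ j, Pr (φ j) (I j)) ∧
      ∀ j b n, y (φ j) (b, n) ≠ 0 → b < I (j + 1) ∧ n < I (j + 1) := by
  classical
  have h1 : ∀ q m, ∃ q' ∈ M₁, q < q' ∧ Pr q' m := by
    intro q m
    obtain ⟨n₀, hn₀⟩ := eventually_atTop.1 (hPr m)
    obtain ⟨q', hq', hlt⟩ := hM₁.exists_gt (max n₀ q)
    exact ⟨q', hq', lt_of_le_of_lt (le_max_right _ _) hlt,
      hn₀ q' ((le_max_left _ _).trans hlt.le) hq'⟩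
  choose nxt hM hlt hP using h1
  have h2 : ∀ q, ∃ B, ∀ b n, y q (b, n) ≠ 0 → b < B ∧ n < B := by
    intro q
    refine ⟨(hfin q).toFinset.sup (fun e => e.1 + e.2 + 1), fun b n hbn => ?_⟩
    have h3 : (b, n) ∈ (hfin q).toFinset := by simpa using hbn
    have h4 := Finset.le_sup (f := fun e : ℕ × ℕ => e.1 + e.2 + 1) h3
    simp only at h4
    constructor <;> omega
  choose B hB using h2
  let st : ℕ → ℕ × ℕ := fun j => Nat.rec (m0, nxt 0 m0)
    (fun _ p => (max p.1 (B p.2), nxt p.2 (max p.1 (B p.2)))) j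
  have hst : ∀ j, st (j + 1) = (max (st j).1 (B (st j).2), nxt (st j).2 (max (st j).1 (B (st j).2))) :=
    fun j => rfl
  refine ⟨fun j => (st j).2, fun j => (st j).1, ?_, ?_, le_rfl, ?_, ?_, ?_⟩
  · refine strictMono_nat_of_lt_succ (fun j => ?_)
    show (st j).2 < (st (j + 1)).2
    rw [hst]
    exact hlt _ _
  · refine monotone_nat_of_le_succ (fun j => ?_)
    show (st j).1 ≤ (st (j + 1)).1
    rw [hst]
    exact le_max_left _ _
  · intro j
    cases j with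
    | zero => exact hM _ _
    | succ j =>
      show (st (j + 1)).2 ∈ M₁
      rw [hst]
      exact hM _ _
  · intro j
    cases j with
    | zero => exact hP _ _
    | succ j =>
      show Pr (st (j + 1)).2 (st (j + 1)).1
      rw [hst]
      exact hP _ _
  · intro j b n hbn
    show b < (st (j + 1)).1 ∧ n < (st (j + 1)).1
    rw [hst]
    have := hB _ b n hbn
    exact ⟨this.1.trans_le (le_max_right _ _), this.2.trans_le (le_max_right _ _)⟩

end Pool.Agent.WB
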