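import Pool.Agent.Lib.MP_c7fb7b_an.P4
import Pool.Agent.Lib.MP_c7fb7b_an.P5
import Pool.Agent.Lib.MP_c7fb7b_an.Q2
import Pool.Agent.Lib.MP_c7fb7b_an.S1

/-!
# P6: the subsequence property of the edge spaces (90 min)

`k = 0`: `M = M₀`, the sum is `0`.  `k ≥ 1`: `row_limit` with `ε = 1/k`, then `selection` with
`Pr q m` = the two conclusions of the last line of `row_limit`; `M = range φ`.
A finite `F' ⊆ M` with `|F'| ≤ k` is the image of a finite `F` with `|F| ≤ k`; `Y j = y (φ j)`.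
Decompose for every `j`: off the edges (`b ≥ n`) nothing is seen by `NV`, `N1`.  For `b < n`:
 `T j`: `n < I j`;  `A j`: `m0 ≤ b < I j ≤ n`;  `C j`: `b < m0`, `I j ≤ n`;  `D j`: `I j ≤ b`.
(`n < I (j+1)` on the support.)  All four are restrictions of `Y j`, so `NV g V · ≤ 1`.
`NV g V (∑_F Y) ≤ ∑_F NV g V (T j) + ∑_F NV g V (A j) + NV g V (∑ C j) + NV g V (∑ D j)
 ≤ k/k + 2 k/k + 24√k + √k ≤ 28 √k` (`NV_le_sum`, `NV_row` with `R = Ico m0 (I j)`, `fixed_rows`,
`block_sum`).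
`N1 G m nn`, `n_b = max m (nn b) ≥ m > b`: `∑_{b<m} |∑_F T j(b,n_b)| ≤ ∑_F ε ≤ 1`;
the same for `A`; `D j (b,n_b) ≠ 0` requires `I j ≤ b < m ≤ n_b < I (j+1)`, so `I j < m < I (j+1)`,
for at most one `j`, contribution `≤ G` (`N1 G m nn (Y j) ≤ 1`);  `C`: for fixed `b < m0` at most
one `j` has `I j ≤ n_b < I (j+1)`, so `|∑_F C j (b,n_b)| ≤ ρ b`, sum `≤ G + 1`.
Total `≤ G⁻¹ (1 + 1 + G + G + 1) ≤ 5 ≤ 28 √k`.
-/

open Finset Filter Topology

namespace Pool.Agent.WB

theorem p6_NV_congr (g : ℕ) (V : Finset ℕ) {y z : ℕ × ℕ → ℝ}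
    (h : ∀ b n, b < n → y (b, n) = z (b, n)) : NV g V y = NV g V z := by
  unfold NV
  congr 1
  refine Finset.sum_congr rfl fun b _ => Finset.sum_congr rfl fun n _ => ?_
  by_cases hbn : b < n ∧ dV V b n ≤ g
  · rw [if_pos hbn, if_pos hbn, h b n hbn.1]
  · rw [if_neg hbn, if_neg hbn]

theorem p6_NV_add (g : ℕ) (V : Finset ℕ) (y z : ℕ × ℕ → ℝ) :
    NV g V (y + z) ≤ NV g V y + NV g V z := by
  have h := (lat_EN g (le_refl (1 : ℝ))).add_le (true, V, 0, id) y z
  simpa [EN] using h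

theorem p6_NV_sum (g : ℕ) (V : Finset ℕ) (F : Finset ℕ) (y : ℕ → ℕ × ℕ → ℝ) :
    NV g V (∑ j ∈ F, y j) ≤ ∑ j ∈ F, NV g V (y j) := by
  have h := (lat_EN g (le_refl (1 : ℝ))).sum_le (true, V, 0, id) F y
  simpa [EN] using h

theorem p6_NV_mono (g : ℕ) (V : Finset ℕ) {y z : ℕ × ℕ → ℝ} (hyz : ∀ e, |y e| ≤ |z e|) :
    NV g V y ≤ NV g V z := by
  have h := (lat_EN g (le_refl (1 : ℝ))).mono (true, V, 0, id) y z hyz
  simpa [EN] using h

theorem p6_NV_le {g : ℕ} {G : ℝ} {y : ℕ × ℕ → ℝ} (h : Bd (EN g G) y 1) (V : Finset ℕ) :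
    NV g V y ≤ 1 := by
  have := h (true, V, 0, id)
  simpa [EN] using this

theorem p6_N1_le {g : ℕ} {G : ℝ} {y : ℕ × ℕ → ℝ} (h : Bd (EN g G) y 1) (m : ℕ) (nn : ℕ → ℕ) :
    N1 G m nn y ≤ 1 := by
  have := h (false, ∅, m, nn)
  simpa [EN] using this

/-- restriction -/
noncomputable def p6_rs (p : ℕ → ℕ → Prop) (y : ℕ × ℕ → ℝ) : ℕ × ℕ → ℝ := by
  classical
  exact fun e => if p e.1 e.2 then y e else 0

theorem p6_rs_pos {p : ℕ → ℕ → Prop} {y : ℕ × ℕ → ℝ} {b n : ℕ} (h : p b n) :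
    p6_rs p y (b, n) = y (b, n) := by
  unfold p6_rs
  exact if_pos h

theorem p6_rs_neg {p : ℕ → ℕ → Prop} {y : ℕ × ℕ → ℝ} {b n : ℕ} (h : ¬ p b n) :
    p6_rs p y (b, n) = 0 := by
  unfold p6_rs
  exact if_neg h

theorem p6_rs_ne {p : ℕ → ℕ → Prop} {y : ℕ × ℕ → ℝ} {b n : ℕ} (h : p6_rs p y (b, n) ≠ 0) :
    p b n ∧ y (b, n) ≠ 0 := by
  by_cases hp : p b n
  · rw [p6_rs_pos hp] at h
    exact ⟨hp, h⟩
  · exact absurd (p6_rs_neg hp) h

theorem p6_rs_le (p : ℕ → ℕ → Prop) (y : ℕ × ℕ → ℝ) (e : ℕ × ℕ) : |p6_rs p y e| ≤ |y e| := by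
  obtain ⟨b, n⟩ := e
  by_cases hp : p b n
  · rw [p6_rs_pos hp]
  · rw [p6_rs_neg hp, abs_zero]
    exact abs_nonneg _

/-- the main estimate -/
theorem p6_main (g : ℕ) (G : ℝ) (hG : 1 ≤ G) (k : ℕ) (hk : 1 ≤ k) (Y : ℕ → ℕ × ℕ → ℝ)
    (hbd : ∀ j, Bd (EN g G) (Y j) 1) (m0 : ℕ) (ρ : ℕ → ℝ) (hρ : ∀ b, 0 ≤ ρ b)
    (hρs : ∑ b ∈ range m0, ρ b ≤ G + 1) (I : ℕ → ℕ) (hI : Monotone I) (hm0 : m0 ≤ I 0)
    (hrow : ∀ j, ∀ b < m0, ∀ n, b < n → |Y j (b, n)| ≤ ρ b)
    (hsmall : ∀ j, (∑ b ∈ range (I j), ∑ n ∈ range (I j), |Y j (b, n)|) ≤ 1 / (k : ℝ))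
    (hr : ∀ j, ∃ r : ℕ → ℝ, (∀ b, 0 ≤ r b) ∧ (∀ b n, b < n → |Y j (b, n)| ≤ r b) ∧
      ∑ b ∈ Ico m0 (I j), r b ≤ 1 / (k : ℝ))
    (hsup : ∀ j b n, Y j (b, n) ≠ 0 → b < I (j + 1) ∧ n < I (j + 1))
    (F : Finset ℕ) (hF : F.card ≤ k) : Bd (EN g G) (∑ j ∈ F, Y j) (28 * √(k : ℝ)) := by
  have hkr : (1 : ℝ) ≤ k := by exact_mod_cast hk
  have hsq : (1 : ℝ) ≤ √(k : ℝ) := by
    rw [Real.one_le_sqrt]
    exact hkr
  have hFk : (F.card : ℝ) ≤ k := by exact_mod_cast hF
  have hFε : (F.card : ℝ) * (1 / (k : ℝ)) ≤ 1 := by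
    rw [mul_one_div, div_le_one (by linarith)]
    exact hFk
  have hmI : ∀ j, m0 ≤ I j := fun j => hm0.trans (hI (Nat.zero_le j))
  choose r hr0 hr1 hr2 using hr
  set T : ℕ → ℕ × ℕ → ℝ := fun j => p6_rs (fun b n => b < n ∧ n < I j) (Y j) with hT
  set A : ℕ → ℕ × ℕ → ℝ :=
    fun j => p6_rs (fun b n => b < n ∧ I j ≤ n ∧ m0 ≤ b ∧ b < I j) (Y j) with hA
  set C : ℕ → ℕ × ℕ → ℝ := fun j => p6_rs (fun b n => b < n ∧ I j ≤ n ∧ b < m0) (Y j) with hC
  set D : ℕ → ℕ × ℕ → ℝ := fun j => p6_rs (fun b n => b < n ∧ I j ≤ b) (Y j) with hD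
  have hdec : ∀ j b n, b < n → Y j (b, n) = T j (b, n) + A j (b, n) + C j (b, n) + D j (b, n) := by
    intro j b n hbn
    have h0 := hmI j
    by_cases h1 : n < I j
    · have e1 : T j (b, n) = Y j (b, n) := p6_rs_pos ⟨hbn, h1⟩
      have e2 : A j (b, n) = 0 := p6_rs_neg (fun h => by omega)
      have e3 : C j (b, n) = 0 := p6_rs_neg (fun h => by omega)
      have e4 : D j (b, n) = 0 := p6_rs_neg (fun h => by omega)
      rw [e1, e2, e3, e4]
      ring
    · have e1 : T j (b, n) = 0 := p6_rs_neg (fun h => by omega)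
      by_cases h2 : I j ≤ b
      · have e2 : A j (b, n) = 0 := p6_rs_neg (fun h => by omega)
        have e3 : C j (b, n) = 0 := p6_rs_neg (fun h => by omega)
        have e4 : D j (b, n) = Y j (b, n) := p6_rs_pos ⟨hbn, h2⟩
        rw [e1, e2, e3, e4]
        ring
      · have e4 : D j (b, n) = 0 := p6_rs_neg (fun h => by omega)
        by_cases h3 : b < m0
        · have e2 : A j (b, n) = 0 := p6_rs_neg (fun h => by omega)
          have e3 : C j (b, n) = Y j (b, n) := p6_rs_pos ⟨hbn, by omega, h3⟩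
          rw [e1, e2, e3, e4]
          ring
        · have e2 : A j (b, n) = Y j (b, n) := p6_rs_pos ⟨hbn, by omega, by omega, by omega⟩
          have e3 : C j (b, n) = 0 := p6_rs_neg (fun h => by omega)
          rw [e1, e2, e3, e4]
          ring
  have hdecS : ∀ b n, b < n → (∑ j ∈ F, Y j) (b, n) =
      (∑ j ∈ F, T j + ∑ j ∈ F, A j + ∑ j ∈ F, C j + ∑ j ∈ F, D j) (b, n) := by
    intro b n hbn
    simp only [Pi.add_apply, Finset.sum_apply]
    rw [← Finset.sum_add_distrib, ← Finset.sum_add_distrib, ← Finset.sum_add_distrib]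
    exact Finset.sum_congr rfl fun j _ => hdec j b n hbn
  -- the pieces
  have hNVle : ∀ (p : ℕ → ℕ → Prop) j V, NV g V (p6_rs p (Y j)) ≤ 1 := fun p j V =>
    (p6_NV_mono g V (p6_rs_le p (Y j))).trans (p6_NV_le (hbd j) V)
  have hNVT : ∀ V, NV g V (∑ j ∈ F, T j) ≤ 1 := by
    intro V
    refine (p6_NV_sum g V F T).trans ?_
    have h1 : ∀ j ∈ F, NV g V (T j) ≤ 1 / (k : ℝ) := by
      intro j _
      refine (NV_le_sum g V (T j) (range (I j) ×ˢ range (I j)) ?_).trans ?_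
      · rintro ⟨b, n⟩ he
        by_contra hne
        have h2 := (p6_rs_ne hne).1
        apply he
        simp only [Finset.mem_product, Finset.mem_range]
        omega
      · rw [Finset.sum_product]
        refine le_trans ?_ (hsmall j)
        exact Finset.sum_le_sum fun b _ => Finset.sum_le_sum fun n _ => p6_rs_le _ _ _
    calc ∑ j ∈ F, NV g V (T j) ≤ ∑ _j ∈ F, 1 / (k : ℝ) := Finset.sum_le_sum h1
      _ = F.card * (1 / (k : ℝ)) := by rw [Finset.sum_const, nsmul_eq_mul]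
      _ ≤ 1 := hFε
  have hNVA : ∀ V, NV g V (∑ j ∈ F, A j) ≤ 2 := by
    intro V
    refine (p6_NV_sum g V F A).trans ?_
    have h1 : ∀ j ∈ F, NV g V (A j) ≤ 2 * (1 / (k : ℝ)) := by
      intro j _
      refine (NV_row g V (Ico m0 (I j)) (A j) (r j) (hr0 j) ?_ ?_).trans ?_
      · intro b n hbn _
        exact (p6_rs_le _ _ _).trans (hr1 j b n hbn)
      · intro b n hb
        by_contra hne
        have h2 := (p6_rs_ne hne).1
        apply hb
        rw [Finset.mem_Ico]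
        omega
      · have := hr2 j
        linarith
    calc ∑ j ∈ F, NV g V (A j) ≤ ∑ _j ∈ F, 2 * (1 / (k : ℝ)) := Finset.sum_le_sum h1
      _ = 2 * (F.card * (1 / (k : ℝ))) := by
        rw [Finset.sum_const, nsmul_eq_mul]
        ring
      _ ≤ 2 := by linarith
  have hNVC : ∀ V, NV g V (∑ j ∈ F, C j) ≤ 24 * √(k : ℝ) := by
    intro V
    refine fixed_rows g k F hF m0 I hI hm0 C (fun j V => hNVle _ j V) ?_ V
    intro j b n hne
    have h2 := p6_rs_ne hne
    exact ⟨h2.1.2.2, h2.1.2.1, (hsup j b n h2.2).2⟩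
  have hNVD : ∀ V, NV g V (∑ j ∈ F, D j) ≤ √(k : ℝ) := by
    intro V
    refine block_sum g k F hF I hI D (fun j V => hNVle _ j V) ?_ V
    intro j b n hne
    have h2 := p6_rs_ne hne
    have h3 := hsup j b n h2.2
    exact ⟨h2.1.2, h2.1.2.trans h2.1.1.le, h3.1, h3.2⟩
  rintro ⟨tt, V, m, nn⟩
  cases tt with
  | true =>
    have e0 : EN g G (true, V, m, nn) (∑ j ∈ F, Y j) = NV g V (∑ j ∈ F, Y j) := by
      simp [EN]
    rw [e0, p6_NV_congr g V hdecS]
    have h1 := p6_NV_add g V (∑ j ∈ F, T j + ∑ j ∈ F, A j + ∑ j ∈ F, C j) (∑ j ∈ F, D j)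
    have h2 := p6_NV_add g V (∑ j ∈ F, T j + ∑ j ∈ F, A j) (∑ j ∈ F, C j)
    have h3 := p6_NV_add g V (∑ j ∈ F, T j) (∑ j ∈ F, A j)
    have h4 := hNVT V
    have h5 := hNVA V
    have h6 := hNVC V
    have h7 := hNVD V
    linarith
  | false =>
    have e0 : EN g G (false, V, m, nn) (∑ j ∈ F, Y j) = N1 G m nn (∑ j ∈ F, Y j) := by
      simp [EN]
    rw [e0]
    unfold N1
    set nb : ℕ → ℕ := fun b => max m (nn b) with hnb
    have hmb : ∀ b, m ≤ nb b := fun b => le_max_left _ _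
    have hbT : ∑ b ∈ range m, |∑ j ∈ F, T j (b, nb b)| ≤ 1 := by
      have h1 : ∀ j ∈ F, ∑ b ∈ range m, |T j (b, nb b)| ≤ 1 / (k : ℝ) := by
        intro j _
        have h2 : ∀ b ∈ range m, |T j (b, nb b)| ≤
            if b < I j then ∑ n ∈ range (I j), |Y j (b, n)| else 0 := by
          intro b _
          by_cases hne : T j (b, nb b) = 0
          · rw [hne, abs_zero]
            split_ifs
            · exact Finset.sum_nonneg fun _ _ => abs_nonneg _
            · exact le_refl _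
          · have h3 := (p6_rs_ne hne).1
            rw [if_pos (by omega)]
            refine (p6_rs_le _ _ _).trans ?_
            exact Finset.single_le_sum (f := fun n => |Y j (b, n)|) (fun _ _ => abs_nonneg _)
              (Finset.mem_range.2 h3.2)
        refine (Finset.sum_le_sum h2).trans (le_trans ?_ (hsmall j))
        rw [← Finset.sum_filter]
        refine Finset.sum_le_sum_of_subset_of_nonneg ?_ ?_
        · intro b hb
          exact Finset.mem_range.2 (Finset.mem_filter.1 hb).2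
        · intro b _ _
          exact Finset.sum_nonneg fun _ _ => abs_nonneg _
      calc ∑ b ∈ range m, |∑ j ∈ F, T j (b, nb b)|
          ≤ ∑ b ∈ range m, ∑ j ∈ F, |T j (b, nb b)| :=
            Finset.sum_le_sum fun b _ => Finset.abs_sum_le_sum_abs _ _
        _ = ∑ j ∈ F, ∑ b ∈ range m, |T j (b, nb b)| := Finset.sum_comm
        _ ≤ ∑ _j ∈ F, 1 / (k : ℝ) := Finset.sum_le_sum h1
        _ = F.card * (1 / (k : ℝ)) := by rw [Finset.sum_const, nsmul_eq_mul]
        _ ≤ 1 := hFε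
    have hbA : ∑ b ∈ range m, |∑ j ∈ F, A j (b, nb b)| ≤ 1 := by
      have h1 : ∀ j ∈ F, ∑ b ∈ range m, |A j (b, nb b)| ≤ 1 / (k : ℝ) := by
        intro j _
        have h2 : ∀ b ∈ range m, |A j (b, nb b)| ≤ if b ∈ Ico m0 (I j) then r j b else 0 := by
          intro b _
          by_cases hne : A j (b, nb b) = 0
          · rw [hne, abs_zero]
            split_ifs
            · exact hr0 j b
            · exact le_refl _
          · have h3 := (p6_rs_ne hne).1
            rw [if_pos (Finset.mem_Ico.2 ⟨by omega, by omega⟩)]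
            exact (p6_rs_le _ _ _).trans (hr1 j b _ h3.1)
        refine (Finset.sum_le_sum h2).trans (le_trans ?_ (hr2 j))
        rw [← Finset.sum_filter]
        refine Finset.sum_le_sum_of_subset_of_nonneg ?_ ?_
        · intro b hb
          exact (Finset.mem_filter.1 hb).2
        · intro b _ _
          exact hr0 j b
      calc ∑ b ∈ range m, |∑ j ∈ F, A j (b, nb b)|
          ≤ ∑ b ∈ range m, ∑ j ∈ F, |A j (b, nb b)| :=
            Finset.sum_le_sum fun b _ => Finset.abs_sum_le_sum_abs _ _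
        _ = ∑ j ∈ F, ∑ b ∈ range m, |A j (b, nb b)| := Finset.sum_comm
        _ ≤ ∑ _j ∈ F, 1 / (k : ℝ) := Finset.sum_le_sum h1
        _ = F.card * (1 / (k : ℝ)) := by rw [Finset.sum_const, nsmul_eq_mul]
        _ ≤ 1 := hFε
    have huniq : ∀ j j' x, I j ≤ x → x < I (j + 1) → I j' ≤ x → x < I (j' + 1) → j = j' := by
      intro j j' x h1 h2 h3 h4
      rcases lt_trichotomy j j' with h5 | h5 | h5
      · have := hI (show j + 1 ≤ j' by omega)
        omega
      · exact h5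
      · have := hI (show j' + 1 ≤ j by omega)
        omega
    have hbC : ∑ b ∈ range m, |∑ j ∈ F, C j (b, nb b)| ≤ G + 1 := by
      have h2 : ∀ b ∈ range m, |∑ j ∈ F, C j (b, nb b)| ≤ if b < m0 then ρ b else 0 := by
        intro b _
        by_cases hb : b < m0
        · rw [if_pos hb]
          by_cases hex : ∃ j ∈ F, C j (b, nb b) ≠ 0
          · obtain ⟨j, hj, hne⟩ := hex
            have h3 := p6_rs_ne hne
            have h4 := hsup j b _ h3.2
            rw [Finset.sum_eq_single_of_mem j hj]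
            · exact (p6_rs_le _ _ _).trans (hrow j b hb _ h3.1.1)
            · intro j' _ hjj
              by_contra hne'
              have h5 := p6_rs_ne hne'
              have h6 := hsup j' b _ h5.2
              exact hjj (huniq j' j (nb b) h5.1.2.1 h6.2 h3.1.2.1 h4.2)
          · push Not at hex
            rw [Finset.sum_eq_zero hex, abs_zero]
            exact hρ b
        · rw [if_neg hb]
          have h3 : ∑ j ∈ F, C j (b, nb b) = 0 := by
            refine Finset.sum_eq_zero fun j _ => ?_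
            exact p6_rs_neg (fun h => hb h.2.2)
          rw [h3, abs_zero]
      refine (Finset.sum_le_sum h2).trans (le_trans ?_ hρs)
      rw [← Finset.sum_filter]
      refine Finset.sum_le_sum_of_subset_of_nonneg ?_ ?_
      · intro b hb
        exact Finset.mem_range.2 (Finset.mem_filter.1 hb).2
      · intro b _ _
        exact hρ b
    have hbD : ∑ b ∈ range m, |∑ j ∈ F, D j (b, nb b)| ≤ G := by
      have hkey : ∀ j b, b ∈ range m → D j (b, nb b) ≠ 0 → I j ≤ m ∧ m < I (j + 1) := by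
        intro j b hb hne
        have h3 := p6_rs_ne hne
        have h4 := hsup j b _ h3.2
        have h5 := hmb b
        have h6 := Finset.mem_range.1 hb
        have h7 : I j ≤ b := h3.1.2
        omega
      by_cases hex : ∃ j ∈ F, I j ≤ m ∧ m < I (j + 1)
      · obtain ⟨j, hj, hj1, hj2⟩ := hex
        have h1 : ∀ b ∈ range m, |∑ j ∈ F, D j (b, nb b)| ≤ |Y j (b, nb b)| := by
          intro b hb
          rw [Finset.sum_eq_single_of_mem j hj]
          · exact p6_rs_le _ _ _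
          · intro j' _ hjj
            by_contra hne
            have h2 := hkey j' b hb hne
            exact hjj (huniq j' j m h2.1 h2.2 hj1 hj2)
        refine (Finset.sum_le_sum h1).trans ?_
        have h2 := p6_N1_le (hbd j) m nn
        unfold N1 at h2
        rw [inv_mul_le_iff₀ (by linarith), mul_one] at h2
        exact h2
      · have h1 : ∀ b ∈ range m, |∑ j ∈ F, D j (b, nb b)| = 0 := by
          intro b hb
          rw [Finset.sum_eq_zero, abs_zero]
          intro j hj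
          by_contra hne
          exact hex ⟨j, hj, hkey j b hb hne⟩
        rw [Finset.sum_eq_zero h1]
        linarith
    have htot : ∑ b ∈ range m, |(∑ j ∈ F, Y j) (b, nb b)| ≤ 2 * G + 3 := by
      have h1 : ∀ b ∈ range m, |(∑ j ∈ F, Y j) (b, nb b)| ≤
          |∑ j ∈ F, T j (b, nb b)| + |∑ j ∈ F, A j (b, nb b)| + |∑ j ∈ F, C j (b, nb b)| +
            |∑ j ∈ F, D j (b, nb b)| := by
        intro b hb
        rw [hdecS b (nb b) (lt_of_lt_of_le (Finset.mem_range.1 hb) (hmb b))]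
        simp only [Pi.add_apply, Finset.sum_apply]
        refine (abs_add_le _ _).trans ?_
        gcongr
        refine (abs_add_le _ _).trans ?_
        gcongr
        exact abs_add_le _ _
      refine (Finset.sum_le_sum h1).trans ?_
      rw [Finset.sum_add_distrib, Finset.sum_add_distrib, Finset.sum_add_distrib]
      linarith
    have h5 : G⁻¹ * ∑ b ∈ range m, |(∑ j ∈ F, Y j) (b, nb b)| ≤ 5 := by
      rw [inv_mul_le_iff₀ (by linarith)]
      linarith
    refine h5.trans ?_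
    linarith

theorem PP_EN (g : ℕ) (G : ℝ) (hG : 1 ≤ G) : PP (EN g G) 28 := by
  intro y hfin hbd hnull k M₀ hM₀
  rcases Nat.eq_zero_or_pos k with hk | hk
  · subst hk
    refine ⟨M₀, subset_rfl, hM₀, fun F _ hF => ?_⟩
    have hF0 : F = ∅ := Finset.card_eq_zero.1 (Nat.le_zero.1 hF)
    subst hF0
    intro j
    rw [Finset.sum_empty, (lat_EN g hG).zero j]
    positivity
  · have hkr : (0 : ℝ) < k := by exact_mod_cast hk
    obtain ⟨m0, ρ, M₁, hM₁, hinf, hρ, hρs, hrow, hev⟩ :=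
      row_limit g G hG y hfin hbd hnull M₀ hM₀ (1 / (k : ℝ)) (by positivity)
    obtain ⟨φ, I, hφ, hI, hm0, hφM, hPr, hsup⟩ := selection y hfin M₁ hinf
      (fun q m => (∑ b ∈ range m, ∑ n ∈ range m, |y q (b, n)|) ≤ 1 / (k : ℝ) ∧
        ∃ r : ℕ → ℝ, (∀ b, 0 ≤ r b) ∧ (∀ b n, b < n → |y q (b, n)| ≤ r b) ∧
          ∑ b ∈ Ico m0 m, r b ≤ 1 / (k : ℝ)) hev m0
    refine ⟨Set.range φ, ?_, Set.infinite_range_of_injective hφ.injective, ?_⟩
    · rintro _ ⟨j, rfl⟩
      exact hM₁ (hφM j)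
    · intro F' hF' hcard
      rw [← Set.image_univ] at hF'
      obtain ⟨F, _, rfl⟩ := Finset.subset_set_image_iff.1 hF'
      rw [Finset.sum_image (fun a _ b _ hab => hφ.injective hab)]
      rw [Finset.card_image_of_injective _ hφ.injective] at hcard
      exact p6_main g G hG k hk (fun j => y (φ j)) (fun j => hbd _) m0 ρ hρ hρs I hI hm0
        (fun j b hb n hbn => hrow _ (hφM j) b hb n hbn) (fun j => (hPr j).1)
        (fun j => (hPr j).2) hsup F hcard

end Pool.Agent.WB
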