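import Pool.Agent.Lib.MP_c7fb7b_an.Defs

/-!
# Q1: the subsequence property of `c₀`-sums (75 min)

`N c j ≥ 0` (`0 = N(0) ≤ 2 N(y)` from `LatFam`).  `k = 0` trivial (`M = M₀`).
For a component `c` let `y q|c = fun γ => y q (c, γ)`; it satisfies the hypotheses of `PP (N c)`.
`Good c M` : for all finite `F ⊆ M`, `|F| ≤ k`: `Bd (N c) (∑_F y q|c) (C √k)`.  Hereditary in `M`.
For all infinite `M` and `c` there is an infinite `M' ⊆ M` with `Good c M'`; hence also for all
finite sets of components simultaneously (induction).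
Let `S q` be the finite set of components meeting `support (y q)`.
Recursion: `M^0 = M₀`; given infinite `M^j` choose `q_j ∈ M^j` with `q_j > q_{j-1}`, and infinite
`M^{j+1} ⊆ M^j` good for all `c ∈ S q_j`.  `M = {q_j}` infinite, and for `i > j`: `q_i ∈ M^{j+1}`.
Let `F ⊆ M`, `|F| ≤ k`, functional `(c, i)`.  If no `q ∈ F` has `c ∈ S q` the sum restricted to `c`
is `0`.  Otherwise let `q_j` be the first element of `M` (smallest `j`) with `c ∈ S q_j`: the sum is
`[q_j ∈ F] y q_j|c + ∑_{q ∈ F, q > q_j} y q|c`, so `≤ 1 + C √k ≤ (C+1) √k` (`k ≥ 1`; the last set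
is contained in `M^{j+1}`, good for `c`).
-/

open Finset Filter Topology

namespace Pool.Agent.WB

/-- diagonal sequences of decreasing infinite sets -/
theorem q1_diag (P : ℕ → Set ℕ → Prop) (hmono : ∀ q M M', M' ⊆ M → P q M → P q M')
    (hex : ∀ q (M : Set ℕ), M.Infinite → ∃ M', M' ⊆ M ∧ M'.Infinite ∧ P q M')
    (M₀ : Set ℕ) (hM₀ : M₀.Infinite) :
    ∃ M : Set ℕ, M ⊆ M₀ ∧ M.Infinite ∧ ∀ q ∈ M, P q {r ∈ M | q < r} := by
  classical
  have hstep : ∀ S : {M : Set ℕ // M.Infinite}, ∃ (q : ℕ) (T : {M : Set ℕ // M.Infinite}),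
      q ∈ S.1 ∧ T.1 ⊆ S.1 ∧ (∀ r ∈ T.1, q < r) ∧ P q T.1 := by
    rintro ⟨M, hM⟩
    obtain ⟨q, hq⟩ := hM.nonempty
    have h1 : (M ∩ Set.Ioi q).Infinite := by
      refine Set.infinite_of_forall_exists_gt fun n => ?_
      obtain ⟨m, hm, hlt⟩ := hM.exists_gt (max n q)
      exact ⟨m, ⟨hm, lt_of_le_of_lt (le_max_right _ _) hlt⟩, lt_of_le_of_lt (le_max_left _ _) hlt⟩
    obtain ⟨T, hT1, hT2, hT3⟩ := hex q _ h1
    exact ⟨q, ⟨T, hT2⟩, hq, fun r hr => (hT1 hr).1, fun r hr => (hT1 hr).2, hT3⟩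
  choose f g hf hg hlt hP using hstep
  let S : ℕ → {M : Set ℕ // M.Infinite} := fun n => Nat.rec ⟨M₀, hM₀⟩ (fun _ T => g T) n
  have hS : ∀ n, S (n + 1) = g (S n) := fun n => rfl
  have hanti : ∀ i j, i ≤ j → (S j).1 ⊆ (S i).1 := by
    intro i j hij
    induction j, hij using Nat.le_induction with
    | base => exact le_rfl
    | succ j _ ih => rw [hS]; exact (hg (S j)).trans ih
  have hφmem : ∀ i, f (S i) ∈ (S i).1 := fun i => hf (S i)
  have hlt' : ∀ i j, i < j → f (S i) < f (S j) := by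
    intro i j hij
    have h1 : f (S j) ∈ (S (i + 1)).1 := hanti (i + 1) j hij (hφmem j)
    rw [hS] at h1
    exact hlt (S i) _ h1
  have hstrict : StrictMono (fun i => f (S i)) := fun i j hij => hlt' i j hij
  refine ⟨Set.range (fun i => f (S i)), ?_, Set.infinite_range_of_injective hstrict.injective, ?_⟩
  · rintro _ ⟨i, rfl⟩
    exact hanti 0 i (Nat.zero_le i) (hφmem i)
  · rintro _ ⟨i, rfl⟩
    refine hmono _ _ _ ?_ (hP (S i))
    rintro r ⟨⟨j, rfl⟩, hr⟩
    have h1 : i < j := hstrict.lt_iff_lt.1 hr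
    exact hanti (i + 1) j h1 (hφmem j)

theorem PP_sum {ι J Γ : Type} (N : ι → J → (Γ → ℝ) → ℝ) {C : ℝ} (hC : 0 ≤ C)
    (hlat : ∀ c, LatFam (N c)) (h : ∀ c, PP (N c) C) : PP (sumN N) (C + 1) := by
  classical
  intro y hfin hbd hto k M₀ hM₀
  have hzero : ∀ c i, N c i 0 = 0 := by
    intro c i
    have := (hlat c).smul_eq i 0 0
    rw [abs_zero, zero_mul, zero_smul] at this
    exact this
  rcases Nat.eq_zero_or_pos k with rfl | hk
  · refine ⟨M₀, le_rfl, hM₀, fun F _ hc j => ?_⟩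
    have : F = ∅ := Finset.card_eq_zero.1 (Nat.le_zero.1 hc)
    subst this
    rw [Finset.sum_empty]
    change N j.1 j.2 (fun γ => (0 : ι × Γ → ℝ) (j.1, γ)) ≤ _
    have e : (fun γ => (0 : ι × Γ → ℝ) (j.1, γ)) = 0 := rfl
    rw [e, hzero]
    positivity
  let yc : ι → ℕ → Γ → ℝ := fun c q γ => y q (c, γ)
  have hcomp : ∀ c (M : Set ℕ), M.Infinite → ∃ M' : Set ℕ, M' ⊆ M ∧ M'.Infinite ∧
      ∀ F : Finset ℕ, (F : Set ℕ) ⊆ M' → F.card ≤ k → Bd (N c) (∑ q ∈ F, yc c q) (C * √(k : ℝ)) := by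
    intro c M hM
    refine h c (yc c) ?_ ?_ ?_ k M hM
    · intro q
      have h1 : Function.support (yc c q) ⊆ (fun γ => (c, γ)) ⁻¹' (Function.support (y q)) :=
        fun γ hγ => hγ
      refine Set.Finite.subset ((hfin q).preimage ?_) h1
      intro a _ b _ hab
      exact (Prod.ext_iff.1 hab).2
    · intro q i
      exact hbd q (c, i)
    · intro γ
      exact hto (c, γ)
  -- components met by a support
  let S : ℕ → Finset ι := fun q => (hfin q).toFinset.image Prod.fst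
  let P : ℕ → Set ℕ → Prop := fun q M => ∀ c ∈ S q, ∀ F : Finset ℕ, (F : Set ℕ) ⊆ M →
    F.card ≤ k → Bd (N c) (∑ q ∈ F, yc c q) (C * √(k : ℝ))
  have hPmono : ∀ q M M', M' ⊆ M → P q M → P q M' := fun q M M' hs hP c hc F hF =>
    hP c hc F (hF.trans hs)
  have hPex : ∀ q (M : Set ℕ), M.Infinite → ∃ M', M' ⊆ M ∧ M'.Infinite ∧ P q M' := by
    intro q M hM
    have key : ∀ T : Finset ι, ∃ M' : Set ℕ, M' ⊆ M ∧ M'.Infinite ∧ ∀ c ∈ T, ∀ F : Finset ℕ,
        (F : Set ℕ) ⊆ M' → F.card ≤ k → Bd (N c) (∑ q ∈ F, yc c q) (C * √(k : ℝ)) := by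
      intro T
      induction T using Finset.induction_on with
      | empty => exact ⟨M, le_rfl, hM, fun c hc => absurd hc (Finset.notMem_empty c)⟩
      | insert c T hc ih =>
        obtain ⟨M1, h1, h2, h3⟩ := ih
        obtain ⟨M2, h4, h5, h6⟩ := hcomp c M1 h2
        refine ⟨M2, h4.trans h1, h5, fun c' hc' F hF hcard => ?_⟩
        rcases Finset.mem_insert.1 hc' with rfl | hc'
        · exact h6 F hF hcard
        · exact h3 c' hc' F (hF.trans h4) hcard
    exact key (S q)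
  obtain ⟨M, m1, m2, m3⟩ := q1_diag P hPmono hPex M₀ hM₀
  refine ⟨M, m1, m2, fun F hF hcard j => ?_⟩
  obtain ⟨c, i⟩ := j
  have hsq : (1 : ℝ) ≤ √(k : ℝ) := by
    rw [Real.one_le_sqrt]; exact_mod_cast hk
  have hexp : (fun γ => (∑ q ∈ F, y q) (c, γ)) = ∑ q ∈ F, yc c q := by
    funext γ
    rw [Finset.sum_apply, Finset.sum_apply]
  change N c i (fun γ => (∑ q ∈ F, y q) (c, γ)) ≤ _
  rw [hexp]
  have hnot : ∀ q, c ∉ S q → yc c q = 0 := by
    intro q hq
    funext γ
    by_contra hne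
    apply hq
    refine Finset.mem_image.2 ⟨(c, γ), ?_, rfl⟩
    rw [Set.Finite.mem_toFinset]
    exact hne
  by_cases hex : ∃ q, q ∈ M ∧ c ∈ S q
  · have hq0 := Nat.find_spec hex
    set q0 := Nat.find hex with hq0def
    have hmin : ∀ q, q ∈ M → q < q0 → c ∉ S q := fun q hq hlt hc =>
      Nat.find_min hex hlt ⟨hq, hc⟩
    have hsplit : ∑ q ∈ F, yc c q = ∑ q ∈ F.filter (· = q0), yc c q +
        ∑ q ∈ F.filter (q0 < ·), yc c q := by
      rw [Finset.sum_filter, Finset.sum_filter, ← Finset.sum_add_distrib]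
      refine Finset.sum_congr rfl fun q hq => ?_
      rcases lt_trichotomy q q0 with h1 | h1 | h1
      · rw [if_neg h1.ne, if_neg (not_lt.2 h1.le), add_zero]
        exact hnot q (hmin q (hF hq) h1)
      · rw [if_pos h1, if_neg (by omega), add_zero]
      · rw [if_neg (by omega), if_pos h1, zero_add]
    rw [hsplit]
    refine ((hlat c).add_le i _ _).trans ?_
    have e1 : N c i (∑ q ∈ F.filter (· = q0), yc c q) ≤ 1 := by
      by_cases hq : q0 ∈ F
      · have : F.filter (· = q0) = {q0} := by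
          ext q
          simp only [Finset.mem_filter, Finset.mem_singleton]
          constructor
          · exact fun h => h.2
          · rintro rfl; exact ⟨hq, rfl⟩
        rw [this, Finset.sum_singleton]
        exact hbd q0 (c, i)
      · have : F.filter (· = q0) = ∅ := by
          ext q
          simp only [Finset.mem_filter, Finset.notMem_empty, iff_false, not_and]
          rintro h1 rfl
          exact hq h1
        rw [this, Finset.sum_empty, hzero]
        exact zero_le_one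
    have e2 : N c i (∑ q ∈ F.filter (q0 < ·), yc c q) ≤ C * √(k : ℝ) := by
      refine m3 q0 hq0.1 c hq0.2 (F.filter (q0 < ·)) ?_ ?_ i
      · intro q hq
        have h1 := Finset.mem_filter.1 (Finset.mem_coe.1 hq)
        exact ⟨hF h1.1, h1.2⟩
      · exact (Finset.card_filter_le _ _).trans hcard
    linarith
  · push Not at hex
    have : ∑ q ∈ F, yc c q = 0 := Finset.sum_eq_zero fun q hq => hnot q (hex q (hF hq))
    rw [this, hzero]
    positivity

end Pool.Agent.WB
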