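import Pool.Agent.Lib.MP_c7fb7b_an.P1
import Pool.Agent.Lib.MP_c7fb7b_an.P6
import Pool.Agent.Lib.MP_c7fb7b_an.Q1
import Pool.Agent.Lib.MP_c7fb7b_an.Q2

/-!
# Q3: the subsequence property of the family of `Y` (done)
-/

open Finset Filter Topology

namespace Pool.Agent.WB

theorem PP_YF : PP YF 29 := by
  have h : ∀ c : YI, PP (YN (c.1 + 1) c.2.2) 28 := by
    rintro ⟨g, b, c⟩
    cases c with
    | base => exact PP_mono (by norm_num) PP_LN
    | edge t i =>
      refine PP_EN _ _ ?_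
      have : (1 : ℝ) ≤ 4 ^ (i + 1) := one_le_pow₀ (by norm_num)
      linarith
    | rcd t => exact PP_mono (by norm_num) PP_LN
  have := PP_sum (fun c : YI => YN (c.1 + 1) c.2.2) (by norm_num : (0:ℝ) ≤ 28)
    (fun c => lat_YN _ _) h
  have h29 : (28 : ℝ) + 1 = 29 := by norm_num
  rw [h29] at this
  exact this

end Pool.Agent.WB
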