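import Pool.Agent.Lib.MP_c7fb7b_an.S1

/-!
# S2: from the subsequence property to weak convergence and weak Banach-Saks (75 min)

`PP_space`.  `R > 0` wlog (replace `R` by `|R| + 1`).  Choose finitely supported `z_q` with
`Bd N (u_q - z_q) (R 2^{-q-1})` (`Mem`).  `Bd N (z_q / (2R)) 1`.  `z_q γ → 0` for every seen `γ`
(`|u_q γ - z_q γ| ≤ c_γ R 2^{-q-1}` by `exists_coord`-like bound: with `φ` from `exists_coord` for
the element `u_q - z_q` of the space; or directly from a functional `j` with `N j e_γ > 0`); at unseen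
coordinates replace `z_q` by `0` (this changes no functional: `add_le` and `Unseen`).
`PP N C` for `z_q/(2R)`: `M`, and for `F ⊆ M`, `|F| ≤ k`: `‖∑_F u‖ ≤ 2 R C √k + ∑ R 2^{-q-1} ≤
2 R C √k + R ≤ (2C+1) R √k` if `k ≥ 1` (`k = 0` trivial).
`weaklyNull_of_PP`: suppose `φ (u_q)` does not tend to `0`: `|φ (u_q)| ≥ δ` on an infinite `M₀`.
Apply `PP_space` to `s_q • u_q`, `s_q = ±1` with `φ (s_q u_q) = |φ (u_q)|`, and `k`:
`k δ ≤ φ (∑_F s_q u_q) ≤ ‖φ‖ (2C+1) R √k` for a subset `F` with `k` elements of the infinite set `M`;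
choose `k` large.
`weakBS_of_PP`: weakly null implies coordinates tend to `0` (`exists_coord`); `R = 1`;
`√k = k^(1/2)` (`Real.sqrt_eq_rpow`).
-/

open Finset Filter Topology

namespace Pool.Agent.WB

variable {J Γ : Type} {N : J → (Γ → ℝ) → ℝ} {h : LatFam N}

theorem s2_geom (F : Finset ℕ) : ∑ q ∈ F, (1 / 2 : ℝ) ^ (q + 1) ≤ 1 := by
  have h1 : F ⊆ range (F.sup id + 1) := fun q hq =>
    Finset.mem_range.2 (Nat.lt_succ_of_le (Finset.le_sup (f := id) hq))
  refine le_trans (Finset.sum_le_sum_of_subset_of_nonneg h1 fun _ _ _ => by positivity) ?_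
  generalize F.sup id + 1 = n
  have h2 : ∑ q ∈ range n, (1 / 2 : ℝ) ^ (q + 1) = 1 - (1 / 2) ^ n := by
    induction n with
    | zero => simp
    | succ n ih => rw [Finset.sum_range_succ, ih]; ring
  rw [h2]
  have : (0 : ℝ) ≤ (1 / 2) ^ n := by positivity
  linarith

theorem PP_space {C : ℝ} (hC : 0 ≤ C) (hP : PP N C) (u : ℕ → Sp N h) {R : ℝ} (hR : 0 < R)
    (hu : ∀ q, ‖u q‖ ≤ R) (hc : ∀ γ, Tendsto (fun q => (u q).fn γ) atTop (𝓝 0)) (k : ℕ)
    (M₀ : Set ℕ) (hM₀ : M₀.Infinite) :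
    ∃ M : Set ℕ, M ⊆ M₀ ∧ M.Infinite ∧ ∀ F : Finset ℕ, (F : Set ℕ) ⊆ M → F.card ≤ k →
      ‖∑ q ∈ F, u q‖ ≤ (2 * C + 1) * R * √(k : ℝ) := by
  classical
  rcases Nat.eq_zero_or_pos k with rfl | hk
  · refine ⟨M₀, le_rfl, hM₀, fun F _ hcard => ?_⟩
    have : F = ∅ := Finset.card_eq_zero.1 (Nat.le_zero.1 hcard)
    subst this
    simp
  -- approximation by finitely supported elements
  have hε : ∀ q : ℕ, 0 < R * (1 / 2 : ℝ) ^ (q + 1) := fun q => by positivity
  have happ : ∀ q, ∃ v : Sp N h, (Function.support v.fn).Finite ∧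
      ‖u q - v‖ ≤ R * (1 / 2 : ℝ) ^ (q + 1) := by
    intro q
    obtain ⟨z, hz1, hz2⟩ := (u q).mem.2 _ (hε q)
    let z' : Γ → ℝ := fun γ => if Unseen N γ then 0 else z γ
    have hz'fin : (Function.support z').Finite := by
      refine hz1.subset fun γ hγ => ?_
      intro h0
      apply hγ
      by_cases hun : Unseen N γ
      · simp [z', hun]
      · simp [z', hun, h0]
    have hmem : Mem N z' := by
      refine ⟨fun γ hγ => by simp [z', hγ], fun ε hε => ⟨z', hz'fin, fun j => ?_⟩⟩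
      rw [sub_self, h.zero]
      exact hε.le
    refine ⟨Sp.mk' z' hmem, hz'fin, ?_⟩
    rw [Sp.norm_le_iff _ (hε q).le]
    intro j
    refine le_trans (h.mono j _ _ fun γ => ?_) (hz2 j)
    change |(u q).fn γ - z' γ| ≤ |(u q).fn γ - z γ|
    by_cases hun : Unseen N γ
    · have h1 : (u q).fn γ = 0 := (u q).mem.1 γ hun
      simp [z', hun, h1]
    · simp [z', hun]
  choose v hv1 hv2 using happ
  have hvn : ∀ q, ‖v q‖ ≤ 2 * R := by
    intro q
    have h1 : v q = u q - (u q - v q) := by abel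
    have h2 : (1 / 2 : ℝ) ^ (q + 1) ≤ 1 := pow_le_one₀ (by norm_num) (by norm_num)
    have h3 := norm_sub_le (u q) (u q - v q)
    rw [← h1] at h3
    have h4 := hv2 q
    have h5 := hu q
    nlinarith
  have h2R : 0 < 2 * R := by linarith
  obtain ⟨M, m1, m2, m3⟩ := hP (fun q => ((2 * R)⁻¹ • v q).fn) (fun q => by
      refine (hv1 q).subset fun γ hγ => ?_
      intro h0
      apply hγ
      change (2 * R)⁻¹ * (v q).fn γ = 0
      rw [h0, mul_zero])
    (fun q => by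
      refine (Sp.norm_le_iff _ zero_le_one).1 ?_
      rw [norm_smul, norm_inv, Real.norm_of_nonneg h2R.le, inv_mul_le_one₀ h2R]
      exact hvn q)
    (fun γ => by
      obtain ⟨φ, hφ⟩ := Sp.exists_coord (h := h) γ
      have h1 : Tendsto (fun q => (v q).fn γ) atTop (𝓝 0) := by
        have h2 : Tendsto (fun q => (u q).fn γ - (v q).fn γ) atTop (𝓝 0) := by
          refine squeeze_zero_norm (a := fun q => ‖φ‖ * (R * (1 / 2 : ℝ) ^ (q + 1))) ?_ ?_
          · intro q
            have h3 : (u q).fn γ - (v q).fn γ = φ (u q - v q) := by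
              rw [hφ]; rfl
            rw [h3]
            exact (φ.le_opNorm _).trans (mul_le_mul_of_nonneg_left (hv2 q) (norm_nonneg _))
          · have h4 : Tendsto (fun q : ℕ => (1 / 2 : ℝ) ^ (q + 1)) atTop (𝓝 0) :=
              (tendsto_pow_atTop_nhds_zero_of_lt_one (by norm_num) (by norm_num)).comp
                (tendsto_add_atTop_nat 1)
            have h5 := (h4.const_mul R).const_mul ‖φ‖
            simpa using h5
        have h6 := (hc γ).sub h2
        simpa using h6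
      have h7 := h1.const_mul (2 * R)⁻¹
      rw [mul_zero] at h7
      exact h7) k M₀ hM₀
  refine ⟨M, m1, m2, fun F hF hcard => ?_⟩
  have hsq : (1 : ℝ) ≤ √(k : ℝ) := by
    rw [Real.one_le_sqrt]; exact_mod_cast hk
  have h1 : ‖∑ q ∈ F, (2 * R)⁻¹ • v q‖ ≤ C * √(k : ℝ) := by
    rw [Sp.norm_le_iff _ (by positivity), Sp.fn_sum]
    exact m3 F hF hcard
  rw [← Finset.smul_sum, norm_smul, norm_inv, Real.norm_of_nonneg h2R.le,
    inv_mul_le_iff₀ h2R] at h1
  have h2 : ∑ q ∈ F, u q = ∑ q ∈ F, v q + ∑ q ∈ F, (u q - v q) := by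
    rw [← Finset.sum_add_distrib]
    exact Finset.sum_congr rfl fun q _ => by abel
  have h3 : ‖∑ q ∈ F, (u q - v q)‖ ≤ R := by
    refine (norm_sum_le _ _).trans ?_
    refine (Finset.sum_le_sum fun q _ => hv2 q).trans ?_
    rw [← Finset.mul_sum]
    have := s2_geom F
    nlinarith
  rw [h2]
  refine (norm_add_le _ _).trans ?_
  nlinarith

theorem weaklyNull_of_PP {C : ℝ} (hC : 0 ≤ C) (hP : PP N C) (u : ℕ → Sp N h) {R : ℝ}
    (hu : ∀ q, ‖u q‖ ≤ R) (hc : ∀ γ, Tendsto (fun q => (u q).fn γ) atTop (𝓝 0)) :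
    WeaklyNull u := by
  classical
  intro φ
  by_contra hcon
  rw [Metric.tendsto_atTop] at hcon
  push Not at hcon
  obtain ⟨δ, hδ, hfreq⟩ := hcon
  have hM₀ : {n | δ ≤ |φ (u n)|}.Infinite := by
    refine Set.infinite_of_forall_exists_gt fun n => ?_
    obtain ⟨m, hm, hd⟩ := hfreq (n + 1)
    refine ⟨m, ?_, by omega⟩
    rw [Real.dist_eq, sub_zero] at hd
    exact hd
  have hR' : 0 < |R| + 1 := by positivity
  let sg : ℕ → ℝ := fun q => if 0 ≤ φ (u q) then 1 else -1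
  have hsg : ∀ q, |sg q| = 1 := by
    intro q
    by_cases h1 : 0 ≤ φ (u q) <;> simp [sg, h1]
  have hsφ : ∀ q, φ (sg q • u q) = |φ (u q)| := by
    intro q
    rw [map_smul, smul_eq_mul]
    by_cases h1 : 0 ≤ φ (u q)
    · simp [sg, h1, abs_of_nonneg h1]
    · simp only [sg, h1, if_false]
      rw [abs_of_neg (not_le.1 h1)]
      ring
  have key : ∀ k : ℕ, (k : ℝ) * δ ≤ ‖φ‖ * ((2 * C + 1) * (|R| + 1) * √(k : ℝ)) := by
    intro k
    obtain ⟨M, m1, m2, m3⟩ := PP_space hC hP (fun q => sg q • u q) hR' (fun q => by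
        rw [norm_smul, Real.norm_eq_abs, hsg, one_mul]
        exact (hu q).trans ((le_abs_self R).trans (by linarith)))
      (fun γ => by
        refine squeeze_zero_norm (a := fun q => |(u q).fn γ|) (fun q => ?_) ?_
        · change ‖sg q * (u q).fn γ‖ ≤ _
          rw [norm_mul, Real.norm_eq_abs, hsg, one_mul, Real.norm_eq_abs]
        · have := (hc γ).abs
          rwa [abs_zero] at this) k _ hM₀
    obtain ⟨F, hF1, hF2⟩ := m2.exists_subset_card_eq k
    have h1 := m3 F hF1 hF2.le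
    have h2 : (k : ℝ) * δ ≤ φ (∑ q ∈ F, sg q • u q) := by
      rw [map_sum]
      have h3 : ∀ q ∈ F, δ ≤ φ (sg q • u q) := by
        intro q hq
        rw [hsφ]
        exact m1 (hF1 (Finset.mem_coe.2 hq))
      have h4 := Finset.card_nsmul_le_sum _ _ _ h3
      rw [hF2, nsmul_eq_mul] at h4
      exact h4
    refine h2.trans ((le_abs_self _).trans ?_)
    refine (φ.le_opNorm _).trans (mul_le_mul_of_nonneg_left h1 (norm_nonneg _))
  set K : ℝ := ‖φ‖ * ((2 * C + 1) * (|R| + 1)) with hK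
  have hK0 : 0 ≤ K := by positivity
  obtain ⟨n, hn⟩ := exists_nat_gt ((K / δ) ^ 2)
  have hn0 : (0 : ℝ) < n := lt_of_le_of_lt (sq_nonneg _) hn
  have h1 := key n
  have h2 : ‖φ‖ * ((2 * C + 1) * (|R| + 1) * √(n : ℝ)) = K * √(n : ℝ) := by rw [hK]; ring
  rw [h2] at h1
  have h3 : (n : ℝ) = √(n : ℝ) * √(n : ℝ) := (Real.mul_self_sqrt hn0.le).symm
  have hs0 : 0 < √(n : ℝ) := Real.sqrt_pos.2 hn0
  have h4 : √(n : ℝ) * δ ≤ K := by
    have h5 : (√(n : ℝ) * δ) * √(n : ℝ) ≤ K * √(n : ℝ) := by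
      calc (√(n : ℝ) * δ) * √(n : ℝ) = (√(n : ℝ) * √(n : ℝ)) * δ := by ring
        _ = n * δ := by rw [← h3]
        _ ≤ _ := h1
    exact le_of_mul_le_mul_right h5 hs0
  have h6 : √(n : ℝ) ≤ K / δ := by rw [le_div_iff₀ hδ]; exact h4
  have h7 : (n : ℝ) ≤ (K / δ) ^ 2 := by
    rw [h3, ← sq]
    exact pow_le_pow_left₀ hs0.le h6 2
  linarith

theorem weakBS_of_PP {C : ℝ} (hC : 0 ≤ C) (hP : PP N C) : WeakBS 2 (Sp N h) := by
  refine ⟨2 * C + 1, by linarith, fun x hx hw k => ?_⟩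
  obtain ⟨M, -, m2, m3⟩ := PP_space hC hP x one_pos hx (fun γ => by
    obtain ⟨φ, hφ⟩ := Sp.exists_coord (h := h) γ
    have := hw φ
    simpa only [hφ] using this) k Set.univ Set.infinite_univ
  refine ⟨M, m2, fun s hs hcard => ?_⟩
  have h1 := m3 s hs hcard.le
  rw [mul_one, Real.sqrt_eq_rpow] at h1
  exact h1

end Pool.Agent.WB
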