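import Pool.Agent.Lib.MP_c7fb7b_an.S2

/-!
# S3: criterion for weak sequential continuity (40 min)

`bounded_of_weak`: Banach-Steinhaus (`banach_steinhaus`) for the operators
`NormedSpace.inclusionInDoubleDual ℝ E (x n)` on the dual (pointwise bounded because convergent
sequences are bounded), and `NormedSpace.inclusionInDoubleDualLi` / norm preservation
(`NormedSpace.double_dual_bound`, `(inclusionInDoubleDualLi ℝ).norm_map`).
`seqCont_of`: `x q → a` weakly; coordinates converge (`exists_coord`); `‖x q - a‖ ≤ R`; then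
`f (x q) - f a` is bounded by `L * R` and its coordinates tend to `0`; `weaklyNull_of_PP`; linear
functionals: `ψ (f (x q)) = ψ (f (x q) - f a) + ψ (f a)`.
-/

open Finset Filter Topology

namespace Pool.Agent.WB

theorem bounded_of_weak {E : Type} [NormedAddCommGroup E] [NormedSpace ℝ E] (x : ℕ → E) (a : E)
    (h : ∀ φ : StrongDual ℝ E, Tendsto (fun n => φ (x n)) atTop (𝓝 (φ a))) :
    ∃ R : ℝ, ∀ n, ‖x n - a‖ ≤ R := by
  have h1 : ∀ φ : StrongDual ℝ E, ∃ C, ∀ n,
      ‖(NormedSpace.inclusionInDoubleDual ℝ E (x n - a)) φ‖ ≤ C := by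
    intro φ
    have h2 : Tendsto (fun n => φ (x n - a)) atTop (𝓝 (φ a - φ a)) := by
      simp only [map_sub]
      exact (h φ).sub tendsto_const_nhds
    obtain ⟨C, hC⟩ := (Metric.isBounded_range_of_tendsto _ h2).exists_norm_le
    refine ⟨C, fun n => ?_⟩
    rw [NormedSpace.dual_def]
    exact hC _ ⟨n, rfl⟩
  obtain ⟨C', hC'⟩ := banach_steinhaus h1
  refine ⟨C', fun n => ?_⟩
  have h3 := (NormedSpace.inclusionInDoubleDualLi ℝ (E := E)).norm_map (x n - a)
  rw [← h3]
  exact hC' n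

theorem seqCont_of {J Γ J' Γ' : Type} {N : J → (Γ → ℝ) → ℝ} {h : LatFam N}
    {N' : J' → (Γ' → ℝ) → ℝ} {h' : LatFam N'} {C : ℝ} (hC : 0 ≤ C) (hP : PP N' C)
    (f : Sp N h → Sp N' h') {L : ℝ} (hL : ∀ x y, ‖f x - f y‖ ≤ L * ‖x - y‖)
    (hc : ∀ (γ' : Γ') (x : ℕ → Sp N h) (a : Sp N h),
      (∀ γ, Tendsto (fun q => (x q).fn γ) atTop (𝓝 (a.fn γ))) →
      Tendsto (fun q => (f (x q)).fn γ') atTop (𝓝 ((f a).fn γ'))) :
    WeakSeqCont f := by
  intro x a hx ψ
  obtain ⟨R, hR⟩ := bounded_of_weak x a hx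
  have hcoord : ∀ γ, Tendsto (fun q => (x q).fn γ) atTop (𝓝 (a.fn γ)) := by
    intro γ
    obtain ⟨φ, hφ⟩ := Sp.exists_coord (h := h) γ
    have := hx φ
    simpa only [hφ] using this
  have h1 : WeaklyNull (fun q => f (x q) - f a) := by
    refine weaklyNull_of_PP hC hP _ (R := max L 0 * R) (fun q => ?_) (fun γ' => ?_)
    · refine (hL _ _).trans ?_
      have h0 : 0 ≤ ‖x q - a‖ := norm_nonneg _
      calc L * ‖x q - a‖ ≤ max L 0 * ‖x q - a‖ :=
            mul_le_mul_of_nonneg_right (le_max_left _ _) h0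
        _ ≤ max L 0 * R := mul_le_mul_of_nonneg_left (hR q) (le_max_right _ _)
    · have h2 := (hc γ' x a hcoord).sub_const ((f a).fn γ')
      rw [sub_self] at h2
      exact h2
  have h2 := h1 ψ
  have h3 := h2.add_const (ψ (f a))
  rw [zero_add] at h3
  refine h3.congr (fun q => ?_)
  rw [map_sub, sub_add_cancel]

end Pool.Agent.WB
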