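import Pool.Agent.Lib.MP_c7fb7b_an.Q2
import Pool.Agent.Lib.MP_c7fb7b_an.S1

/-!
# S4: `X` fails the weak 2-Banach-Saks property
-/

open Finset Filter Topology

namespace Pool.Agent.WB

/-- the unit vector function -/
noncomputable def s4_f (p0 : ℕ × ℕ) : ℕ × ℕ → ℝ := fun p => if p = p0 then 1 else 0

theorem s4_seen (p0 : ℕ × ℕ) : ¬ Unseen XF p0 := by
  intro h
  have h1 := h (p0.1, {p0.2}) (s4_f p0) (fun δ hδ => if_neg hδ)
  have h2 : |(fun n => s4_f p0 (p0.1, n)) p0.2| ≤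
      ga (kap (p0.1 + 1)) {p0.2} (fun n => s4_f p0 (p0.1, n)) :=
    abs_le_ga (kap (p0.1 + 1)) (mem_singleton_self p0.2) (fun n => s4_f p0 (p0.1, n))
  have h3 : ga (kap (p0.1 + 1)) {p0.2} (fun n => s4_f p0 (p0.1, n)) = 0 := h1
  have h4 : s4_f p0 (p0.1, p0.2) = 1 := if_pos rfl
  rw [h3] at h2
  simp only [h4, abs_one] at h2
  linarith

theorem s4_mem (p0 : ℕ × ℕ) : Mem XF (s4_f p0) := by
  refine ⟨fun γ hγ => absurd hγ (s4_seen γ), fun ε hε => ⟨s4_f p0, ?_, ?_⟩⟩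
  · refine (Set.finite_singleton p0).subset (fun p hp => ?_)
    rw [Function.mem_support] at hp
    rw [Set.mem_singleton_iff]
    by_contra h
    exact hp (if_neg h)
  · intro j
    rw [sub_self, lat_XF.zero]
    exact hε.le

/-- the unit vectors -/
noncomputable def s4_e (g n : ℕ) : Sp XF lat_XF := Sp.mk' (s4_f (g, n)) (s4_mem (g, n))

theorem s4_fn_sum (g : ℕ) (F : Finset ℕ) (a : ℕ → ℝ) (p : ℕ × ℕ) :
    (∑ n ∈ F, a n • s4_e g n).fn p = if p.1 = g ∧ p.2 ∈ F then a p.2 else 0 := by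
  rw [Sp.fn_sum, Finset.sum_apply]
  have h1 : ∀ n, (a n • s4_e g n).fn p = if n = p.2 ∧ p.1 = g then a n else 0 := by
    intro n
    rw [Sp.fn_smul, Pi.smul_apply, smul_eq_mul]
    show a n * s4_f (g, n) p = _
    unfold s4_f
    by_cases h : p = (g, n)
    · rw [if_pos h, if_pos ⟨by rw [h], by rw [h]⟩, mul_one]
    · rw [if_neg h, if_neg (fun h2 => h (Prod.ext h2.2 h2.1.symm)), mul_zero]
  rw [Finset.sum_congr rfl (fun n _ => h1 n)]
  by_cases hg : p.1 = g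
  · simp only [hg, and_true, true_and]
    rw [Finset.sum_ite_eq' F p.2 a]
  · simp [hg]

theorem s4_norm_sum (g : ℕ) (F : Finset ℕ) (a : ℕ → ℝ) (ha : ∀ n, |a n| ≤ 1) :
    ‖∑ n ∈ F, a n • s4_e g n‖ ≤ Hm (g + 1) * √(F.card : ℝ) := by
  have hC : 0 ≤ Hm (g + 1) * √(F.card : ℝ) := mul_nonneg (Hm_nonneg _) (Real.sqrt_nonneg _)
  rw [Sp.norm_le_iff _ hC]
  rintro ⟨g', s⟩
  show ga (kap (g' + 1)) s (fun n => (∑ n ∈ F, a n • s4_e g n).fn (g', n)) ≤ _
  by_cases hg : g' = g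
  · subst hg
    refine (gauge_le_l2 (g' + 1) (by omega) s _).trans ?_
    refine mul_le_mul_of_nonneg_left ?_ (Hm_nonneg _)
    apply Real.sqrt_le_sqrt
    have h1 : ∀ m ∈ s, ((∑ n ∈ F, a n • s4_e g' n).fn (g', m)) ^ 2 ≤ if m ∈ F then 1 else 0 := by
      intro m _
      rw [s4_fn_sum]
      by_cases hm : m ∈ F
      · rw [if_pos ⟨rfl, hm⟩, if_pos hm]
        rw [← sq_abs]
        exact pow_le_one₀ (abs_nonneg _) (ha m)
      · rw [if_neg (fun h => hm h.2), if_neg hm]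
        norm_num
    refine (Finset.sum_le_sum h1).trans ?_
    rw [← Finset.sum_filter, Finset.sum_const, nsmul_eq_mul, mul_one]
    exact_mod_cast Finset.card_le_card (fun x hx => (mem_filter.1 hx).2)
  · have h0 : ga (kap (g' + 1)) s (fun n => (∑ n ∈ F, a n • s4_e g n).fn (g', n)) = 0 := by
      apply q2_ga_zero _ (kap_nonneg _) (kap_le_two _)
      intro m _
      rw [s4_fn_sum, if_neg (fun h => hg h.1)]
    rw [h0]
    exact hC

theorem s4_norm_e (g n : ℕ) : ‖s4_e g n‖ ≤ 2 := by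
  rw [Sp.norm_le_iff _ (by norm_num)]
  intro j
  have h := lat_XF.single_le j (s4_f (g, n)) (g, n) (fun δ hδ => if_neg hδ)
  have h1 : s4_f (g, n) (g, n) = 1 := if_pos rfl
  rw [h1, abs_one, mul_one] at h
  exact h

theorem s4_weak (g : ℕ) : WeaklyNull (fun n => s4_e g n) := by
  intro φ
  rw [Metric.tendsto_atTop]
  intro δ hδ
  have hfin : {n : ℕ | δ ≤ |φ (s4_e g n)|}.Finite := by
    by_contra hinf
    have hinf' : {n : ℕ | δ ≤ |φ (s4_e g n)|}.Infinite := hinf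
    obtain ⟨k, hk⟩ := exists_nat_gt ((‖φ‖ * Hm (g + 1) / δ) ^ 2)
    have hK : 0 ≤ ‖φ‖ * Hm (g + 1) / δ := by
      have := Hm_nonneg (g + 1)
      positivity
    obtain ⟨F, hF, hFk⟩ := hinf'.exists_subset_card_eq k
    set a : ℕ → ℝ := fun n => if 0 ≤ φ (s4_e g n) then 1 else -1 with ha
    have ha1 : ∀ n, |a n| ≤ 1 := by
      intro n
      simp only [ha]
      split_ifs <;> simp
    have ha2 : ∀ n, a n * φ (s4_e g n) = |φ (s4_e g n)| := by
      intro n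
      simp only [ha]
      split_ifs with h
      · rw [one_mul, abs_of_nonneg h]
      · push Not at h
        rw [abs_of_neg h]
        ring
    have h1 : φ (∑ n ∈ F, a n • s4_e g n) = ∑ n ∈ F, |φ (s4_e g n)| := by
      rw [map_sum]
      refine Finset.sum_congr rfl (fun n _ => ?_)
      rw [map_smul, smul_eq_mul, ha2]
    have h2 : (k : ℝ) * δ ≤ ∑ n ∈ F, |φ (s4_e g n)| := by
      have := Finset.card_nsmul_le_sum F (fun n => |φ (s4_e g n)|) δ (fun n hn => hF hn)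
      rw [hFk, nsmul_eq_mul] at this
      exact this
    have h3 : φ (∑ n ∈ F, a n • s4_e g n) ≤ ‖φ‖ * (Hm (g + 1) * √(k : ℝ)) := by
      refine (le_abs_self _).trans ?_
      rw [← Real.norm_eq_abs]
      refine (φ.le_opNorm _).trans ?_
      refine mul_le_mul_of_nonneg_left ?_ (norm_nonneg _)
      have := s4_norm_sum g F a ha1
      rw [hFk] at this
      exact this
    have h4 : (k : ℝ) * δ ≤ ‖φ‖ * Hm (g + 1) * √(k : ℝ) := by
      rw [h1] at h3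
      nlinarith
    have hk0 : (0 : ℝ) < k := lt_of_le_of_lt (sq_nonneg _) hk
    have hs0 : 0 < √(k : ℝ) := Real.sqrt_pos.2 hk0
    have hss : √(k : ℝ) * √(k : ℝ) = k := Real.mul_self_sqrt hk0.le
    have h5 : √(k : ℝ) ≤ ‖φ‖ * Hm (g + 1) / δ := by
      rw [le_div_iff₀ hδ]
      have h6 : √(k : ℝ) * (√(k : ℝ) * δ) ≤ √(k : ℝ) * (‖φ‖ * Hm (g + 1)) := by
        calc √(k : ℝ) * (√(k : ℝ) * δ) = (√(k : ℝ) * √(k : ℝ)) * δ := by ring
          _ = k * δ := by rw [hss]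
          _ ≤ ‖φ‖ * Hm (g + 1) * √(k : ℝ) := h4
          _ = √(k : ℝ) * (‖φ‖ * Hm (g + 1)) := by ring
      exact le_of_mul_le_mul_left h6 hs0
    have h7 : (k : ℝ) ≤ (‖φ‖ * Hm (g + 1) / δ) ^ 2 := by
      rw [← hss, sq]
      exact mul_self_le_mul_self hs0.le h5
    linarith
  obtain ⟨N, hN⟩ := hfin.bddAbove
  refine ⟨N + 1, fun n hn => ?_⟩
  rw [dist_zero_right, Real.norm_eq_abs]
  by_contra hcon
  push Not at hcon
  have : n ≤ N := hN hcon
  omega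

theorem X_fails : ¬ WeakBS 2 (Sp XF lat_XF) := by
  rintro ⟨C, hC, h⟩
  have hT : Tendsto Hm atTop atTop := by
    have h0 : Hm = fun n : ℕ => 1 + ∑ i ∈ range n, 1 / ((i : ℝ) + 1) := rfl
    rw [h0]
    exact tendsto_atTop_add_const_left _ 1 Real.tendsto_sum_range_one_div_nat_succ_atTop
  obtain ⟨g0, hg0⟩ := (hT.eventually (eventually_gt_atTop (2 * C))).exists_forall_of_atTop
  set g := g0 with hg
  have hHm : 2 * C < Hm (g + 1) := hg0 (g + 1) (by omega)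
  have hx1 : ∀ n, ‖(1 / 2 : ℝ) • s4_e g n‖ ≤ 1 := by
    intro n
    rw [norm_smul, Real.norm_of_nonneg (by norm_num)]
    have := s4_norm_e g n
    linarith
  have hx2 : WeaklyNull (fun n => (1 / 2 : ℝ) • s4_e g n) := by
    intro φ
    have := (s4_weak g φ).const_mul (1 / 2 : ℝ)
    rw [mul_zero] at this
    refine this.congr (fun n => ?_)
    rw [map_smul, smul_eq_mul]
  obtain ⟨M, hM, hMs⟩ := h _ hx1 hx2 (g + 1)
  obtain ⟨s, hs, hsk⟩ := hM.exists_subset_card_eq (g + 1)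
  have h1 := hMs s hs hsk
  rw [← Real.sqrt_eq_rpow] at h1
  set u := ∑ n ∈ s, (1 / 2 : ℝ) • s4_e g n with hu
  have h2 := Sp.bd_norm u (g, s)
  have h3 : XF (g, s) u.fn = ga (kap (g + 1)) s (fun n => u.fn (g, n)) := rfl
  rw [h3] at h2
  have h4 := V_le_ga (kap (g + 1)) (Finset.Subset.refl s) (fun n => u.fn (g, n))
  have h5 : ∑ m ∈ s, |(fun n => u.fn (g, n)) m| = ((g + 1 : ℕ) : ℝ) * (1 / 2) := by
    rw [← hsk, ← nsmul_eq_mul, ← Finset.sum_const]
    refine Finset.sum_congr rfl (fun m hm => ?_)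
    show |u.fn (g, m)| = 1 / 2
    rw [hu, s4_fn_sum g s (fun _ => 1 / 2) (g, m), if_pos ⟨rfl, hm⟩, abs_of_nonneg (by norm_num)]
  rw [h5, hsk] at h4
  have h6 := kap_mul_self (g + 1) (g + 1)
  have h7 : Hg (g + 1) (g + 1) = Hm (g + 1) := by
    unfold Hg
    rw [min_self]
  rw [h7] at h6
  have h8 : √((g + 1 : ℕ) : ℝ) * Hm (g + 1) * (1 / 2) ≤ C * √((g + 1 : ℕ) : ℝ) := by
    calc √((g + 1 : ℕ) : ℝ) * Hm (g + 1) * (1 / 2)
        = kap (g + 1) (g + 1) * (((g + 1 : ℕ) : ℝ) * (1 / 2)) := by rw [← h6]; ring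
      _ ≤ ga (kap (g + 1)) s (fun n => u.fn (g, n)) := h4
      _ ≤ ‖u‖ := h2
      _ ≤ C * √((g + 1 : ℕ) : ℝ) := h1
  have hs0 : 0 < √((g + 1 : ℕ) : ℝ) := Real.sqrt_pos.2 (by positivity)
  nlinarith

end Pool.Agent.WB
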