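import Pool.Agent.Lib.MP_c7fb7b_an.M2
import Pool.Agent.Lib.MP_c7fb7b_an.M3
import Pool.Agent.Lib.MP_c7fb7b_an.Q3
import Pool.Agent.Lib.MP_c7fb7b_an.S3
import Pool.Agent.Lib.MP_c7fb7b_an.S4

/-!
# Z: assembly (helper80)
-/

open Finset Filter Topology

namespace Pool.Agent.WB

/-- The map. -/
noncomputable def ff (x : Sp XF lat_XF) : Sp YF lat_YF := Sp.mk' (fr x.fn) (mem_fr x.fn x.mem)

theorem ff_lip (x y : Sp XF lat_XF) : ‖ff x - ff y‖ ≤ 80 * ‖x - y‖ := by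
  rw [Sp.norm_le_iff _ (by positivity)]
  have h := Sp.bd_norm (x - y)
  rw [Sp.fn_sub] at h
  exact fr_lip _ _ h

theorem ff_lower (x y : Sp XF lat_XF) : ‖x - y‖ ≤ 81920 * ‖ff x - ff y‖ + 2560 := by
  rw [Sp.norm_le_iff _ (by positivity)]
  have h := Sp.bd_norm (ff x - ff y)
  rw [Sp.fn_sub] at h
  exact fr_lower _ _ h

theorem ff_coarse : CoarseLip ff := by
  refine ⟨81920, by norm_num, fun x y => ⟨?_, ?_⟩⟩
  · have h := ff_lower x y
    have : (81920 : ℝ)⁻¹ * ‖x - y‖ ≤ (81920 : ℝ)⁻¹ * (81920 * ‖ff x - ff y‖ + 2560) :=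
      mul_le_mul_of_nonneg_left h (by norm_num)
    have h2 : (81920 : ℝ)⁻¹ * (81920 * ‖ff x - ff y‖ + 2560) = ‖ff x - ff y‖ + 1 / 32 := by
      field_simp
      ring
    linarith
  · have h := ff_lip x y
    have h0 : 0 ≤ ‖x - y‖ := norm_nonneg _
    linarith

theorem ff_weak : WeakSeqCont ff := by
  refine seqCont_of (by norm_num : (0 : ℝ) ≤ 29) PP_YF ff (L := 80) ff_lip ?_
  intro γ' x a hx
  have hc := (continuous_fr γ').tendsto a.fn
  exact hc.comp (tendsto_pi_nhds.2 hx)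

/-- The whole theorem. -/
theorem main : ∃ (X Y : Type) (_ : NormedAddCommGroup X) (_ : NormedSpace ℝ X)
    (_ : CompleteSpace X) (_ : NormedAddCommGroup Y) (_ : NormedSpace ℝ Y) (_ : CompleteSpace Y),
    WeakBS 2 Y ∧ ¬ WeakBS 2 X ∧
      ∃ f : X → Y, CoarseLip f ∧ WeakSeqCont f ∧ ∀ x y, ‖f x - f y‖ ≤ 80 * ‖x - y‖ :=
  ⟨Sp XF lat_XF, Sp YF lat_YF, inferInstance, inferInstance, inferInstance, inferInstance,
    inferInstance, inferInstance, weakBS_of_PP (by norm_num : (0 : ℝ) ≤ 29) PP_YF, X_fails,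
    ff, ff_coarse, ff_weak, ff_lip⟩

end Pool.Agent.WB
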